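import Pool.Agent.H168R3.Lift

/-! Convolution of block functions. -/

namespace Pool.Agent.H168R3

section
variable {F : Type} [Field F]

abbrev BF (F : Type) := ℕ → Finset ℕ → F

def cv (f g : BF F) : BF F := fun a A => ∑ B ∈ A.powerset, f a B * g (a + B.card) (A \ B)

theorem cv_assoc (f g h : BF F) (a : ℕ) (A : Finset ℕ) : cv (cv f g) h a A = cv f (cv g h) a A := by
  obtain ⟨T, hT⟩ : ∃ T : Finset ℕ → Finset ℕ → Finset ℕ → F, ∀ B1 B2 B3, T B1 B2 B3 =
    f a B1 * g (a + B1.card) B2 * h (a + B1.card + B2.card) B3 := ⟨fun _ _ _ => _, fun _ _ _ => rfl⟩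
  have h1 : cv (cv f g) h a A = ∑ B ∈ A.powerset, ∑ B1 ∈ B.powerset, T B1 (B \ B1) (A \ B) := by
    unfold cv
    apply Finset.sum_congr rfl
    intro B _
    rw [Finset.sum_mul]
    apply Finset.sum_congr rfl
    intro B1 hB1
    rw [Finset.mem_powerset] at hB1
    rw [hT]
    have : a + B.card = a + B1.card + (B \ B1).card := by
      have := Finset.card_sdiff_add_card_eq_card hB1
      omega
    rw [this]
  have h2 : cv f (cv g h) a A = ∑ B1 ∈ A.powerset, ∑ B2 ∈ (A \ B1).powerset, T B1 B2 ((A \ B1) \ B2) := by
    unfold cv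
    apply Finset.sum_congr rfl
    intro B1 _
    rw [Finset.mul_sum]
    apply Finset.sum_congr rfl
    intro B2 _
    rw [hT]; ring
  rw [h1, h2, triple_sum]

theorem cv_add_right (f g h : BF F) (a : ℕ) (A : Finset ℕ) :
    cv f (fun a A => g a A + h a A) a A = cv f g a A + cv f h a A := by
  unfold cv; rw [← Finset.sum_add_distrib]
  exact Finset.sum_congr rfl (fun _ _ => by ring)

theorem cv_sub_right (f g h : BF F) (a : ℕ) (A : Finset ℕ) :
    cv f (fun a A => g a A - h a A) a A = cv f g a A - cv f h a A := by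
  unfold cv; rw [← Finset.sum_sub_distrib]
  exact Finset.sum_congr rfl (fun _ _ => by ring)

theorem cv_add_left (f g h : BF F) (a : ℕ) (A : Finset ℕ) :
    cv (fun a A => f a A + g a A) h a A = cv f h a A + cv g h a A := by
  unfold cv; rw [← Finset.sum_add_distrib]
  exact Finset.sum_congr rfl (fun _ _ => by ring)

theorem cv_sub_left (f g h : BF F) (a : ℕ) (A : Finset ℕ) :
    cv (fun a A => f a A - g a A) h a A = cv f h a A - cv g h a A := by
  unfold cv; rw [← Finset.sum_sub_distrib]
  exact Finset.sum_congr rfl (fun _ _ => by ring)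

theorem cv_congr {f g h h' : BF F} {a : ℕ} {A : Finset ℕ} (hf : ∀ B ⊆ A, f a B = g a B)
    (hh : ∀ a, ∀ B ⊆ A, h a B = h' a B) : cv f h a A = cv g h' a A := by
  unfold cv
  apply Finset.sum_congr rfl
  intro B hB
  rw [hf B (Finset.mem_powerset.1 hB), hh _ _ Finset.sdiff_subset]

noncomputable def YY (P : BF F) (a : ℕ) (A : Finset ℕ) : F :=
  if A = ∅ then 1 else -((A.card : F)⁻¹ * ∑ B ∈ A.ssubsets.attach, YY P a B.1 * P (a + B.1.card) (A \ B.1))
termination_by A.card
decreasing_by exact Finset.card_lt_card (Finset.mem_ssubsets.1 B.2)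

theorem YY_empty (P : BF F) (a : ℕ) : YY P a ∅ = 1 := by rw [YY, if_pos rfl]

theorem YY_eq {P : BF F} (hP : ∀ a, P a ∅ = 0) (a : ℕ) (A : Finset ℕ) (hA : A = ∅ ∨ (A.card : F) ≠ 0) :
    (A.card : F) * YY P a A = - cv (YY P) P a A := by
  by_cases h : A = ∅
  · subst h
    simp [cv, hP]
  · have hc : (A.card : F) ≠ 0 := by
      rcases hA with h' | h'
      · exact absurd h' h
      · exact h'
    rw [YY, if_neg h, mul_neg, ← mul_assoc, mul_inv_cancel₀ hc, one_mul]
    congr 1
    rw [Finset.sum_attach A.ssubsets (fun B => YY P a B * P (a + B.card) (A \ B))]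
    unfold cv
    apply Finset.sum_subset
    · intro B hB
      exact Finset.mem_powerset.2 (Finset.mem_ssubsets.1 hB).1
    · intro B hB hB'
      have : B = A := by
        by_contra hne
        exact hB' (Finset.mem_ssubsets.2 (Finset.ssubset_iff_subset_ne.2 ⟨Finset.mem_powerset.1 hB, hne⟩))
      rw [this, Finset.sdiff_self, hP, mul_zero]

def Jf : BF F := fun _ A => if A.card = 1 then 1 else 0
def Ef : BF F := fun _ _ => 1

theorem cv_EJ (a : ℕ) (A : Finset ℕ) : cv (Ef : BF F) Jf a A = A.card := by
  unfold cv Ef Jf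
  have h1 : ∑ B ∈ A.powerset, (1 : F) * (if (A \ B).card = 1 then 1 else 0) = ∑ B ∈ A.powerset, (if B.card = 1 then (1 : F) else 0) := by
    refine Finset.sum_nbij' (fun B => A \ B) (fun B => A \ B) ?_ ?_ ?_ ?_ ?_
    · intro B _; exact Finset.mem_powerset.2 Finset.sdiff_subset
    · intro B _; exact Finset.mem_powerset.2 Finset.sdiff_subset
    · intro B hB; exact Finset.sdiff_sdiff_eq_self (Finset.mem_powerset.1 hB)
    · intro B hB; exact Finset.sdiff_sdiff_eq_self (Finset.mem_powerset.1 hB)
    · intro B _; rw [one_mul]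
  rw [h1, Finset.sum_ite, Finset.sum_const_zero, add_zero, Finset.sum_const, nsmul_eq_mul, mul_one]
  have : A.powerset.filter (fun B => B.card = 1) = A.powersetCard 1 := (Finset.powersetCard_eq_filter).symm
  rw [this, Finset.card_powersetCard, Nat.choose_one_right]

theorem card_split {A B : Finset ℕ} (hB : B ⊆ A) : (A.card : F) = B.card + (A \ B).card := by
  have := Finset.card_sdiff_add_card_eq_card hB
  rw [← this]; push_cast; ring

theorem conv_main {n : ℕ} (hn : ∀ m : ℕ, 1 ≤ m → m ≤ n → (m : F) ≠ 0) (P Q : BF F) (hP0 : ∀ a, P a ∅ = 0)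
    (hQ0 : ∀ a, Q a ∅ = 0) (h1 : ∀ a j, P a {j} + Q a {j} = 1)
    (hE : ∀ a A, A.card ≤ n → ((A.card : F) - 1) * (P a A + Q a A) = cv P Q a A - cv Q P a A) :
    (∀ a A, A.card ≤ n → (A.card : F) * YY P a A = - cv (YY P) P a A) ∧
    (∀ a A, A.card ≤ n → (A.card : F) * cv Ef (YY P) a A = cv (cv Ef (YY P)) Q a A) := by
  have hY : ∀ a A, A.card ≤ n → (A.card : F) * YY P a A = - cv (YY P) P a A := by
    intro a A hA
    refine YY_eq hP0 a A ?_
    by_cases h : A = ∅
    · exact Or.inl h
    · exact Or.inr (hn _ (Finset.card_pos.2 (Finset.nonempty_iff_ne_empty.2 h)) hA)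
  set S : BF F := fun a A => P a A + Q a A with hS
  have hG : ∀ A : Finset ℕ, A.card ≤ n → ∀ a, cv (YY P) S a A = cv Jf (YY P) a A := by
    intro A
    induction A using Finset.strongInduction with
    | H A ih =>
      intro hA a
      by_cases h0 : A = ∅
      · subst h0
        simp [cv, hS, hP0, hQ0, Jf]
      by_cases hc1 : A.card = 1
      · obtain ⟨j, rfl⟩ := Finset.card_eq_one.1 hc1
        have e : ∀ f g : BF F, cv f g a {j} = f a ∅ * g a {j} + f a {j} * g (a + 1) ∅ := by
          intro f g
          unfold cv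
          have hps : ({j} : Finset ℕ).powerset = {∅, {j}} := by
            ext x; simp [Finset.subset_singleton_iff]
          rw [hps, Finset.sum_pair (Finset.singleton_ne_empty j).symm]
          simp
        rw [e, e, YY_empty, YY_empty]
        simp [hS, h1, hP0, hQ0, Jf]
      · have hcard : 2 ≤ A.card := by
          have := Finset.card_pos.2 (Finset.nonempty_iff_ne_empty.2 h0)
          omega
        have hne : (A.card : F) - 1 ≠ 0 := by
          have := hn (A.card - 1) (by omega) (by omega)
          rwa [Nat.cast_sub (by omega), Nat.cast_one] at this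
        have hle : ∀ B ⊆ A, B.card ≤ n := fun B hB => (Finset.card_le_card hB).trans hA
        have a1 : ((A.card : F) - 1) * cv (YY P) S a A = - cv (cv (YY P) P) S a A + cv (YY P) (fun a A => cv P Q a A - cv Q P a A) a A := by
          change ((A.card : F) - 1) * ∑ B ∈ A.powerset, YY P a B * S (a + B.card) (A \ B) =
            - (∑ B ∈ A.powerset, cv (YY P) P a B * S (a + B.card) (A \ B)) +
            ∑ B ∈ A.powerset, YY P a B * (cv P Q (a + B.card) (A \ B) - cv Q P (a + B.card) (A \ B))
          rw [Finset.mul_sum, ← Finset.sum_neg_distrib, ← Finset.sum_add_distrib]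
          apply Finset.sum_congr rfl
          intro B hB
          rw [Finset.mem_powerset] at hB
          have b1 := hY a B (hle B hB)
          have b2 := hE (a + B.card) (A \ B) (hle _ Finset.sdiff_subset)
          rw [card_split hB, ← b2]
          simp only [hS]
          linear_combination (P (a + B.card) (A \ B) + Q (a + B.card) (A \ B)) * b1
        have a2 : ((A.card : F) - 1) * cv Jf (YY P) a A = - cv Jf (cv (YY P) P) a A := by
          change ((A.card : F) - 1) * ∑ B ∈ A.powerset, Jf a B * YY P (a + B.card) (A \ B) =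
            - (∑ B ∈ A.powerset, Jf a B * cv (YY P) P (a + B.card) (A \ B))
          rw [Finset.mul_sum, ← Finset.sum_neg_distrib]
          apply Finset.sum_congr rfl
          intro B hB
          rw [Finset.mem_powerset] at hB
          have b1 := hY (a + B.card) (A \ B) (hle _ Finset.sdiff_subset)
          rw [card_split hB]
          unfold Jf
          split_ifs with hB1
          · rw [hB1] at b1 ⊢
            push_cast
            linear_combination b1
          · ring
        have a3 : ((A.card : F) - 1) * (cv (YY P) S a A - cv Jf (YY P) a A) =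
            - cv (fun a A => cv (YY P) S a A - cv Jf (YY P) a A) P a A := by
          rw [mul_sub, a1, a2, cv_sub_left, cv_assoc (YY P) P S, cv_sub_right, cv_assoc (YY P) S P, cv_assoc Jf (YY P) P]
          have e1 : cv (YY P) (cv P S) a A = cv (YY P) (cv P P) a A + cv (YY P) (cv P Q) a A := by
            rw [← cv_add_right]
            apply cv_congr (fun _ _ => rfl)
            intro a B _
            exact cv_add_right P P Q a B
          have e2 : cv (YY P) (cv S P) a A = cv (YY P) (cv P P) a A + cv (YY P) (cv Q P) a A := by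
            rw [← cv_add_right]
            apply cv_congr (fun _ _ => rfl)
            intro a B _
            exact cv_add_left P Q P a B
          rw [e1, e2]; ring
        have a4 : cv (fun a A => cv (YY P) S a A - cv Jf (YY P) a A) P a A = 0 := by
          change ∑ B ∈ A.powerset, (cv (YY P) S a B - cv Jf (YY P) a B) * P (a + B.card) (A \ B) = 0
          apply Finset.sum_eq_zero
          intro B hB
          rw [Finset.mem_powerset] at hB
          by_cases hBA : B = A
          · rw [hBA, Finset.sdiff_self, hP0, mul_zero]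
          · rw [ih B (Finset.ssubset_iff_subset_ne.2 ⟨hB, hBA⟩) (hle B hB) a, sub_self, zero_mul]
        rw [a4, neg_zero] at a3
        rcases mul_eq_zero.1 a3 with h | h
        · exact absurd h hne
        · exact sub_eq_zero.1 h
  refine ⟨hY, ?_⟩
  intro a A hA
  have hle : ∀ B ⊆ A, B.card ≤ n := fun B hB => (Finset.card_le_card hB).trans hA
  have c1 : (A.card : F) * cv Ef (YY P) a A = cv (cv Ef Jf) (YY P) a A - cv Ef (cv (YY P) P) a A := by
    have : cv (cv Ef Jf) (YY P) a A = ∑ B ∈ A.powerset, (B.card : F) * YY P (a + B.card) (A \ B) := by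
      change ∑ B ∈ A.powerset, cv Ef Jf a B * YY P (a + B.card) (A \ B) = _
      apply Finset.sum_congr rfl
      intro B _
      rw [cv_EJ]
    rw [this]
    change (A.card : F) * ∑ B ∈ A.powerset, Ef a B * YY P (a + B.card) (A \ B) = _ -
      ∑ B ∈ A.powerset, Ef a B * cv (YY P) P (a + B.card) (A \ B)
    rw [Finset.mul_sum, ← Finset.sum_sub_distrib]
    apply Finset.sum_congr rfl
    intro B hB
    rw [Finset.mem_powerset] at hB
    have b1 := hY (a + B.card) (A \ B) (hle _ Finset.sdiff_subset)
    rw [card_split hB]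
    unfold Ef
    linear_combination b1
  rw [c1, cv_assoc, cv_assoc Ef (YY P) Q]
  have c2 : cv Ef (cv Jf (YY P)) a A = cv Ef (cv (YY P) S) a A := by
    change ∑ B ∈ A.powerset, Ef a B * cv Jf (YY P) (a + B.card) (A \ B) =
      ∑ B ∈ A.powerset, Ef a B * cv (YY P) S (a + B.card) (A \ B)
    apply Finset.sum_congr rfl
    intro B hB
    rw [Finset.mem_powerset] at hB
    rw [hG (A \ B) (hle _ Finset.sdiff_subset) (a + B.card)]
  have c3 : cv Ef (cv (YY P) S) a A = cv Ef (cv (YY P) P) a A + cv Ef (cv (YY P) Q) a A := by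
    rw [← cv_add_right]
    apply cv_congr (fun _ _ => rfl)
    intro a B _
    exact cv_add_right (YY P) P Q a B
  rw [c2, c3]; ring

end

end Pool.Agent.H168R3
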