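import Pool.Agent.H168R3.Phi

/-! Evaluation of chains on functionals of position lists. -/

namespace Pool.Agent.H168R3

open FreeAlgebra

abbrev Acc (Y : Type) := ℕ → List (ℕ × Y)
abbrev Fn (k Y : Type) := ℕ → Acc Y → k

section
variable {k : Type} [CommRing k] {Y : Type}

def acc0 : Acc Y := fun _ => []

/-- product of the parities of the lengths -/
def sg (k : Type) [CommRing k] (S : Finset ℕ) (acc : Acc Y) : k := ∏ i ∈ S, (-1 : k) ^ (acc i).length

def push (acc : Acc Y) (j : ℕ) (e : ℕ × Y) : Acc Y := Function.update acc j (acc j ++ [e])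

def Tx (A : Finset ℕ) (x : ℕ × Y) : Module.End k (Fn k Y) where
  toFun F := fun t acc => sg k (A.filter (x.1 < ·)) acc * F (t + 1) (push acc x.1 (t, x.2))
  map_add' := by intro F G; funext t acc; simp [mul_add]
  map_smul' := by intro c F; funext t acc; simp; ring

def To : Module.End k (Fn k Y) where
  toFun F := fun t acc => F (t + 1) acc
  map_add' := by intro F G; rfl
  map_smul' := by intro c F; rfl

noncomputable def Ev (A : Finset ℕ) : W k (ℕ × Y) →ₐ[k] Module.End k (Fn k Y) :=
  lift k (fun a => match a with | none => To | some x => Tx A x)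

theorem Ev_o (A : Finset ℕ) (v : W k (ℕ × Y)) (F : Fn k Y) (t : ℕ) (acc : Acc Y) :
    Ev A (uo k _ * v) F t acc = Ev A v F (t + 1) acc := by
  rw [map_mul]
  have : Ev A (uo k (ℕ × Y)) = To := by simp [Ev]
  rw [this]; rfl

theorem Ev_x (A : Finset ℕ) (x : ℕ × Y) (v : W k (ℕ × Y)) (F : Fn k Y) (t : ℕ) (acc : Acc Y) :
    Ev A (ux k x * v) F t acc = sg k (A.filter (x.1 < ·)) acc * Ev A v F (t + 1) (push acc x.1 (t, x.2)) := by
  rw [map_mul]
  have : Ev A (ux k x) = Tx A x := by simp [Ev]
  rw [this]; rfl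

theorem Ev_one (A : Finset ℕ) (F : Fn k Y) (t : ℕ) (acc : Acc Y) : Ev A (1 : W k (ℕ × Y)) F t acc = F t acc := by
  rw [map_one]; rfl

theorem Ev_add (A : Finset ℕ) (u v : W k (ℕ × Y)) (F : Fn k Y) (t : ℕ) (acc : Acc Y) :
    Ev A (u + v) F t acc = Ev A u F t acc + Ev A v F t acc := by
  rw [map_add]; rfl

theorem Ev_smul (A : Finset ℕ) (c : k) (v : W k (ℕ × Y)) (F : Fn k Y) (t : ℕ) (acc : Acc Y) :
    Ev A (c • v) F t acc = c * Ev A v F t acc := by
  rw [map_smul]; rfl

theorem sg_update_notMem {S : Finset ℕ} {j : ℕ} (h : j ∉ S) (acc : Acc Y) (L : List (ℕ × Y)) :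
    sg k S (Function.update acc j L) = sg k S acc := by
  unfold sg
  apply Finset.prod_congr rfl
  intro i hi
  rw [Function.update_of_ne (by rintro rfl; exact h hi)]

theorem sg_update_mem {S : Finset ℕ} {j : ℕ} (h : j ∈ S) (acc : Acc Y) (L : List (ℕ × Y))
    (hL : L.length = (acc j).length + 1 ∨ L.length + 1 = (acc j).length) :
    sg k S (Function.update acc j L) = - sg k S acc := by
  unfold sg
  rw [← Finset.mul_prod_erase S _ h, ← Finset.mul_prod_erase S (fun i => (-1 : k) ^ (acc i).length) h]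
  have e1 : ∏ i ∈ S.erase j, (-1 : k) ^ (Function.update acc j L i).length = ∏ i ∈ S.erase j, (-1 : k) ^ (acc i).length := by
    apply Finset.prod_congr rfl
    intro i hi
    rw [Function.update_of_ne (Finset.ne_of_mem_erase hi)]
  rw [e1, Function.update_self]
  rcases hL with h | h
  · rw [h, pow_succ]; ring
  · rw [← h, pow_succ]; ring

theorem sg_split {A : Finset ℕ} {j : ℕ} (h : j ∈ A) (acc : Acc Y) :
    sg k A acc = sg k (A.filter (j < ·)) acc * (sg k (A.filter (· < j)) acc * (-1) ^ (acc j).length) := by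
  unfold sg
  rw [← Finset.prod_filter_mul_prod_filter_not A (· < j)]
  have : A.filter (fun x => ¬ x < j) = insert j (A.filter (j < ·)) := by
    ext x
    simp only [Finset.mem_filter, Finset.mem_insert]
    constructor
    · rintro ⟨h1, h2⟩
      rcases lt_or_eq_of_le (not_lt.1 h2) with h3 | h3
      · exact Or.inr ⟨h1, h3⟩
      · exact Or.inl h3.symm
    · rintro (rfl | ⟨h1, h2⟩)
      · exact ⟨h, lt_irrefl _⟩
      · exact ⟨h1, by omega⟩
  rw [this, Finset.prod_insert (by simp)]
  ring

/-- boundary of functionals -/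
def bd (A : Finset ℕ) (F : Fn k Y) : Fn k Y := fun t acc =>
  ∑ j ∈ A, sg k (A.filter (· < j)) acc *
    ∑ i ∈ Finset.range (acc j).length, (-1 : k) ^ i * F t (Function.update acc j ((acc j).eraseIdx i))

theorem bd_add (A : Finset ℕ) (F G : Fn k Y) (t : ℕ) (acc : Acc Y) : bd A (F + G) t acc = bd A F t acc + bd A G t acc := by
  unfold bd
  rw [← Finset.sum_add_distrib]
  apply Finset.sum_congr rfl
  intro j _
  rw [← mul_add, ← Finset.sum_add_distrib]
  congr 1
  apply Finset.sum_congr rfl
  intro i _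
  simp [mul_add]

theorem bd_smul (A : Finset ℕ) (c : k) (F : Fn k Y) (t : ℕ) (acc : Acc Y) : bd A (c • F) t acc = c * bd A F t acc := by
  unfold bd
  simp only [Finset.mul_sum]
  apply Finset.sum_congr rfl
  intro j _
  apply Finset.sum_congr rfl
  intro i _
  simp; ring

theorem bd_x (A : Finset ℕ) (x : ℕ × Y) (hx : x.1 ∈ A) (F : Fn k Y) (t : ℕ) (acc : Acc Y) :
    sg k (A.filter (x.1 < ·)) acc * bd A F (t + 1) (push acc x.1 (t, x.2)) =
    bd A (fun t acc => sg k (A.filter (x.1 < ·)) acc * F (t + 1) (push acc x.1 (t, x.2))) t acc +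
      sg k A acc * F (t + 1) acc := by
  set j := x.1 with hj
  set s := x.2 with hs
  have key : ∀ i ∈ A, sg k (A.filter (j < ·)) acc * (sg k (A.filter (· < i)) (push acc j (t, s)) *
      ∑ m ∈ Finset.range (push acc j (t, s) i).length, (-1 : k) ^ m *
        F (t + 1) (Function.update (push acc j (t, s)) i ((push acc j (t, s) i).eraseIdx m))) =
      sg k (A.filter (· < i)) acc *
      ∑ m ∈ Finset.range (acc i).length, (-1 : k) ^ m * (sg k (A.filter (j < ·)) (Function.update acc i ((acc i).eraseIdx m)) *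
        F (t + 1) (push (Function.update acc i ((acc i).eraseIdx m)) j (t, s))) +
      if i = j then sg k A acc * F (t + 1) acc else 0 := by
    intro i hi
    by_cases hij : i = j
    · subst hij
      rw [if_pos rfl]
      have e1 : sg k (A.filter (· < j)) (push acc j (t, s)) = sg k (A.filter (· < j)) acc :=
        sg_update_notMem (by simp) _ _
      have e2 : push acc j (t, s) j = acc j ++ [(t, s)] := by simp [push]
      rw [e1, e2, List.length_append, List.length_singleton, Finset.sum_range_succ]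
      have e3 : Function.update (push acc j (t, s)) j ((acc j ++ [(t, s)]).eraseIdx (acc j).length) = acc := by
        rw [push, Function.update_idem, List.eraseIdx_append_of_length_le le_rfl]
        simp
      rw [e3, sg_split hx acc, mul_add, mul_add]
      congr 1
      · rw [← mul_assoc, mul_comm (sg k (A.filter (j < ·)) acc), mul_assoc, Finset.mul_sum]
        congr 1
        apply Finset.sum_congr rfl
        intro m hm
        rw [Finset.mem_range] at hm
        have e4 : sg k (A.filter (j < ·)) (Function.update acc j ((acc j).eraseIdx m)) = sg k (A.filter (j < ·)) acc :=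
          sg_update_notMem (by simp) _ _
        have e5 : Function.update (push acc j (t, s)) j ((acc j ++ [(t, s)]).eraseIdx m) =
            push (Function.update acc j ((acc j).eraseIdx m)) j (t, s) := by
          rw [push, push, Function.update_idem, Function.update_idem, Function.update_self,
            List.eraseIdx_append_of_lt_length hm]
        rw [e4, e5]
        ring
      · ring
    · rw [if_neg hij, add_zero]
      have e2 : push acc j (t, s) i = acc i := by simp [push, hij]
      rw [e2, Finset.mul_sum, Finset.mul_sum, Finset.mul_sum]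
      apply Finset.sum_congr rfl
      intro m hm
      rw [Finset.mem_range] at hm
      have e3 : Function.update (push acc j (t, s)) i ((acc i).eraseIdx m) =
          push (Function.update acc i ((acc i).eraseIdx m)) j (t, s) := by
        rw [push, push, Function.update_comm hij, Function.update_of_ne (Ne.symm hij)]
      rw [e3]
      have e4 : sg k (A.filter (j < ·)) acc * sg k (A.filter (· < i)) (push acc j (t, s)) =
          sg k (A.filter (· < i)) acc * sg k (A.filter (j < ·)) (Function.update acc i ((acc i).eraseIdx m)) := by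
        rcases lt_or_gt_of_ne hij with h | h
        · rw [push, sg_update_notMem (by simp; omega), sg_update_notMem (by simp; omega)]
          ring
        · rw [push, sg_update_mem (by simp [h, hx]) _ _ (Or.inl (by simp)),
            sg_update_mem (by simp [h, hi]) _ _ (Or.inr ?_)]
          · ring
          · rw [List.length_eraseIdx_of_lt hm]; omega
      calc _ = (sg k (A.filter (j < ·)) acc * sg k (A.filter (· < i)) (push acc j (t, s))) * ((-1) ^ m *
          F (t + 1) (push (Function.update acc i ((acc i).eraseIdx m)) j (t, s))) := by ring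
        _ = _ := by rw [e4]; ring
  unfold bd
  rw [Finset.mul_sum, Finset.sum_congr rfl key, Finset.sum_add_distrib]
  congr 1
  rw [Finset.sum_ite_eq' A j, if_pos hx]

theorem Ev_bd (A : Finset ℕ) {v : W k (ℕ × Y)} (hv : v ∈ U k {x : ℕ × Y | x.1 ∈ A}) : ∀ (F : Fn k Y) t acc,
    Ev A v (bd A F) t acc = bd A (Ev A v F) t acc + sg k A acc * Ev A (D v) F t acc := by
  refine U_ind (P := fun v => ∀ (F : Fn k Y) t acc,
    Ev A v (bd A F) t acc = bd A (Ev A v F) t acc + sg k A acc * Ev A (D v) F t acc) ?_ ?_ ?_ ?_ ?_ v hv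
  · intro F t acc
    rw [D_one, map_one, map_zero]
    simp
  · intro x y hx hy F t acc
    rw [Ev_add, hx, hy, map_add, map_add, Ev_add, LinearMap.add_apply, bd_add]
    ring
  · intro c x hx F t acc
    rw [Ev_smul, hx, map_smul, map_smul, Ev_smul, LinearMap.smul_apply, bd_smul]
    ring
  · intro v _ hv F t acc
    rw [Ev_o, hv, D_o, Ev_o]
    congr 1
    unfold bd
    simp only [Ev_o]
  · intro x hx v _ hv F t acc
    rw [Ev_x, hv, mul_add, bd_x A x hx, D_x]
    have e1 : Ev A (uo k (ℕ × Y) * v - ux k x * D v) F t acc = Ev A v F (t + 1) acc -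
        sg k (A.filter (x.1 < ·)) acc * Ev A (D v) F (t + 1) (push acc x.1 (t, x.2)) := by
      rw [sub_eq_add_neg, Ev_add, Ev_o, ← Ev_x, map_neg]
      rw [sub_eq_add_neg]; rfl
    rw [e1]
    have e2 : sg k A (push acc x.1 (t, x.2)) = - sg k A acc := sg_update_mem hx _ _ (Or.inl (by simp))
    rw [e2]
    have e3 : Ev A (ux k x * v) F = fun t acc => sg k (A.filter (x.1 < ·)) acc * Ev A v F (t + 1) (push acc x.1 (t, x.2)) := by
      funext t acc; exact Ev_x _ _ _ _ _ _
    rw [e3]
    ring

theorem bd_acc0 (A : Finset ℕ) (F : Fn k Y) (t : ℕ) : bd A F t acc0 = 0 := by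
  unfold bd
  apply Finset.sum_eq_zero
  intro j _
  simp [acc0]

theorem Ev_bd0 (A : Finset ℕ) {v : W k (ℕ × Y)} (hv : v ∈ U k {x : ℕ × Y | x.1 ∈ A}) (F : Fn k Y) (t : ℕ) :
    Ev A v (bd A F) t acc0 = Ev A (D v) F t acc0 := by
  rw [Ev_bd A hv, bd_acc0, zero_add]
  have : sg k A (acc0 : Acc Y) = 1 := by simp [sg, acc0]
  rw [this, one_mul]

/-- functionals killed when the letter `y` does not occur -/
def Kill (y : ℕ × Y) (F : Fn k Y) : Prop := ∀ t acc, (∀ e ∈ acc y.1, e.2 ≠ y.2) → F t acc = 0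

theorem Ev_kill (A : Finset ℕ) (y : ℕ × Y) {S : Set (ℕ × Y)} (hS : y ∉ S) {v : W k (ℕ × Y)} (hv : v ∈ U k S)
    (F : Fn k Y) (hF : Kill y F) : Kill y (Ev A v F) := by
  refine U_ind (P := fun v => Kill y (Ev A v F)) ?_ ?_ ?_ ?_ ?_ v hv
  · intro t acc h; rw [Ev_one]; exact hF t acc h
  · intro u v hu hv t acc h; rw [Ev_add, hu t acc h, hv t acc h, add_zero]
  · intro c v hv t acc h; rw [Ev_smul, hv t acc h, mul_zero]
  · intro v _ hv t acc h; rw [Ev_o]; exact hv _ _ h
  · intro x hx v _ hv t acc h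
    rw [Ev_x, hv _ _ ?_, mul_zero]
    intro e he
    by_cases hxy : y.1 = x.1
    · rw [push, hxy, Function.update_self, List.mem_append] at he
      rcases he with he | he
      · rw [← hxy] at he; exact h e he
      · rw [List.mem_singleton] at he
        rw [he]
        intro h2
        exact hS (by rw [show y = x from Prod.ext hxy h2.symm]; exact hx)
    · rw [push, Function.update_of_ne hxy] at he
      exact h e he

/-- product functional -/
def Om (A : Finset ℕ) (w : ℕ → List (ℕ × Y) → k) : Fn k Y := fun _ acc => ∏ i ∈ A, w i (acc i)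

theorem Ev_loc (B : Finset ℕ) (F : Fn k Y) (hF : ∀ t acc acc', (∀ i ∈ B, acc i = acc' i) → F t acc = F t acc')
    (v : W k (ℕ × Y)) : ∀ t acc acc', (∀ i ∈ B, acc i = acc' i) → Ev B v F t acc = Ev B v F t acc' := by
  refine ind (P := fun v => ∀ t acc acc', (∀ i ∈ B, acc i = acc' i) → Ev B v F t acc = Ev B v F t acc') ?_ ?_ ?_ ?_ v
  · intro t acc acc' h; rw [Ev_one, Ev_one]; exact hF _ _ _ h
  · intro u v hu hv t acc acc' h; rw [Ev_add, Ev_add, hu t acc acc' h, hv t acc acc' h]
  · intro c v hv t acc acc' h; rw [Ev_smul, Ev_smul, hv t acc acc' h]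
  · intro a v hv t acc acc' h
    cases a with
    | none =>
      change Ev B (uo k _ * v) F t acc = Ev B (uo k _ * v) F t acc'
      rw [Ev_o, Ev_o]; exact hv _ _ _ h
    | some x =>
      change Ev B (ux k x * v) F t acc = Ev B (ux k x * v) F t acc'
      rw [Ev_x, Ev_x, hv _ _ (push acc' x.1 (t, x.2)) ?_]
      · congr 1
        unfold sg
        apply Finset.prod_congr rfl
        intro i hi
        rw [h i (Finset.mem_filter.1 hi).1]
      · intro i hi
        unfold push
        by_cases hix : i = x.1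
        · subst hix; rw [Function.update_self, Function.update_self, h _ hi]
        · rw [Function.update_of_ne hix, Function.update_of_ne hix, h _ hi]

/-- reading letters with labels in `B` while the other lists are empty -/
theorem Ev_res {A B : Finset ℕ} (hB : B ⊆ A) {u : W k (ℕ × Y)} (hu : u ∈ U k {x : ℕ × Y | x.1 ∈ B}) (F G : Fn k Y)
    (hFG : ∀ t acc, (∀ i ∈ A \ B, acc i = []) → F t acc = G t acc) :
    ∀ t acc, (∀ i ∈ A \ B, acc i = []) → Ev A u F t acc = Ev B u G t acc := by
  refine U_ind (P := fun u => ∀ t acc, (∀ i ∈ A \ B, acc i = []) → Ev A u F t acc = Ev B u G t acc) ?_ ?_ ?_ ?_ ?_ u hu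
  · intro t acc h; rw [Ev_one, Ev_one]; exact hFG _ _ h
  · intro u v hu hv t acc h; rw [Ev_add, Ev_add, hu t acc h, hv t acc h]
  · intro c v hv t acc h; rw [Ev_smul, Ev_smul, hv t acc h]
  · intro v _ hv t acc h; rw [Ev_o, Ev_o]; exact hv _ _ h
  · intro x hx v _ hv t acc h
    rw [Ev_x, Ev_x, hv _ _ ?_]
    · congr 1
      unfold sg
      symm
      apply Finset.prod_subset (Finset.filter_subset_filter _ hB)
      intro i hi hi'
      rw [Finset.mem_filter] at hi hi'
      have : i ∈ A \ B := Finset.mem_sdiff.2 ⟨hi.1, fun h => hi' ⟨h, hi.2⟩⟩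
      rw [h i this]; simp
    · intro i hi
      have hix : i ≠ x.1 := by rintro rfl; exact (Finset.mem_sdiff.1 hi).2 hx
      rw [push, Function.update_of_ne hix]
      exact h i hi

theorem Ev_prod {A B : Finset ℕ} (hB : B ⊆ A) (w : ℕ → List (ℕ × Y) → k) (len : ℕ → ℕ)
    (hw : ∀ i L, L.length ≠ len i → w i L = 0) {v : W k (ℕ × Y)} (hv : v ∈ U k {x : ℕ × Y | x.1 ∈ A \ B}) :
    ∀ t acc, Ev A v (Om A w) t acc * ∏ j ∈ A \ B, (∏ i ∈ B.filter (j < ·), (-1 : k) ^ len i) ^ (acc j).length =
      (∏ i ∈ B, w i (acc i)) * (∏ j ∈ A \ B, (∏ i ∈ B.filter (j < ·), (-1 : k) ^ len i) ^ len j) *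
        Ev (A \ B) v (Om (A \ B) w) t acc := by
  refine U_ind (P := fun v => ∀ t acc, Ev A v (Om A w) t acc * ∏ j ∈ A \ B, (∏ i ∈ B.filter (j < ·), (-1 : k) ^ len i) ^ (acc j).length =
      (∏ i ∈ B, w i (acc i)) * (∏ j ∈ A \ B, (∏ i ∈ B.filter (j < ·), (-1 : k) ^ len i) ^ len j) *
        Ev (A \ B) v (Om (A \ B) w) t acc) ?_ ?_ ?_ ?_ ?_ v hv
  · intro t acc
    rw [Ev_one, Ev_one, Om, Om]
    have e1 : ∏ i ∈ A, w i (acc i) = (∏ i ∈ A \ B, w i (acc i)) * ∏ i ∈ B, w i (acc i) := (Finset.prod_sdiff hB).symm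
    rw [e1]
    by_cases h : ∀ i ∈ A \ B, (acc i).length = len i
    · have e2 : ∏ j ∈ A \ B, (∏ i ∈ B.filter (j < ·), (-1 : k) ^ len i) ^ (acc j).length =
          ∏ j ∈ A \ B, (∏ i ∈ B.filter (j < ·), (-1 : k) ^ len i) ^ len j := by
        apply Finset.prod_congr rfl
        intro j hj
        rw [h j hj]
      rw [e2]; ring
    · push Not at h
      obtain ⟨i, hi, hne⟩ := h
      have e3 : ∏ i ∈ A \ B, w i (acc i) = 0 := Finset.prod_eq_zero hi (hw i _ hne)
      rw [e3]; ring
  · intro u v hu hv t acc; rw [Ev_add, Ev_add, add_mul, hu, hv]; ring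
  · intro c v hv t acc; rw [Ev_smul, Ev_smul, mul_assoc, hv]; ring
  · intro v _ hv t acc; rw [Ev_o, Ev_o]; exact hv _ _
  · intro x hx v _ hv t acc
    have hx' : x.1 ∈ A \ B := hx
    have hxA := (Finset.mem_sdiff.1 hx').1
    have hxB := (Finset.mem_sdiff.1 hx').2
    rw [Ev_x, Ev_x]
    have ih := hv (t + 1) (push acc x.1 (t, x.2))
    set E := ∏ i ∈ B.filter (x.1 < ·), (-1 : k) ^ len i with hE
    have hE2 : E * E = 1 := by
      rw [hE, ← Finset.prod_mul_distrib]
      apply Finset.prod_eq_one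
      intro i _
      rw [← pow_add, ← two_mul, pow_mul]; simp
    have e1 : ∏ j ∈ A \ B, (∏ i ∈ B.filter (j < ·), (-1 : k) ^ len i) ^ (push acc x.1 (t, x.2) j).length =
        E * ∏ j ∈ A \ B, (∏ i ∈ B.filter (j < ·), (-1 : k) ^ len i) ^ (acc j).length := by
      rw [← Finset.mul_prod_erase (A \ B) _ hx', ← Finset.mul_prod_erase (A \ B)
        (fun j => (∏ i ∈ B.filter (j < ·), (-1 : k) ^ len i) ^ (acc j).length) hx', ← mul_assoc]
      congr 1
      · rw [push, Function.update_self, List.length_append, List.length_singleton, pow_succ, ← hE]; ring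
      · apply Finset.prod_congr rfl
        intro j hj
        rw [push, Function.update_of_ne (Finset.ne_of_mem_erase hj)]
    have e2 : ∏ i ∈ B, w i (push acc x.1 (t, x.2) i) = ∏ i ∈ B, w i (acc i) := by
      apply Finset.prod_congr rfl
      intro i hi
      rw [push, Function.update_of_ne (by rintro rfl; exact hxB hi)]
    rw [e1, e2] at ih
    have e3 : sg k (A.filter (x.1 < ·)) acc = sg k ((A \ B).filter (x.1 < ·)) acc * sg k (B.filter (x.1 < ·)) acc := by
      unfold sg
      have : (A \ B).filter (x.1 < ·) = A.filter (x.1 < ·) \ B.filter (x.1 < ·) := by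
        ext i; simp only [Finset.mem_filter, Finset.mem_sdiff]; tauto
      rw [this, Finset.prod_sdiff (Finset.filter_subset_filter _ hB)]
    have e4 : sg k (B.filter (x.1 < ·)) acc * (∏ i ∈ B, w i (acc i)) = E * (∏ i ∈ B, w i (acc i)) := by
      by_cases h : ∀ i ∈ B, (acc i).length = len i
      · congr 1
        unfold sg
        rw [hE]
        apply Finset.prod_congr rfl
        intro i hi
        rw [h i (Finset.mem_filter.1 hi).1]
      · push Not at h
        obtain ⟨i, hi, hne⟩ := h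
        have e3 : ∏ i ∈ B, w i (acc i) = 0 := Finset.prod_eq_zero hi (hw i _ hne)
        rw [e3]; ring
    set R := ∏ j ∈ A \ B, (∏ i ∈ B.filter (j < ·), (-1 : k) ^ len i) ^ (acc j).length with hR
    set sig := ∏ j ∈ A \ B, (∏ i ∈ B.filter (j < ·), (-1 : k) ^ len i) ^ len j with hsig
    set X1 := Ev A v (Om A w) (t + 1) (push acc x.1 (t, x.2)) with hX1
    set X2 := Ev (A \ B) v (Om (A \ B) w) (t + 1) (push acc x.1 (t, x.2)) with hX2
    set s1 := sg k ((A \ B).filter (x.1 < ·)) acc with hs1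
    set s2 := sg k (B.filter (x.1 < ·)) acc with hs2
    rw [e3]
    have e5 : X1 * R = E * ((∏ i ∈ B, w i (acc i)) * sig * X2) := by
      rw [← ih]
      have : E * (X1 * (E * R)) = (E * E) * (X1 * R) := by ring
      rw [this, hE2, one_mul]
    have e6 : s1 * s2 * X1 * R = s1 * s2 * (E * ((∏ i ∈ B, w i (acc i)) * sig * X2)) := by rw [← e5]; ring
    rw [e6]
    have e7 : s1 * s2 * (E * ((∏ i ∈ B, w i (acc i)) * sig * X2)) =
        s1 * E * sig * X2 * (s2 * (∏ i ∈ B, w i (acc i))) := by ring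
    rw [e7, e4]
    have e8 : s1 * E * sig * X2 * (E * ∏ i ∈ B, w i (acc i)) = (E * E) * ((∏ i ∈ B, w i (acc i)) * sig * (s1 * X2)) := by ring
    rw [e8, hE2, one_mul]

theorem Srt.mem_U {A : Finset ℕ} {val : ℕ × Y → ℤ} {b : ℤ} {d : ℕ} {v : W k (ℕ × Y)} (h : Srt A val b d v) :
    v ∈ U k {x : ℕ × Y | x.1 ∈ A} := by
  induction h with
  | one b => exact one_mem _
  | zero b d => exact zero_mem _
  | add _ _ ih1 ih2 => exact add_mem ih1 ih2
  | smul c _ ih => exact Subalgebra.smul_mem _ ih c
  | x x hx hbx _ ih => exact mul_mem (ux_mem hx) ih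

theorem Ev_time {A B : Finset ℕ} {val : ℕ × Y → ℤ} {b : ℤ} {d : ℕ} {v : W k (ℕ × Y)} (h : Srt A val b d v)
    (F1 : Acc Y → k) (c : ℕ → k) : ∀ t acc, Ev B v (fun t acc => F1 acc * c t) t acc =
      Ev B v (fun _ acc => F1 acc) t acc * c (t + d) := by
  induction h with
  | one b => intro t acc; rw [Ev_one, Ev_one]; rfl
  | zero b d => intro t acc; rw [map_zero]; simp
  | add _ _ ih1 ih2 => intro t acc; rw [Ev_add, Ev_add, ih1, ih2]; ring
  | smul c _ ih => intro t acc; rw [Ev_smul, Ev_smul, ih]; ring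
  | @x b d v x hx hbx _ ih =>
    intro t acc
    rw [Ev_x, Ev_x, ih, show t + 1 + d = t + (d + 1) by ring]; ring

theorem Ev_len {A B : Finset ℕ} (hAB : A ⊆ B) {val : ℕ × Y → ℤ} {b : ℤ} {d : ℕ} {v : W k (ℕ × Y)} (h : Srt A val b d v)
    (F : Fn k Y) (n : ℕ) (hF : ∀ t acc, ∑ i ∈ B, (acc i).length ≠ n → F t acc = 0) :
    ∀ t acc, ∑ i ∈ B, (acc i).length + d ≠ n → Ev B v F t acc = 0 := by
  induction h with
  | one b => intro t acc h; rw [Ev_one]; exact hF _ _ (by simpa using h)
  | zero b d => intro t acc h; rw [map_zero]; simp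
  | add _ _ ih1 ih2 => intro t acc h; rw [Ev_add, ih1 _ _ h, ih2 _ _ h, add_zero]
  | smul c _ ih => intro t acc h; rw [Ev_smul, ih _ _ h, mul_zero]
  | @x b d v x hx hbx _ ih =>
    intro t acc h
    rw [Ev_x, ih, mul_zero]
    have hxB := hAB hx
    have : ∑ i ∈ B, (push acc x.1 (t, x.2) i).length = ∑ i ∈ B, (acc i).length + 1 := by
      rw [← Finset.add_sum_erase B _ hxB, ← Finset.add_sum_erase B (fun i => (acc i).length) hxB]
      have e1 : ∑ i ∈ B.erase x.1, (push acc x.1 (t, x.2) i).length = ∑ i ∈ B.erase x.1, (acc i).length := by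
        apply Finset.sum_congr rfl
        intro j hj
        rw [push, Function.update_of_ne (Finset.ne_of_mem_erase hj)]
      rw [e1, push, Function.update_self, List.length_append, List.length_singleton]
      ring
    rw [this]; omega

theorem prod_eval {A B : Finset ℕ} (hB : B ⊆ A) (w : ℕ → List (ℕ × Y) → k) (len : ℕ → ℕ)
    (hw : ∀ i L, L.length ≠ len i → w i L = 0) {val : ℕ × Y → ℤ} {b : ℤ} {d : ℕ} {u v : W k (ℕ × Y)}
    (hu : Srt B val b d u) (hv : v ∈ U k {x : ℕ × Y | x.1 ∈ A \ B}) (t : ℕ) :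
    Ev A (u * uo k _ * v) (Om A w) t acc0 =
      (∏ j ∈ A \ B, (∏ i ∈ B.filter (j < ·), (-1 : k) ^ len i) ^ len j) *
        (Ev B u (Om B w) t acc0 * Ev (A \ B) v (Om (A \ B) w) (t + d + 1) acc0) := by
  set sig := ∏ j ∈ A \ B, (∏ i ∈ B.filter (j < ·), (-1 : k) ^ len i) ^ len j with hsig
  rw [mul_assoc, map_mul]
  change Ev A u (Ev A (uo k _ * v) (Om A w)) t acc0 = _
  have hG : ∀ t acc, (∀ i ∈ A \ B, acc i = []) → Ev A (uo k _ * v) (Om A w) t acc =
      (fun t (acc : Acc Y) => (∏ i ∈ B, w i (acc i)) * (sig * Ev (A \ B) v (Om (A \ B) w) (t + 1) acc0)) t acc := by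
    intro t acc h
    rw [Ev_o]
    have h1 := Ev_prod hB w len hw hv (t + 1) acc
    have h2 : ∏ j ∈ A \ B, (∏ i ∈ B.filter (j < ·), (-1 : k) ^ len i) ^ (acc j).length = 1 := by
      apply Finset.prod_eq_one
      intro j hj
      rw [h j hj]; simp
    rw [h2, mul_one, ← hsig] at h1
    rw [h1]
    have h3 : Ev (A \ B) v (Om (A \ B) w) (t + 1) acc = Ev (A \ B) v (Om (A \ B) w) (t + 1) acc0 := by
      refine Ev_loc (A \ B) _ ?_ v _ _ _ ?_
      · intro t acc acc' h
        unfold Om
        apply Finset.prod_congr rfl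
        intro i hi
        rw [h i hi]
      · intro i hi; rw [h i hi]; rfl
    rw [h3]; ring
  rw [Ev_res hB hu.mem_U _ _ hG t acc0 (fun _ _ => rfl)]
  rw [Ev_time hu (fun acc => ∏ i ∈ B, w i (acc i)) (fun t => sig * Ev (A \ B) v (Om (A \ B) w) (t + 1) acc0)]
  change Ev B u (Om B w) t acc0 * _ = _
  ring

end

end Pool.Agent.H168R3
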