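import Pool.Agent.H168R3.Eval1

/-! The two colour functionals and their recursion. -/

namespace Pool.Agent.H168R3

open FreeAlgebra

section
variable {k : Type} [CommRing k] {Y : Type}

def v2 (e : Y → k) (χ : ℕ → ℕ → k) : List (ℕ × Y) → k
  | [a, b] => (e b.2 - e a.2) * χ a.1 b.1
  | _ => 0

def v3 (e : Y → k) (χ : ℕ → ℕ → k) (L : List (ℕ × Y)) : k :=
  ∑ i ∈ Finset.range L.length, (-1 : k) ^ i * v2 e χ (L.eraseIdx i)

theorem v2_len (e : Y → k) (χ : ℕ → ℕ → k) {L : List (ℕ × Y)} (h : L.length ≠ 2) : v2 e χ L = 0 := by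
  match L, h with
  | [], _ => rfl
  | [a], _ => rfl
  | [a, b], h => exact absurd rfl h
  | a :: b :: c :: L, _ => rfl

theorem v3_len (e : Y → k) (χ : ℕ → ℕ → k) {L : List (ℕ × Y)} (h : L.length ≠ 3) : v3 e χ L = 0 := by
  unfold v3
  apply Finset.sum_eq_zero
  intro i hi
  rw [Finset.mem_range] at hi
  rw [v2_len, mul_zero]
  rw [List.length_eraseIdx_of_lt hi]
  omega

theorem v3_three (e : Y → k) (χ : ℕ → ℕ → k) (x y z : ℕ × Y) :
    v3 e χ [x, y, z] = v2 e χ [y, z] - v2 e χ [x, z] + v2 e χ [x, y] := by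
  simp [v3, Finset.sum_range_succ, List.eraseIdx]
  ring

theorem v33 (e : Y → k) (χ : ℕ → ℕ → k) (L : List (ℕ × Y)) :
    ∑ i ∈ Finset.range L.length, (-1 : k) ^ i * v3 e χ (L.eraseIdx i) = 0 := by
  by_cases h : L.length = 4
  · match L, h with
    | [x, y, z, w], _ =>
      simp [Finset.sum_range_succ, List.eraseIdx, v3_three, v2]
      ring
  · apply Finset.sum_eq_zero
    intro i hi
    rw [Finset.mem_range] at hi
    rw [v3_len, mul_zero]
    rw [List.length_eraseIdx_of_lt hi]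
    omega

theorem v3_neg (e : Y → k) (χr χb : ℕ → ℕ → k) (h : ∀ a b, χr a b + χb a b = 1) (L : List (ℕ × Y)) :
    v3 e χb L = - v3 e χr L := by
  by_cases hL : L.length = 3
  · match L, hL with
    | [x, y, z], _ =>
      have hb : ∀ a b, χb a b = 1 - χr a b := fun a b => by rw [← h a b]; ring
      simp only [v3_three, v2, hb]
      ring
  · rw [v3_len _ _ hL, v3_len _ _ hL, neg_zero]

def eb (k : Type) [CommRing k] (b : Bool) : k := if b then 1 else 0

theorem v2_kill (χ : ℕ → ℕ → k) (s : Bool) {L : List (ℕ × Bool)} (h : ∀ e ∈ L, e.2 ≠ s) : v2 (eb k) χ L = 0 := by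
  match L, h with
  | [], _ => rfl
  | [a], _ => rfl
  | [a, b], h =>
    have h1 := h a (by simp)
    have h2 := h b (by simp)
    have : a.2 = b.2 := by cases ha : a.2 <;> cases hb : b.2 <;> cases s <;> simp_all
    simp [v2, this]
  | a :: b :: c :: L, _ => rfl

theorem v3_kill (χ : ℕ → ℕ → k) (s : Bool) {L : List (ℕ × Bool)} (h : ∀ e ∈ L, e.2 ≠ s) : v3 (eb k) χ L = 0 := by
  unfold v3
  apply Finset.sum_eq_zero
  intro i _
  rw [v2_kill χ s, mul_zero]
  intro e he
  exact h e (List.mem_of_mem_eraseIdx he)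

def om (e : Y → k) (χ χr : ℕ → ℕ → k) (i : ℕ) (κ : ℕ) (L : List (ℕ × Y)) : k :=
  if κ = i then v2 e χ L else v3 e χr L

def om2 (e : Y → k) (χr χb : ℕ → ℕ → k) (i j : ℕ) (κ : ℕ) (L : List (ℕ × Y)) : k :=
  if κ = i then v2 e χr L else if κ = j then v2 e χb L else v3 e χr L

theorem om2_len (e : Y → k) (χr χb : ℕ → ℕ → k) (i j κ : ℕ) (L : List (ℕ × Y))
    (h : L.length ≠ if κ = i ∨ κ = j then 2 else 3) : om2 e χr χb i j κ L = 0 := by
  unfold om2
  split_ifs with h1 h2
  · rw [v2_len]; simpa [h1] using h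
  · rw [v2_len]; simpa [h2] using h
  · rw [v3_len]; simpa [h1, h2] using h

def idx (A : Finset ℕ) (i : ℕ) : ℕ := (A.filter (· < i)).card

theorem prod_sign (S : Finset ℕ) (q : ℕ → Prop) [DecidablePred q] :
    ∏ i ∈ S, (if q i then (-1 : k) else 1) = (-1) ^ (S.filter q).card := by
  rw [Finset.prod_ite]; simp

theorem sgn_len (A : Finset ℕ) (i : ℕ) {j : ℕ} (hj : j ∈ A) :
    ∏ κ ∈ A.filter (· < i), (-1 : k) ^ (if κ = j then 2 else 3) = (-1) ^ (idx A i) * (if j < i then -1 else 1) := by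
  have e0 : ∀ κ, (-1 : k) ^ (if κ = j then 2 else 3) = (-1) * (if κ = j then -1 else 1) := by
    intro κ; split_ifs <;> norm_num
  simp only [e0]
  rw [Finset.prod_mul_distrib, Finset.prod_const]
  congr 1
  rw [prod_sign]
  by_cases h : j < i
  · rw [if_pos h]
    have : (A.filter (· < i)).filter (· = j) = {j} := by
      ext x; simp only [Finset.mem_filter, Finset.mem_singleton]
      constructor
      · exact fun h => h.2
      · rintro rfl; exact ⟨⟨hj, h⟩, rfl⟩
    rw [this]; simp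
  · rw [if_neg h]
    have : (A.filter (· < i)).filter (· = j) = ∅ := by
      ext x; simp only [Finset.mem_filter, Finset.notMem_empty, iff_false]
      rintro ⟨⟨_, h2⟩, rfl⟩; exact h h2
    rw [this]; simp

theorem bd_Om (A : Finset ℕ) (w : ℕ → List (ℕ × Y) → k) (t : ℕ) (acc : Acc Y) :
    bd A (Om A w) t acc = ∑ j ∈ A, sg k (A.filter (· < j)) acc *
      ((∏ i ∈ A.erase j, w i (acc i)) * ∑ m ∈ Finset.range (acc j).length, (-1 : k) ^ m * w j ((acc j).eraseIdx m)) := by
  unfold bd Om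
  apply Finset.sum_congr rfl
  intro j hj
  congr 1
  rw [Finset.mul_sum]
  apply Finset.sum_congr rfl
  intro m _
  rw [← Finset.mul_prod_erase A _ hj, Function.update_self]
  have : ∏ i ∈ A.erase j, w i (Function.update acc j ((acc j).eraseIdx m) i) = ∏ i ∈ A.erase j, w i (acc i) := by
    apply Finset.prod_congr rfl
    intro i hi
    rw [Function.update_of_ne (Finset.ne_of_mem_erase hi)]
  rw [this]; ring

theorem sg_om (A : Finset ℕ) (e : Y → k) (χ χr : ℕ → ℕ → k) {i j : ℕ} (hi : i ∈ A) (hj : j ∈ A) (hij : i ≠ j) (acc : Acc Y) :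
    sg k (A.filter (· < i)) acc * ∏ κ ∈ A.erase i, om e χ χr j κ (acc κ) =
      (-1) ^ (idx A i) * (if j < i then -1 else 1) * ∏ κ ∈ A.erase i, om e χ χr j κ (acc κ) := by
  by_cases h : ∀ κ ∈ A.erase i, (acc κ).length = if κ = j then 2 else 3
  · congr 1
    rw [← sgn_len A i hj]
    unfold sg
    apply Finset.prod_congr rfl
    intro κ hκ
    rw [Finset.mem_filter] at hκ
    rw [h κ (Finset.mem_erase.2 ⟨by omega, hκ.1⟩)]
  · push Not at h
    obtain ⟨κ, hκ, hne⟩ := h
    have : ∏ κ ∈ A.erase i, om e χ χr j κ (acc κ) = 0 := by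
      apply Finset.prod_eq_zero hκ
      unfold om
      split_ifs with h1
      · rw [v2_len]; simpa [h1] using hne
      · rw [v3_len]; simpa [h1] using hne
    rw [this]; ring

theorem bd_om2 (A : Finset ℕ) (e : Y → k) (χr χb : ℕ → ℕ → k) (h : ∀ a b, χr a b + χb a b = 1) {i j : ℕ}
    (hi : i ∈ A) (hj : j ∈ A) (hij : i ≠ j) (t : ℕ) (acc : Acc Y) :
    (-1 : k) ^ (idx A i) * (-1) ^ (idx A j) * (if j < i then -1 else 1) * bd A (Om A (om2 e χr χb i j)) t acc =
      (-1) ^ (idx A j) * Om A (om e χb χr j) t acc + (-1) ^ (idx A i) * Om A (om e χr χr i) t acc := by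
  rw [bd_Om, Finset.sum_eq_add i j hij]
  · have t1 : (∏ κ ∈ A.erase i, om2 e χr χb i j κ (acc κ)) = ∏ κ ∈ A.erase i, om e χb χr j κ (acc κ) := by
      apply Finset.prod_congr rfl
      intro κ hκ
      unfold om2 om
      rw [if_neg (Finset.ne_of_mem_erase hκ)]
    have t2 : (∏ κ ∈ A.erase j, om2 e χr χb i j κ (acc κ)) = ∏ κ ∈ A.erase j, om e χr χr i κ (acc κ) := by
      apply Finset.prod_congr rfl
      intro κ hκ
      unfold om2 om
      split_ifs with h1 h2
      · rfl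
      · exact absurd h2 (Finset.ne_of_mem_erase hκ)
      · rfl
    have t3 : ∑ m ∈ Finset.range (acc i).length, (-1 : k) ^ m * om2 e χr χb i j i ((acc i).eraseIdx m) = v3 e χr (acc i) := by
      simp [om2, v3]
    have t4 : ∑ m ∈ Finset.range (acc j).length, (-1 : k) ^ m * om2 e χr χb i j j ((acc j).eraseIdx m) = - v3 e χr (acc j) := by
      rw [← v3_neg e χr χb h]
      simp [om2, v3, Ne.symm hij]
    have t5 : Om A (om e χb χr j) t acc = v3 e χr (acc i) * ∏ κ ∈ A.erase i, om e χb χr j κ (acc κ) := by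
      unfold Om
      rw [← Finset.mul_prod_erase A _ hi]
      congr 1
      simp [om, hij]
    have t6 : Om A (om e χr χr i) t acc = v3 e χr (acc j) * ∏ κ ∈ A.erase j, om e χr χr i κ (acc κ) := by
      unfold Om
      rw [← Finset.mul_prod_erase A _ hj]
      congr 1
      simp [om, Ne.symm hij]
    rw [t1, t2, t3, t4, t5, t6]
    have s1 := sg_om A e χb χr hi hj hij acc
    have s2 := sg_om A e χr χr hj hi (Ne.symm hij) acc
    have e1 : sg k (A.filter (· < i)) acc * ((∏ κ ∈ A.erase i, om e χb χr j κ (acc κ)) * v3 e χr (acc i)) =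
        (-1) ^ (idx A i) * (if j < i then -1 else 1) * (∏ κ ∈ A.erase i, om e χb χr j κ (acc κ)) * v3 e χr (acc i) := by
      rw [← s1]; ring
    have e2 : sg k (A.filter (· < j)) acc * ((∏ κ ∈ A.erase j, om e χr χr i κ (acc κ)) * -v3 e χr (acc j)) =
        -((-1) ^ (idx A j) * (if i < j then -1 else 1) * (∏ κ ∈ A.erase j, om e χr χr i κ (acc κ)) * v3 e χr (acc j)) := by
      rw [← s2]; ring
    rw [e1, e2]
    have q1 : (-1 : k) ^ (idx A i) * (-1) ^ (idx A i) = 1 := by rw [← pow_add, ← two_mul, pow_mul]; simp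
    have q2 : (-1 : k) ^ (idx A j) * (-1) ^ (idx A j) = 1 := by rw [← pow_add, ← two_mul, pow_mul]; simp
    generalize (∏ κ ∈ A.erase i, om e χb χr j κ (acc κ)) = X1
    generalize (∏ κ ∈ A.erase j, om e χr χr i κ (acc κ)) = X2
    generalize v3 e χr (acc i) = y1
    generalize v3 e χr (acc j) = y2
    generalize (-1 : k) ^ (idx A i) = a at *
    generalize (-1 : k) ^ (idx A j) = b at *
    rcases lt_or_gt_of_ne hij with hlt | hlt
    · rw [if_neg (by omega), if_pos hlt]
      linear_combination (b * X1 * y1) * q1 + (a * X2 * y2) * q2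
    · rw [if_pos hlt, if_neg (by omega)]
      linear_combination (b * X1 * y1) * q1 + (a * X2 * y2) * q2
  · intro κ hκ hne
    have : ∑ m ∈ Finset.range (acc κ).length, (-1 : k) ^ m * om2 e χr χb i j κ ((acc κ).eraseIdx m) = 0 := by
      have := v33 e χr (acc κ)
      simpa [om2, hne.1, hne.2] using this
    rw [this]; ring
  · intro h; exact absurd hi h
  · intro h; exact absurd hj h

theorem sign_lemma {A B : Finset ℕ} (hB : B ⊆ A) {i j : ℕ} (hi : i ∈ B) (hj : j ∈ A \ B) (len : ℕ → ℕ)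
    (hlen : ∀ κ, len κ = if κ = i ∨ κ = j then 2 else 3) :
    (∏ j ∈ A \ B, (∏ i ∈ B.filter (j < ·), (-1 : k) ^ len i) ^ len j) * (-1) ^ (idx A i) * (-1) ^ (idx A j) *
      (if j < i then -1 else 1) = (-1) ^ (inv B (A \ B)) * (-1) ^ B.card * (-1) ^ (idx B i) * (-1) ^ (idx (A \ B) j) := by
  have hjA := (Finset.mem_sdiff.1 hj).1
  have hjB := (Finset.mem_sdiff.1 hj).2
  have hij : i ≠ j := by rintro rfl; exact hjB hi
  set B' := A \ B with hB'
  obtain ⟨hh, hhd⟩ : ∃ hh : ℕ → ℕ → k, ∀ κ j, hh κ j = if j < κ then -1 else 1 := ⟨_, fun _ _ => rfl⟩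
  have hh2 : ∀ κ j, hh κ j * hh κ j = 1 := by
    intro κ j; rw [hhd]; split_ifs <;> norm_num
  have F1a : ∀ j', (∏ i ∈ B.filter (j' < ·), (-1 : k) ^ len i) = if j' < j' then 0 else ∏ κ ∈ B.erase i, hh κ j' := by
    intro j'
    rw [if_neg (lt_irrefl _), Finset.prod_filter, ← Finset.mul_prod_erase B _ hi, hlen i]
    have : (if j' < i then (-1 : k) ^ (if i = i ∨ i = j then 2 else 3) else 1) = 1 := by simp
    rw [this, one_mul]
    apply Finset.prod_congr rfl
    intro κ hκ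
    rw [hhd, hlen]
    have h1 : κ ≠ i := Finset.ne_of_mem_erase hκ
    have h2 : κ ≠ j := by rintro rfl; exact hjB (Finset.mem_of_mem_erase hκ)
    have h3 : ¬ (κ = i ∨ κ = j) := by simp [h1, h2]
    simp only [h3, if_false]
    norm_num
  have F1a' : ∀ j', (∏ i ∈ B.filter (j' < ·), (-1 : k) ^ len i) = ∏ κ ∈ B.erase i, hh κ j' := by
    intro j'; rw [F1a, if_neg (lt_irrefl _)]
  have hE2 : ∀ j', (∏ κ ∈ B.erase i, hh κ j') * (∏ κ ∈ B.erase i, hh κ j') = 1 := by
    intro j'
    rw [← Finset.prod_mul_distrib]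
    exact Finset.prod_eq_one (fun κ _ => hh2 κ j')
  have F1 : (∏ j ∈ B', (∏ i ∈ B.filter (j < ·), (-1 : k) ^ len i) ^ len j) = ∏ j' ∈ B'.erase j, ∏ κ ∈ B.erase i, hh κ j' := by
    rw [← Finset.mul_prod_erase B' _ hj, F1a', hlen j]
    have : (∏ κ ∈ B.erase i, hh κ j) ^ (if j = i ∨ j = j then 2 else 3) = 1 := by
      rw [if_pos (Or.inr rfl), pow_two, hE2]
    rw [this, one_mul]
    apply Finset.prod_congr rfl
    intro j' hj'
    have h1 : j' ≠ j := Finset.ne_of_mem_erase hj'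
    have h2 : j' ≠ i := by rintro rfl; exact (Finset.mem_sdiff.1 (Finset.mem_of_mem_erase hj')).2 hi
    rw [F1a', hlen, if_neg (by simp [h1, h2]), pow_succ, pow_two, hE2, one_mul]
  have F2 : (-1 : k) ^ (inv B B') = ∏ j' ∈ B', ∏ κ ∈ B, hh κ j' := by
    rw [Finset.prod_comm]
    unfold inv
    rw [← Finset.prod_pow_eq_pow_sum]
    apply Finset.prod_congr rfl
    intro κ _
    rw [← prod_sign]
    apply Finset.prod_congr rfl
    intro j' _
    rw [hhd]
  have hidx : ∀ i, (-1 : k) ^ (idx A i) = (-1) ^ (idx B i) * ∏ κ ∈ B', (if κ < i then -1 else 1) := by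
    intro i
    rw [idx, idx, ← prod_sign, ← prod_sign, hB', mul_comm, Finset.prod_sdiff hB]
  have hidx' : ∀ i, (-1 : k) ^ (idx A i) = (-1) ^ (idx B' i) * ∏ κ ∈ B, (if κ < i then -1 else 1) := by
    intro i
    rw [idx, idx, ← prod_sign, ← prod_sign, hB', Finset.prod_sdiff hB]
  have F3 : (-1 : k) ^ (idx A i) = (-1) ^ (idx B i) * ∏ j' ∈ B', hh i j' := by
    rw [hidx]
    congr 1
    apply Finset.prod_congr rfl
    intro j' _
    rw [hhd]
  have F4 : (-1 : k) ^ (idx A j) = (-1) ^ (idx B' j) * ((-1) ^ B.card * ∏ κ ∈ B, hh κ j) := by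
    rw [hidx']
    congr 1
    rw [← Finset.prod_const, ← Finset.prod_mul_distrib]
    apply Finset.prod_congr rfl
    intro κ hκ
    rw [hhd]
    have : κ ≠ j := by rintro rfl; exact hjB hκ
    rcases lt_or_gt_of_ne this with h | h
    · rw [if_pos h, if_neg (by omega)]; ring
    · rw [if_neg (by omega), if_pos h]; ring
  have F5 : (if j < i then (-1 : k) else 1) = hh i j := (hhd i j).symm
  rw [F1, F3, F4, F5, F2]
  have G1 : ∏ j' ∈ B', ∏ κ ∈ B, hh κ j' = (∏ κ ∈ B, hh κ j) * ((∏ j' ∈ B'.erase j, hh i j') *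
      ∏ j' ∈ B'.erase j, ∏ κ ∈ B.erase i, hh κ j') := by
    rw [← Finset.mul_prod_erase B' _ hj, ← Finset.prod_mul_distrib]
    congr 1
    apply Finset.prod_congr rfl
    intro j' _
    rw [Finset.mul_prod_erase B (fun κ => hh κ j') hi]
  have G2 : ∏ j' ∈ B', hh i j' = hh i j * ∏ j' ∈ B'.erase j, hh i j' := (Finset.mul_prod_erase B' _ hj).symm
  rw [G1, G2]
  have := hh2 i j
  generalize (∏ j' ∈ B'.erase j, ∏ κ ∈ B.erase i, hh κ j') = S
  generalize (∏ j' ∈ B'.erase j, hh i j') = T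
  generalize (∏ κ ∈ B, hh κ j) = V
  generalize (-1 : k) ^ (idx B i) = a
  generalize (-1 : k) ^ (idx B' j) = b
  generalize (-1 : k) ^ B.card = c
  linear_combination (S * a * T * b * c * V) * this

end

section
variable {k : Type} [CommRing k]

theorem Phi_srt {M : ℕ} {A : Finset ℕ} {d : ℕ} {w : W k (ℕ × Fin 3)} (hw : w ∈ SV k M A d) :
    Srt A (fun _ => 0) 0 d (Phi k A w) := by
  refine Submodule.span_induction (p := fun w _ => Srt A (fun _ => 0) 0 d (Phi k A w)) ?_ ?_ ?_ ?_ hw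
  · rintro w ⟨y, b, hw⟩
    rw [Phi_apply]
    refine Finset.sum_induction _ (fun v => Srt A (fun _ => 0) 0 d v) (fun _ _ => Srt.add) (Srt.zero _ _) ?_
    intro S _
    exact (hw.mp (fS S) (fun _ => rfl)).smul _
  · rw [map_zero]; exact Srt.zero _ _
  · intro x y _ _ hx hy; rw [map_add]; exact hx.add hy
  · intro c x _ hx; rw [map_smul]; exact hx.smul c

theorem Z_srt (K : ℕ) (hK : 0 < K) {A : Finset ℕ} (hA : A ≠ ∅) : Srt A (fun _ => 0) 0 (3 * A.card - 1) (Z k K A) := by
  rw [Z_eq_Phi]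
  obtain ⟨M, hM⟩ : ∃ M, A ⊆ Finset.range M := ⟨A.sup id + 1, fun x hx => Finset.mem_range.2 (Nat.lt_succ_of_le (Finset.le_sup (f := id) hx))⟩
  have hM0 : 0 < M := by
    obtain ⟨x, hx⟩ := Finset.nonempty_iff_ne_empty.2 hA
    have := Finset.mem_range.1 (hM hx)
    omega
  exact Phi_srt (Zh_valid M K hK hM0 A hM hA)

/-- the colour functional -/
noncomputable def PP (K : ℕ) (χ χr : ℕ → ℕ → k) (A : Finset ℕ) (t : ℕ) : k :=
  ∑ i ∈ A, (-1 : k) ^ (idx A i) * Ev A (Z k K A) (Om A (om (eb k) χ χr i)) t acc0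

theorem PP_empty (K : ℕ) (χ χr : ℕ → ℕ → k) (t : ℕ) : PP K χ χr ∅ t = 0 := by simp [PP]

theorem Ev_Lack {A : Finset ℕ} {v : W k (ℕ × Bool)} (hv : v ∈ Lack k A) (F : Fn k Bool)
    (hF : ∀ y : ℕ × Bool, y.1 ∈ A → Kill y F) (t : ℕ) : Ev A v F t acc0 = 0 := by
  refine Submodule.span_induction (p := fun v _ => Ev A v F t acc0 = 0) ?_ ?_ ?_ ?_ hv
  · rintro v ⟨y, hy, hv⟩
    refine Ev_kill A y (by simp) hv F (hF y hy) t acc0 ?_
    intro e he
    simp [acc0] at he
  · rw [map_zero]; simp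
  · intro x y _ _ hx hy; rw [Ev_add, hx, hy, add_zero]
  · intro c x _ hx; rw [Ev_smul, hx, mul_zero]

theorem Kill_om2 {A : Finset ℕ} (χr χb : ℕ → ℕ → k) (i j : ℕ) (y : ℕ × Bool) (hy : y.1 ∈ A) :
    Kill y (Om A (om2 (eb k) χr χb i j)) := by
  intro t acc h
  unfold Om
  apply Finset.prod_eq_zero hy
  unfold om2
  split_ifs
  · exact v2_kill _ _ h
  · exact v2_kill _ _ h
  · exact v3_kill _ _ h

theorem nodist (K : ℕ) (hK : 0 < K) (S : Finset ℕ) (w : ℕ → List (ℕ × Bool) → k)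
    (hw : ∀ i ∈ S, ∀ L, L.length ≠ 3 → w i L = 0) (t : ℕ) : Ev S (Z k K S) (Om S w) t acc0 = 0 := by
  by_cases hS : S = ∅
  · subst hS; rw [Z_empty, map_zero]; simp
  · refine Ev_len (Finset.Subset.refl _) (Z_srt K hK hS) (Om S w) (3 * S.card) ?_ t acc0 ?_
    · intro t acc h
      unfold Om
      by_contra hne
      apply h
      have : ∀ i ∈ S, (acc i).length = 3 := by
        intro i hi
        by_contra hl
        exact hne (Finset.prod_eq_zero hi (hw i hi _ hl))
      rw [Finset.sum_congr rfl this]; simp [mul_comm]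
    · have : 0 < S.card := Finset.card_pos.2 (Finset.nonempty_iff_ne_empty.2 hS)
      simp only [acc0, List.length_nil, Finset.sum_const_zero]
      omega

theorem PQ_B (K : ℕ) (hK : 0 < K) (χr χb : ℕ → ℕ → k) {A B : Finset ℕ} (hB : B ⊆ A) (t : ℕ) :
    eta k B (A \ B) * ∑ i ∈ A, ∑ j ∈ A, (if i = j then 0 else (-1 : k) ^ (idx A i) * (-1) ^ (idx A j) * (if j < i then -1 else 1) *
      Ev A (Z k K B * uo k _ * Z k K (A \ B)) (Om A (om2 (eb k) χr χb i j)) t acc0) =
    PP K χb χr B t * PP K χr χr (A \ B) (t + 3 * B.card) - PP K χr χr B t * PP K χb χr (A \ B) (t + 3 * B.card) := by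
  by_cases hB0 : B = ∅
  · subst hB0
    rw [Z_empty, PP_empty, PP_empty]
    simp
  have hcard : 0 < B.card := Finset.card_pos.2 (Finset.nonempty_iff_ne_empty.2 hB0)
  set B' := A \ B with hB'
  have hZ := Z_srt (k := k) K hK hB0
  have hH : ∀ i j, Ev A (Z k K B * uo k _ * Z k K B') (Om A (om2 (eb k) χr χb i j)) t acc0 =
      (∏ j' ∈ B', (∏ i' ∈ B.filter (j' < ·), (-1 : k) ^ (if i' = i ∨ i' = j then 2 else 3)) ^ (if j' = i ∨ j' = j then 2 else 3)) *
      (Ev B (Z k K B) (Om B (om2 (eb k) χr χb i j)) t acc0 *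
        Ev B' (Z k K B') (Om B' (om2 (eb k) χr χb i j)) (t + 3 * B.card) acc0) := by
    intro i j
    have := prod_eval hB (om2 (eb k) χr χb i j) (fun κ => if κ = i ∨ κ = j then 2 else 3)
      (fun κ L h => om2_len _ _ _ _ _ _ _ h) hZ (Z_mem K B') t
    rw [this]
    have e : t + (3 * B.card - 1) + 1 = t + 3 * B.card := by omega
    rw [e]
  have hOm1 : ∀ i ∈ B, ∀ j ∈ B', Om B (om2 (eb k) χr χb i j) = Om B (om (eb k) χr χr i) ∧
      Om B' (om2 (eb k) χr χb i j) = Om B' (om (eb k) χb χr j) ∧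
      Om B (om2 (eb k) χr χb j i) = Om B (om (eb k) χb χr i) ∧
      Om B' (om2 (eb k) χr χb j i) = Om B' (om (eb k) χr χr j) := by
    intro i hi j hj
    have hjB := (Finset.mem_sdiff.1 hj).2
    have hne1 : ∀ κ ∈ B, κ ≠ j := by rintro κ hκ rfl; exact hjB hκ
    have hne2 : ∀ κ ∈ B', κ ≠ i := by rintro κ hκ rfl; exact (Finset.mem_sdiff.1 hκ).2 hi
    refine ⟨?_, ?_, ?_, ?_⟩ <;> funext t acc <;> unfold Om <;> apply Finset.prod_congr rfl <;> intro κ hκ <;> unfold om2 om
    · rw [if_neg (hne1 κ hκ)]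
    · rw [if_neg (hne2 κ hκ)]
    · rw [if_neg (hne1 κ hκ)]
    · by_cases h : κ = j
      · rw [if_pos h, if_pos h]
      · rw [if_neg h, if_neg h, if_neg (hne2 κ hκ)]
  have zBB : ∀ i ∈ B, ∀ j ∈ B, Ev A (Z k K B * uo k _ * Z k K B') (Om A (om2 (eb k) χr χb i j)) t acc0 = 0 := by
    intro i hi j hj
    rw [hH, nodist K hK B' _ ?_, mul_zero, mul_zero]
    intro κ hκ L hL
    have h1 : κ ≠ i := by rintro rfl; exact (Finset.mem_sdiff.1 hκ).2 hi
    have h2 : κ ≠ j := by rintro rfl; exact (Finset.mem_sdiff.1 hκ).2 hj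
    unfold om2
    rw [if_neg h1, if_neg h2, v3_len _ _ hL]
  have zB'B' : ∀ i ∈ B', ∀ j ∈ B', Ev A (Z k K B * uo k _ * Z k K B') (Om A (om2 (eb k) χr χb i j)) t acc0 = 0 := by
    intro i hi j hj
    rw [hH, nodist K hK B _ ?_, zero_mul, mul_zero]
    intro κ hκ L hL
    have h1 : κ ≠ i := by rintro rfl; exact (Finset.mem_sdiff.1 hi).2 hκ
    have h2 : κ ≠ j := by rintro rfl; exact (Finset.mem_sdiff.1 hj).2 hκ
    unfold om2
    rw [if_neg h1, if_neg h2, v3_len _ _ hL]
  have s1 : ∀ i ∈ B, ∑ j ∈ A, (if i = j then 0 else (-1 : k) ^ (idx A i) * (-1) ^ (idx A j) * (if j < i then -1 else 1) *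
      Ev A (Z k K B * uo k _ * Z k K B') (Om A (om2 (eb k) χr χb i j)) t acc0) =
      ∑ j ∈ B', (-1 : k) ^ (idx A i) * (-1) ^ (idx A j) * (if j < i then -1 else 1) *
      Ev A (Z k K B * uo k _ * Z k K B') (Om A (om2 (eb k) χr χb i j)) t acc0 := by
    intro i hi
    rw [← Finset.sum_sdiff hB, ← hB']
    have : ∑ j ∈ B, (if i = j then 0 else (-1 : k) ^ (idx A i) * (-1) ^ (idx A j) * (if j < i then -1 else 1) *
      Ev A (Z k K B * uo k _ * Z k K B') (Om A (om2 (eb k) χr χb i j)) t acc0) = 0 := by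
      apply Finset.sum_eq_zero
      intro j hj
      rw [zBB i hi j hj]; simp
    rw [this, add_zero]
    apply Finset.sum_congr rfl
    intro j hj
    rw [if_neg]
    rintro rfl; exact (Finset.mem_sdiff.1 hj).2 hi
  have s2 : ∀ i ∈ B', ∑ j ∈ A, (if i = j then 0 else (-1 : k) ^ (idx A i) * (-1) ^ (idx A j) * (if j < i then -1 else 1) *
      Ev A (Z k K B * uo k _ * Z k K B') (Om A (om2 (eb k) χr χb i j)) t acc0) =
      ∑ j ∈ B, (-1 : k) ^ (idx A i) * (-1) ^ (idx A j) * (if j < i then -1 else 1) *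
      Ev A (Z k K B * uo k _ * Z k K B') (Om A (om2 (eb k) χr χb i j)) t acc0 := by
    intro i hi
    rw [← Finset.sum_sdiff hB, ← hB']
    have : ∑ j ∈ B', (if i = j then 0 else (-1 : k) ^ (idx A i) * (-1) ^ (idx A j) * (if j < i then -1 else 1) *
      Ev A (Z k K B * uo k _ * Z k K B') (Om A (om2 (eb k) χr χb i j)) t acc0) = 0 := by
      apply Finset.sum_eq_zero
      intro j hj
      rw [zB'B' i hi j hj]; simp
    rw [this, zero_add]
    apply Finset.sum_congr rfl
    intro j hj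
    rw [if_neg]
    rintro rfl; exact (Finset.mem_sdiff.1 hi).2 hj
  rw [← Finset.sum_sdiff hB, ← hB', Finset.sum_congr rfl s1, Finset.sum_congr rfl s2, Finset.sum_comm, mul_add]
  have f1 : eta k B B' * ∑ i ∈ B, ∑ j ∈ B', (-1 : k) ^ (idx A i) * (-1) ^ (idx A j) * (if j < i then -1 else 1) *
      Ev A (Z k K B * uo k _ * Z k K B') (Om A (om2 (eb k) χr χb i j)) t acc0 =
      - (PP K χr χr B t * PP K χb χr B' (t + 3 * B.card)) := by
    unfold PP
    rw [Finset.sum_mul_sum, ← Finset.sum_neg_distrib, Finset.mul_sum]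
    apply Finset.sum_congr rfl
    intro i hi
    rw [← Finset.sum_neg_distrib, Finset.mul_sum]
    apply Finset.sum_congr rfl
    intro j hj
    obtain ⟨o1, o2, -, -⟩ := hOm1 i hi j hj
    rw [hH, o1, o2]
    have hs := sign_lemma (k := k) hB hi hj (fun κ => if κ = i ∨ κ = j then 2 else 3) (fun _ => rfl)
    rw [← hB'] at hs
    generalize (∏ j' ∈ B', (∏ i' ∈ B.filter (j' < ·), (-1 : k) ^ (if i' = i ∨ i' = j then 2 else 3)) ^ (if j' = i ∨ j' = j then 2 else 3)) = sig at hs ⊢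
    unfold eta
    rw [pow_add, pow_add, pow_one]
    have q1 : (-1 : k) ^ (inv B B') * (-1) ^ (inv B B') = 1 := by rw [← pow_add, ← two_mul, pow_mul]; simp
    have q2 : (-1 : k) ^ B.card * (-1) ^ B.card = 1 := by rw [← pow_add, ← two_mul, pow_mul]; simp
    generalize (if j < i then (-1 : k) else 1) = h at *
    generalize Ev B (Z k K B) (Om B (om (eb k) χr χr i)) t acc0 = x1
    generalize Ev B' (Z k K B') (Om B' (om (eb k) χb χr j)) (t + 3 * B.card) acc0 = x2
    generalize (-1 : k) ^ (inv B B') = I at *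
    generalize (-1 : k) ^ B.card = c at *
    generalize (-1 : k) ^ (idx B i) = a1 at *
    generalize (-1 : k) ^ (idx B' j) = a2 at *
    generalize (-1 : k) ^ (idx A i) = a3 at *
    generalize (-1 : k) ^ (idx A j) = a4 at *
    linear_combination (-(I * c * x1 * x2)) * hs + (-(c * c * a1 * a2 * x1 * x2)) * q1 + (-(a1 * a2 * x1 * x2)) * q2
  have f2 : eta k B B' * ∑ j ∈ B, ∑ i ∈ B', (-1 : k) ^ (idx A i) * (-1) ^ (idx A j) * (if j < i then -1 else 1) *
      Ev A (Z k K B * uo k _ * Z k K B') (Om A (om2 (eb k) χr χb i j)) t acc0 =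
      PP K χb χr B t * PP K χr χr B' (t + 3 * B.card) := by
    unfold PP
    rw [Finset.sum_mul_sum, Finset.mul_sum]
    apply Finset.sum_congr rfl
    intro i hi
    rw [Finset.mul_sum]
    apply Finset.sum_congr rfl
    intro j hj
    obtain ⟨-, -, o3, o4⟩ := hOm1 i hi j hj
    rw [hH, o3, o4]
    have hs := sign_lemma (k := k) hB hi hj (fun κ => if κ = j ∨ κ = i then 2 else 3) (fun κ => by simp only [or_comm])
    rw [← hB'] at hs
    have hij : i ≠ j := by rintro rfl; exact (Finset.mem_sdiff.1 hj).2 hi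
    have hh : (if i < j then (-1 : k) else 1) = -(if j < i then -1 else 1) := by
      rcases lt_or_gt_of_ne hij with h | h
      · rw [if_pos h, if_neg (by omega)]
      · rw [if_neg (by omega), if_pos h]; ring
    rw [hh]
    generalize (∏ j' ∈ B', (∏ i' ∈ B.filter (j' < ·), (-1 : k) ^ (if i' = j ∨ i' = i then 2 else 3)) ^ (if j' = j ∨ j' = i then 2 else 3)) = sig at hs ⊢
    unfold eta
    rw [pow_add, pow_add, pow_one]
    have q1 : (-1 : k) ^ (inv B B') * (-1) ^ (inv B B') = 1 := by rw [← pow_add, ← two_mul, pow_mul]; simp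
    have q2 : (-1 : k) ^ B.card * (-1) ^ B.card = 1 := by rw [← pow_add, ← two_mul, pow_mul]; simp
    generalize (if j < i then (-1 : k) else 1) = h at *
    generalize Ev B (Z k K B) (Om B (om (eb k) χb χr i)) t acc0 = x1
    generalize Ev B' (Z k K B') (Om B' (om (eb k) χr χr j)) (t + 3 * B.card) acc0 = x2
    generalize (-1 : k) ^ (inv B B') = I at *
    generalize (-1 : k) ^ B.card = c at *
    generalize (-1 : k) ^ (idx B i) = a1 at *
    generalize (-1 : k) ^ (idx B' j) = a2 at *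
    generalize (-1 : k) ^ (idx A i) = a3 at *
    generalize (-1 : k) ^ (idx A j) = a4 at *
    linear_combination (I * c * x1 * x2) * hs + (c * c * a1 * a2 * x1 * x2) * q1 + (a1 * a2 * x1 * x2) * q2
  rw [f1, f2]
  ring

end

section
variable {p : ℕ} [Fact p.Prime]

theorem E2 (L : ℕ) (χr χb : ℕ → ℕ → ZMod p) (h : ∀ a b, χr a b + χb a b = 1) (A : Finset ℕ)
    (hA : 3 * A.card + 6 ≤ p ^ L) (t : ℕ) :
    ((A.card : ZMod p) - 1) * (PP (p ^ L) χr χr A t + PP (p ^ L) χb χr A t) =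
      ∑ B ∈ A.powerset, (PP (p ^ L) χb χr B t * PP (p ^ L) χr χr (A \ B) (t + 3 * B.card) -
        PP (p ^ L) χr χr B t * PP (p ^ L) χb χr (A \ B) (t + 3 * B.card)) := by
  have hK : 0 < p ^ L := by omega
  set K := p ^ L with hKd
  set fr : ℕ → ZMod p := fun i => (-1) ^ (idx A i) * Ev A (Z (ZMod p) K A) (Om A (om (eb _) χr χr i)) t acc0 with hfr
  set fb : ℕ → ZMod p := fun i => (-1) ^ (idx A i) * Ev A (Z (ZMod p) K A) (Om A (om (eb _) χb χr i)) t acc0 with hfb
  have hP : PP K χr χr A t = ∑ i ∈ A, fr i := rfl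
  have hQ : PP K χb χr A t = ∑ i ∈ A, fb i := rfl
  have h1 : ((A.card : ZMod p) - 1) * (PP K χr χr A t + PP K χb χr A t) =
      ∑ i ∈ A, ∑ j ∈ A, (if i = j then 0 else fb j + fr i) := by
    have e1 : ∀ i j, (if i = j then 0 else fb j + fr i) = fb j + fr i - (if i = j then fb i + fr i else 0) := by
      intro i j
      split_ifs with hij
      · subst hij; ring
      · ring
    simp only [e1, Finset.sum_sub_distrib, Finset.sum_add_distrib, Finset.sum_const, Finset.sum_ite_eq,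
      nsmul_eq_mul]
    rw [hP, hQ]
    have e2 : ∑ x ∈ A, (if x ∈ A then fb x + fr x else 0) = ∑ x ∈ A, (fb x + fr x) :=
      Finset.sum_congr rfl (fun x hx => by rw [if_pos hx])
    rw [e2, Finset.sum_add_distrib, ← Finset.mul_sum]
    ring
  rw [h1]
  have h2 : ∀ i ∈ A, ∀ j ∈ A, (if i = j then 0 else fb j + fr i) = ∑ B ∈ A.powerset, eta (ZMod p) B (A \ B) *
      (if i = j then 0 else (-1 : ZMod p) ^ (idx A i) * (-1) ^ (idx A j) * (if j < i then -1 else 1) *
      Ev A (Z (ZMod p) K B * uo (ZMod p) _ * Z (ZMod p) K (A \ B)) (Om A (om2 (eb (ZMod p)) χr χb i j)) t acc0) := by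
    intro i hi j hj
    by_cases hij : i = j
    · simp [hij]
    · simp only [if_neg hij]
      set s : ZMod p := (-1 : ZMod p) ^ (idx A i) * (-1) ^ (idx A j) * (if j < i then -1 else 1) with hs
      have e1 : fb j + fr i = s * Ev A (Z (ZMod p) K A) (bd A (Om A (om2 (eb _) χr χb i j))) t acc0 := by
        have e2 : s • bd A (Om A (om2 (eb (ZMod p)) χr χb i j)) =
            ((-1 : ZMod p) ^ (idx A j)) • Om A (om (eb _) χb χr j) + ((-1 : ZMod p) ^ (idx A i)) • Om A (om (eb _) χr χr i) := by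
          funext t acc
          exact bd_om2 A (eb _) χr χb h hi hj hij t acc
        have e3 := congrArg (fun F => Ev A (Z (ZMod p) K A) F t acc0) e2
        simp only [map_add, map_smul] at e3
        exact e3.symm
      rw [e1, Ev_bd0 A (Z_mem K A)]
      have e4 : Ev A (D (Z (ZMod p) K A)) (Om A (om2 (eb _) χr χb i j)) t acc0 =
          Ev A (WW (ZMod p) K A) (Om A (om2 (eb _) χr χb i j)) t acc0 := by
        have e5 := Ev_Lack (D_Z L A hA) (Om A (om2 (eb _) χr χb i j)) (fun y hy => Kill_om2 χr χb i j y hy) t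
        have e6 : D (Z (ZMod p) K A) = (D (Z (ZMod p) K A) - WW (ZMod p) K A) + WW (ZMod p) K A := by abel
        rw [e6, Ev_add, e5, zero_add]
      rw [e4, WW_def, map_sum, LinearMap.sum_apply, Finset.sum_apply, Finset.sum_apply, Finset.mul_sum]
      apply Finset.sum_congr rfl
      intro B _
      rw [Ev_smul]; ring
  rw [Finset.sum_congr rfl (fun i hi => Finset.sum_congr rfl (h2 i hi))]
  have h3 : ∑ i ∈ A, ∑ j ∈ A, ∑ B ∈ A.powerset, eta (ZMod p) B (A \ B) *
      (if i = j then 0 else (-1 : ZMod p) ^ (idx A i) * (-1) ^ (idx A j) * (if j < i then -1 else 1) *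
      Ev A (Z (ZMod p) K B * uo (ZMod p) _ * Z (ZMod p) K (A \ B)) (Om A (om2 (eb (ZMod p)) χr χb i j)) t acc0) =
      ∑ B ∈ A.powerset, eta (ZMod p) B (A \ B) * ∑ i ∈ A, ∑ j ∈ A,
      (if i = j then 0 else (-1 : ZMod p) ^ (idx A i) * (-1) ^ (idx A j) * (if j < i then -1 else 1) *
      Ev A (Z (ZMod p) K B * uo (ZMod p) _ * Z (ZMod p) K (A \ B)) (Om A (om2 (eb (ZMod p)) χr χb i j)) t acc0) := by
    have : ∀ i ∈ A, ∑ j ∈ A, ∑ B ∈ A.powerset, eta (ZMod p) B (A \ B) *
      (if i = j then 0 else (-1 : ZMod p) ^ (idx A i) * (-1) ^ (idx A j) * (if j < i then -1 else 1) *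
      Ev A (Z (ZMod p) K B * uo (ZMod p) _ * Z (ZMod p) K (A \ B)) (Om A (om2 (eb (ZMod p)) χr χb i j)) t acc0) =
      ∑ B ∈ A.powerset, ∑ j ∈ A, eta (ZMod p) B (A \ B) *
      (if i = j then 0 else (-1 : ZMod p) ^ (idx A i) * (-1) ^ (idx A j) * (if j < i then -1 else 1) *
      Ev A (Z (ZMod p) K B * uo (ZMod p) _ * Z (ZMod p) K (A \ B)) (Om A (om2 (eb (ZMod p)) χr χb i j)) t acc0) :=
      fun i _ => Finset.sum_comm
    rw [Finset.sum_congr rfl this, Finset.sum_comm]
    apply Finset.sum_congr rfl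
    intro B _
    rw [Finset.mul_sum]
    apply Finset.sum_congr rfl
    intro i _
    rw [Finset.mul_sum]
  rw [h3]
  apply Finset.sum_congr rfl
  intro B hB
  exact PQ_B K hK χr χb (Finset.mem_powerset.1 hB) t

end

section
variable {k : Type} [CommRing k]

theorem Z_single (K : ℕ) (j : ℕ) : Z k K {j} = lt k j * rt k j - rt k j * rt k j := by
  have hW : WW k K {j} = 0 := by
    rw [WW_def]
    apply Finset.sum_eq_zero
    intro B hB
    rw [Finset.mem_powerset, Finset.subset_singleton_iff] at hB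
    rcases hB with rfl | rfl
    · rw [Z_empty]; simp
    · rw [Finset.sdiff_self, Z_empty]; simp
  have hC : C k K {j} = -(lt k j * uo k _ * (tt k j * uo k _)) := by
    have h2 := CA_insert (lt k) (tt k) (rt k) K (j := j) (S := ∅) (by simp)
    rw [CA_empty, map_zero, zero_add, if_pos rfl] at h2
    exact h2
  have hz : zz k K {j} = -(lt k j * lt k j) + lt k j * rt k j := by
    rw [zz, hC]
    simp only [map_neg, map_mul, e1_o, mul_one, tt, map_sub]
    rw [lt, rt, e1_x, e1_x]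
    noncomm_ring
  have n1 : NN (rt k j) = rt k j := by
    have := NN_x (k := k) (j, true) 1
    rwa [NN_one, nab_one, mul_one, sub_zero] at this
  have n2 : NN (lt k j) = lt k j := by
    have := NN_x (k := k) (j, false) 1
    rwa [NN_one, nab_one, mul_one, sub_zero] at this
  have m1 : nab (rt k j) = rt k j * rt k j := by
    have := nab_x (k := k) (j, true) 1
    rwa [nab_one, mul_one, mul_zero, sub_zero] at this
  have m2 : nab (lt k j) = lt k j * lt k j := by
    have := nab_x (k := k) (j, false) 1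
    rwa [nab_one, mul_one, mul_zero, sub_zero] at this
  rw [Z_eq, hW, map_zero, add_zero, hz, map_add, map_neg]
  have a1 : NN (lt k j * lt k j) = 0 := by
    have := NN_x (k := k) (j, false) (lt k j)
    rw [n2, m2] at this
    have h' : NN (lt k j * lt k j) = lt k j * lt k j - lt k j * lt k j := this
    rw [h', sub_self]
  have a2 : NN (lt k j * rt k j) = lt k j * rt k j - rt k j * rt k j := by
    have := NN_x (k := k) (j, false) (rt k j)
    rw [n1, m1] at this
    exact this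
  rw [a1, a2]; simp

theorem E1 (K : ℕ) (χr χb : ℕ → ℕ → k) (h : ∀ a b, χr a b + χb a b = 1) (j t : ℕ) :
    PP K χr χr {j} t + PP K χb χr {j} t = 1 := by
  have key : ∀ χ : ℕ → ℕ → k, PP K χ χr {j} t = χ t (t + 1) := by
    intro χ
    unfold PP
    rw [Finset.sum_singleton, Z_single]
    have e0 : idx {j} j = 0 := by simp [idx]
    rw [e0, pow_zero, one_mul]
    have e1 : ∀ s s' : Bool, Ev {j} (ux k (j, s) * ux k (j, s')) (Om {j} (om (eb k) χ χr j)) t acc0 =
        (eb k s' - eb k s) * χ t (t + 1) := by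
      intro s s'
      have h1 : ux k (j, s') = ux k (j, s') * 1 := by rw [mul_one]
      have hf : Finset.filter (fun i => j < i) ({j} : Finset ℕ) = ∅ := by
        ext x; simp only [Finset.mem_filter, Finset.mem_singleton, Finset.notMem_empty, iff_false]; omega
      rw [h1, Ev_x, Ev_x, Ev_one]
      simp [sg, Om, push, acc0, om, v2, hf]
    have e2 := e1 false true
    have e3 := e1 true true
    have e4 : Ev {j} (lt k j * rt k j - rt k j * rt k j) (Om {j} (om (eb k) χ χr j)) t acc0 =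
        Ev {j} (ux k (j, false) * ux k (j, true)) (Om {j} (om (eb k) χ χr j)) t acc0 -
        Ev {j} (ux k (j, true) * ux k (j, true)) (Om {j} (om (eb k) χ χr j)) t acc0 := by
      rw [map_sub]; rfl
    rw [e4, e2, e3]
    simp [eb]
  rw [key, key, h]

end

end Pool.Agent.H168R3
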