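import Mathlib

/-! A family of integers which never vanish. -/

namespace Pool.Agent.H168R3

/-- the numbers `Y` -/
def Yn (σ : ℕ → Bool) : ℕ → ℤ
  | 0 => 1
  | (k + 1) => if σ (k + 1) then 0 else - ∑ j : Fin (k + 1), ((k + 1).choose j.1 : ℤ) * Yn σ j.1

theorem Yn_zero (σ : ℕ → Bool) : Yn σ 0 = 1 := by rw [Yn]

theorem Yn_succ (σ : ℕ → Bool) (k : ℕ) : Yn σ (k + 1) = if σ (k + 1) then 0 else
    - ∑ j ∈ Finset.range (k + 1), ((k + 1).choose j : ℤ) * Yn σ j := by
  rw [Yn, Finset.sum_range (fun j => ((k + 1).choose j : ℤ) * Yn σ j)]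

def Un (σ : ℕ → Bool) (n : ℕ) : ℤ := ∑ j ∈ Finset.range n, (n.choose j : ℤ) * Yn σ j

open Polynomial in
/-- Appell polynomials -/
noncomputable def qp (σ : ℕ → Bool) (k : ℕ) : ℝ[X] :=
  ∑ j ∈ Finset.range (k + 1), C ((k.choose j : ℝ) * (Yn σ j : ℝ)) * X ^ (k - j)

open Polynomial in
theorem qp_deriv (σ : ℕ → Bool) (k : ℕ) : derivative (qp σ (k + 1)) = C ((k : ℝ) + 1) * qp σ k := by
  unfold qp
  rw [derivative_sum, Finset.sum_range_succ, Finset.mul_sum]
  have h0 : derivative (C (((k + 1).choose (k + 1) : ℝ) * (Yn σ (k + 1) : ℝ)) * X ^ (k + 1 - (k + 1)) : ℝ[X]) = 0 := by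
    simp
  rw [h0, add_zero]
  apply Finset.sum_congr rfl
  intro j hj
  rw [Finset.mem_range] at hj
  rw [derivative_C_mul_X_pow, ← mul_assoc, ← C_mul]
  have e1 : k + 1 - j - 1 = k - j := by omega
  rw [e1]
  congr 2
  have h1 := Nat.choose_mul_succ_eq k j
  have h2 : ((k.choose j : ℝ) * ((k : ℝ) + 1)) = ((k + 1).choose j : ℝ) * ((k + 1 - j : ℕ) : ℝ) := by
    exact_mod_cast h1
  linear_combination (-(Yn σ j : ℝ)) * h2

open Polynomial in
theorem qp_zero (σ : ℕ → Bool) (k : ℕ) : (qp σ k).eval 0 = Yn σ k := by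
  unfold qp
  rw [eval_finset_sum, Finset.sum_range_succ, Finset.sum_eq_zero]
  · simp
  · intro j hj
    rw [Finset.mem_range] at hj
    rw [eval_mul, eval_pow, eval_X, zero_pow (by omega), mul_zero]

open Polynomial in
theorem qp_one (σ : ℕ → Bool) (k : ℕ) : (qp σ k).eval 1 = ((Un σ k : ℤ) : ℝ) + Yn σ k := by
  unfold qp Un
  rw [eval_finset_sum, Finset.sum_range_succ]
  push_cast
  simp

theorem qp_mono (σ : ℕ → Bool) (k : ℕ) (h : ∀ t ∈ Set.Ioo (0 : ℝ) 1, 0 < (qp σ k).eval t) :
    StrictMonoOn (fun t => (qp σ (k + 1)).eval t) (Set.Icc 0 1) := by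
  apply strictMonoOn_of_deriv_pos (convex_Icc 0 1)
  · exact (qp σ (k + 1)).continuous.continuousOn
  · intro x hx
    rw [interior_Icc] at hx
    rw [Polynomial.deriv, qp_deriv, Polynomial.eval_mul, Polynomial.eval_C]
    exact mul_pos (by positivity) (h x hx)

theorem qp_anti (σ : ℕ → Bool) (k : ℕ) (h : ∀ t ∈ Set.Ioo (0 : ℝ) 1, (qp σ k).eval t < 0) :
    StrictAntiOn (fun t => (qp σ (k + 1)).eval t) (Set.Icc 0 1) := by
  apply strictAntiOn_of_deriv_neg (convex_Icc 0 1)
  · exact (qp σ (k + 1)).continuous.continuousOn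
  · intro x hx
    rw [interior_Icc] at hx
    rw [Polynomial.deriv, qp_deriv, Polynomial.eval_mul, Polynomial.eval_C]
    exact mul_neg_of_pos_of_neg (by positivity) (h x hx)

theorem qp_sign (σ : ℕ → Bool) (k : ℕ) : (∀ t ∈ Set.Ioo (0 : ℝ) 1, 0 < (qp σ k).eval t) ∨
    (∀ t ∈ Set.Ioo (0 : ℝ) 1, (qp σ k).eval t < 0) := by
  induction k with
  | zero =>
    left
    intro t _
    simp [qp, Yn_zero]
  | succ k ih =>
    have h0 := qp_zero σ (k + 1)
    have h1 := qp_one σ (k + 1)
    by_cases hσ : σ (k + 1) = true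
    · have hY : Yn σ (k + 1) = 0 := by rw [Yn_succ, if_pos hσ]
      rw [hY] at h0
      rcases ih with ih | ih
      · left
        intro t ht
        have := qp_mono σ k ih (Set.left_mem_Icc.2 zero_le_one) (Set.Ioo_subset_Icc_self ht) ht.1
        simp only at this
        rw [h0] at this
        simpa using this
      · right
        intro t ht
        have := qp_anti σ k ih (Set.left_mem_Icc.2 zero_le_one) (Set.Ioo_subset_Icc_self ht) ht.1
        simp only at this
        rw [h0] at this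
        simpa using this
    · have hY : Yn σ (k + 1) = - Un σ (k + 1) := by rw [Yn_succ, if_neg hσ]; rfl
      rw [hY] at h1
      have h1' : (qp σ (k + 1)).eval 1 = 0 := by rw [h1]; push_cast; ring
      rcases ih with ih | ih
      · right
        intro t ht
        have := qp_mono σ k ih (Set.Ioo_subset_Icc_self ht) (Set.right_mem_Icc.2 zero_le_one) ht.2
        simp only at this
        rw [h1'] at this
        exact this
      · left
        intro t ht
        have := qp_anti σ k ih (Set.Ioo_subset_Icc_self ht) (Set.right_mem_Icc.2 zero_le_one) ht.2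
        simp only at this
        rw [h1'] at this
        exact this

theorem Un_ne_zero (σ : ℕ → Bool) (n : ℕ) (hn : 0 < n) : Un σ n ≠ 0 := by
  obtain ⟨k, rfl⟩ : ∃ k, n = k + 1 := ⟨n - 1, by omega⟩
  intro hU
  have h0 := qp_zero σ (k + 1)
  have h1 := qp_one σ (k + 1)
  rw [hU] at h1
  rcases qp_sign σ k with ih | ih
  · have := qp_mono σ k ih (Set.left_mem_Icc.2 zero_le_one) (Set.right_mem_Icc.2 zero_le_one) one_pos
    simp only at this
    rw [h0, h1] at this
    simp at this
  · have := qp_anti σ k ih (Set.left_mem_Icc.2 zero_le_one) (Set.right_mem_Icc.2 zero_le_one) one_pos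
    simp only at this
    rw [h0, h1] at this
    simp at this

/-- `Yn σ j` for `j < n` and `Un σ n` depend only on `σ` on `range n` -/
theorem Yn_congr {σ τ : ℕ → Bool} {n : ℕ} (h : ∀ i < n, σ i = τ i) : ∀ j < n, Yn σ j = Yn τ j := by
  intro j
  induction j using Nat.strong_induction_on with
  | _ j ih =>
    intro hj
    cases j with
    | zero => rw [Yn_zero, Yn_zero]
    | succ j =>
      rw [Yn_succ, Yn_succ, h _ hj]
      congr 2
      apply Finset.sum_congr rfl
      intro i hi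
      rw [Finset.mem_range] at hi
      rw [ih i hi (by omega)]

/-- a prime exceeding `N` not dividing any `Un σ n` -/
theorem exists_prime (n N : ℕ) (hn : 0 < n) : ∃ p, p.Prime ∧ N < p ∧ ∀ σ : ℕ → Bool, ¬ ((p : ℤ) ∣ Un σ n) := by
  obtain ⟨p, hp, hprime⟩ := Nat.exists_infinite_primes
    (N + 1 + ∑ S ∈ (Finset.range n).powerset, (Un (fun i => decide (i ∈ S)) n).natAbs + 1)
  refine ⟨p, hprime, by omega, ?_⟩
  intro σ hdvd
  set S := (Finset.range n).filter (fun i => σ i = true) with hS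
  have e1 : Un σ n = Un (fun i => decide (i ∈ S)) n := by
    unfold Un
    apply Finset.sum_congr rfl
    intro j hj
    rw [Finset.mem_range] at hj
    rw [Yn_congr (n := n) (τ := fun i => decide (i ∈ S)) ?_ j hj]
    intro i hi
    cases hσ : σ i <;> simp [hS, hi, hσ]
  have h2 : (Un (fun i => decide (i ∈ S)) n).natAbs ≤ ∑ S ∈ (Finset.range n).powerset, (Un (fun i => decide (i ∈ S)) n).natAbs :=
    Finset.single_le_sum (f := fun S : Finset ℕ => (Un (fun i => decide (i ∈ S)) n).natAbs) (fun _ _ => Nat.zero_le _)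
      (Finset.mem_powerset.2 (Finset.filter_subset _ _))
  rw [e1] at hdvd
  have h3 : p ∣ (Un (fun i => decide (i ∈ S)) n).natAbs := Int.natCast_dvd.1 hdvd
  have h4 : 0 < (Un (fun i => decide (i ∈ S)) n).natAbs := Int.natAbs_pos.2 (Un_ne_zero _ _ hn)
  have h5 := Nat.le_of_dvd h4 h3
  omega

end Pool.Agent.H168R3
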