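import Pool.Agent.H168R3.Valid2
import Pool.Agent.H168R3.Conv
import Pool.Agent.H168R3.Numbers

/-! Every colouring of `3 n - 1` consecutive integers has a monochromatic non-nested `n`-matching. -/

namespace Pool.Agent.H168R3

open Pool.Agent.H168R2.NN

theorem HM_zero (c : ℕ → ℕ → Bool) (s : Bool) (lo hi : ℕ) : HM c s lo hi 0 :=
  ⟨∅, isM_empty, by simp, rfl⟩

theorem HM_add {c : ℕ → ℕ → Bool} {s : Bool} {lo mid mid' hi m1 m2 : ℕ} (h1 : HM c s lo mid m1)
    (h2 : HM c s mid' hi m2) (hm : mid ≤ mid') (hl : lo ≤ mid') (hh : mid ≤ hi) : HM c s lo hi (m1 + m2) := by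
  obtain ⟨M1, i1, b1, c1⟩ := h1
  obtain ⟨M2, i2, b2, c2⟩ := h2
  have hbef : ∀ e ∈ M1, ∀ f ∈ M2, Bef e f := by
    intro e he f hf
    have e1 := (i1.1 e he).1
    have e2 := b1 e he
    have e3 := (i2.1 f hf).1
    have e4 := b2 f hf
    exact ⟨by omega, by omega, by omega⟩
  refine ⟨M1 ∪ M2, i1.union i2 hbef, ?_, ?_⟩
  · intro e he
    rcases Finset.mem_union.1 he with he | he
    · have := b1 e he
      have := (i1.1 e he).1
      omega
    · have := b2 e he
      omega
  · rw [card_union_bef hbef, c1, c2]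

section
variable {F : Type} [Field F]

theorem gen_match {n : ℕ} (hn : ∀ m : ℕ, 1 ≤ m → m ≤ n → (m : F) ≠ 0) (f R : BF F) (e : F) (hR0 : ∀ a, R a ∅ = 0)
    (hf : ∀ a A, A.card ≤ n → (A.card : F) * f a A = e * cv f R a A) (c : ℕ → ℕ → Bool) (s : Bool) (lo : ℕ)
    (hR : ∀ a A, R a A ≠ 0 → HM c s (lo + 3 * a) (lo + 3 * a + (3 * A.card - 1)) A.card) :
    ∀ A : Finset ℕ, A.card ≤ n → ∀ a, f a A ≠ 0 → HM c s (lo + 3 * a) (lo + 3 * a + (3 * A.card - 1)) A.card := by
  intro A
  induction A using Finset.strongInduction with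
  | H A ih =>
    intro hA a h
    by_cases h0 : A = ∅
    · subst h0
      rw [Finset.card_empty]
      exact HM_zero _ _ _ _
    have hc : (A.card : F) ≠ 0 := hn _ (Finset.card_pos.2 (Finset.nonempty_iff_ne_empty.2 h0)) hA
    have h1 : (A.card : F) * f a A ≠ 0 := mul_ne_zero hc h
    rw [hf a A hA] at h1
    have h2 : cv f R a A ≠ 0 := right_ne_zero_of_mul h1
    obtain ⟨B, hB, hBne⟩ := Finset.exists_ne_zero_of_sum_ne_zero h2
    rw [Finset.mem_powerset] at hB
    have f1 := left_ne_zero_of_mul hBne
    have f2 := right_ne_zero_of_mul hBne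
    have hAB : A \ B ≠ ∅ := by
      intro h3
      rw [h3] at f2
      exact f2 (hR0 _)
    have hBA : B ≠ A := by
      rintro rfl
      exact hAB (Finset.sdiff_self _)
    have g1 := ih B (Finset.ssubset_iff_subset_ne.2 ⟨hB, hBA⟩) ((Finset.card_le_card hB).trans hA) a f1
    have g2 := hR _ _ f2
    have hcard := Finset.card_sdiff_add_card_eq_card hB
    have hpos := Finset.card_pos.2 (Finset.nonempty_iff_ne_empty.2 hAB)
    have g3 := HM_add g1 g2 (by omega) (by omega) (by omega)
    have e1 : B.card + (A \ B).card = A.card := by omega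
    have e2 : lo + 3 * (a + B.card) + (3 * (A \ B).card - 1) = lo + 3 * a + (3 * A.card - 1) := by omega
    rw [e1, e2] at g3
    exact g3

theorem sumX (Y : BF F) (n : ℕ) (A : Finset ℕ) (hA : A.card ≤ n) :
    cv Ef Y (n - A.card) A = ∑ E ∈ A.powerset, Y (n - E.card) E := by
  change ∑ B ∈ A.powerset, (1 : F) * Y (n - A.card + B.card) (A \ B) = _
  refine Finset.sum_nbij' (fun B => A \ B) (fun B => A \ B) ?_ ?_ ?_ ?_ ?_
  · intro B _; exact Finset.mem_powerset.2 Finset.sdiff_subset
  · intro B _; exact Finset.mem_powerset.2 Finset.sdiff_subset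
  · intro B hB; exact Finset.sdiff_sdiff_eq_self (Finset.mem_powerset.1 hB)
  · intro B hB; exact Finset.sdiff_sdiff_eq_self (Finset.mem_powerset.1 hB)
  · intro B hB
    have hcard := Finset.card_sdiff_add_card_eq_card (Finset.mem_powerset.1 hB)
    have : n - A.card + B.card = n - (A \ B).card := by omega
    rw [one_mul, this]

/-- the values of `Y` on suffix blocks -/
theorem Y_const (Y : BF F) (hY0 : ∀ a, Y a ∅ = 1) (n : ℕ) (σ : ℕ → Bool)
    (h1 : ∀ m, 1 ≤ m → m < n → σ m = true → ∀ A : Finset ℕ, A.card = m → Y (n - m) A = 0)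
    (h2 : ∀ m, 1 ≤ m → m < n → σ m = false → ∀ A : Finset ℕ, A.card = m → cv Ef Y (n - m) A = 0) :
    ∀ m, m < n → ∀ A : Finset ℕ, A.card = m → Y (n - m) A = ((Yn σ m : ℤ) : F) := by
  intro m
  induction m using Nat.strong_induction_on with
  | _ m ih =>
    intro hm A hA
    cases m with
    | zero =>
      rw [Finset.card_eq_zero] at hA
      subst hA
      rw [hY0, Yn_zero]; simp
    | succ m =>
      cases hσ : σ (m + 1) with
      | true => rw [h1 _ (by omega) hm hσ A hA, Yn_succ, if_pos hσ]; simp
      | false =>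
        have h3 := h2 _ (by omega) hm hσ A hA
        rw [← hA, sumX Y n A (by omega)] at h3
        obtain ⟨g, hg⟩ : ∃ g : ℕ → F, ∀ j, g j = if j < m + 1 then ((Yn σ j : ℤ) : F) else Y (n - (m + 1)) A :=
          ⟨_, fun _ => rfl⟩
        have h4 : ∑ E ∈ A.powerset, Y (n - E.card) E = ∑ E ∈ A.powerset, g E.card := by
          apply Finset.sum_congr rfl
          intro E hE
          rw [Finset.mem_powerset] at hE
          rw [hg]
          by_cases hEA : E = A
          · rw [hEA, hA]; simp
          · have hlt : E.card < A.card := Finset.card_lt_card (Finset.ssubset_iff_subset_ne.2 ⟨hE, hEA⟩)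
            have : E.card < m + 1 := by omega
            rw [if_pos this]
            exact ih _ (by omega) (by omega) E rfl
        rw [h4, Finset.sum_powerset_apply_card g, hA, Finset.sum_range_succ] at h3
        have h5 : ∑ j ∈ Finset.range (m + 1), (m + 1).choose j • g j =
            ((∑ j ∈ Finset.range (m + 1), ((m + 1).choose j : ℤ) * Yn σ j : ℤ) : F) := by
          push_cast
          apply Finset.sum_congr rfl
          intro j hj
          rw [Finset.mem_range] at hj
          rw [hg, if_pos hj, nsmul_eq_mul]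
        rw [h5, hg, if_neg (lt_irrefl _), Nat.choose_self, one_smul] at h3
        rw [Yn_succ, hσ]
        simp only [Bool.false_eq_true, if_false]
        push_cast at h3 ⊢
        linear_combination h3

end

theorem mainT : ∀ n : ℕ, 1 ≤ n → ∀ (c : ℕ → ℕ → Bool) (lo : ℕ), ∃ s, HM c s lo (lo + (3 * n - 1)) n := by
  intro n
  induction n using Nat.strong_induction_on with
  | _ n ih =>
    intro hn1 c lo
    by_contra hno
    push Not at hno
    obtain ⟨p, hp, hpn, hpU⟩ := exists_prime n n hn1
    have : Fact p.Prime := ⟨hp⟩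
    obtain ⟨L, hL⟩ : ∃ L, 3 * n + 6 ≤ p ^ L := ⟨3 * n + 6, (Nat.lt_pow_self hp.one_lt).le⟩
    have hK : 0 < p ^ L := by omega
    set χr : ℕ → ℕ → ZMod p := ch (ZMod p) c true with hχr
    set χb : ℕ → ℕ → ZMod p := ch (ZMod p) c false with hχb
    have hχ : ∀ a b, χr a b + χb a b = 1 := by
      intro a b
      simp only [hχr, hχb, ch]
      cases c a b <;> simp
    set P : BF (ZMod p) := fun a A => PP (p ^ L) χb χr A (lo + 3 * a) with hP
    set Q : BF (ZMod p) := fun a A => PP (p ^ L) χr χr A (lo + 3 * a) with hQ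
    have hcast : ∀ m : ℕ, 1 ≤ m → m ≤ n → (m : ZMod p) ≠ 0 := by
      intro m h1 h2 h3
      rw [ZMod.natCast_eq_zero_iff] at h3
      have := Nat.le_of_dvd (by omega) h3
      omega
    have hP0 : ∀ a, P a ∅ = 0 := fun a => PP_empty _ _ _ _
    have hQ0 : ∀ a, Q a ∅ = 0 := fun a => PP_empty _ _ _ _
    have h1 : ∀ a j, P a {j} + Q a {j} = 1 := by
      intro a j
      have := E1 (p ^ L) χr χb hχ j (lo + 3 * a)
      rw [add_comm] at this
      exact this
    have hE : ∀ a A, A.card ≤ n → ((A.card : ZMod p) - 1) * (P a A + Q a A) = cv P Q a A - cv Q P a A := by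
      intro a A hA
      have h2 := E2 L χr χb hχ A (by omega) (lo + 3 * a)
      have h3 : P a A + Q a A = PP (p ^ L) χr χr A (lo + 3 * a) + PP (p ^ L) χb χr A (lo + 3 * a) := add_comm _ _
      rw [h3, h2]
      unfold cv
      rw [← Finset.sum_sub_distrib]
      apply Finset.sum_congr rfl
      intro B _
      have e : lo + 3 * a + 3 * B.card = lo + 3 * (a + B.card) := by ring
      rw [e]
    obtain ⟨hY, hX⟩ := conv_main hcast P Q hP0 hQ0 h1 hE
    have mY := gen_match hcast (YY P) P (-1) hP0 (fun a A hA => by rw [hY a A hA]; ring) c false lo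
      (fun a A h => (E3 (p ^ L) hK c A (lo + 3 * a)).2 h)
    have mX := gen_match hcast (cv Ef (YY P)) Q 1 hQ0 (fun a A hA => by rw [hX a A hA]; ring) c true lo
      (fun a A h => (E3 (p ^ L) hK c A (lo + 3 * a)).1 h)
    -- both colours cannot occur in a suffix block
    have hsuf : ∀ m, 1 ≤ m → m < n → ¬ (HM c false (lo + 3 * (n - m)) (lo + 3 * (n - m) + (3 * m - 1)) m ∧
        HM c true (lo + 3 * (n - m)) (lo + 3 * (n - m) + (3 * m - 1)) m) := by
      intro m hm1 hmn ⟨hb, hr⟩
      obtain ⟨s, hs⟩ := ih (n - m) (by omega) (by omega) c lo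
      have e1 : n - m + m = n := by omega
      have e2 : lo + 3 * (n - m) + (3 * m - 1) = lo + (3 * n - 1) := by omega
      cases s with
      | false =>
        have := HM_add hs hb (by omega) (by omega) (by omega)
        rw [e1, e2] at this
        exact hno _ this
      | true =>
        have := HM_add hs hr (by omega) (by omega) (by omega)
        rw [e1, e2] at this
        exact hno _ this
    classical
    set σ : ℕ → Bool := fun m => decide (∀ A : Finset ℕ, A.card = m → YY P (n - m) A = 0) with hσ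
    have s1 : ∀ m, 1 ≤ m → m < n → σ m = true → ∀ A : Finset ℕ, A.card = m → YY P (n - m) A = 0 := by
      intro m _ _ h A hA
      exact (of_decide_eq_true h) A hA
    have s2 : ∀ m, 1 ≤ m → m < n → σ m = false → ∀ A : Finset ℕ, A.card = m → cv Ef (YY P) (n - m) A = 0 := by
      intro m hm1 hmn h A hA
      have h3 := of_decide_eq_false h
      push Not at h3
      obtain ⟨A', hA', hne⟩ := h3
      by_contra h4
      have g1 := mY A' (by omega) (n - m) hne
      have g2 := mX A (by omega) (n - m) h4
      rw [hA'] at g1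
      rw [hA] at g2
      exact hsuf m hm1 hmn ⟨g1, g2⟩
    have hconst := Y_const (YY P) (YY_empty P) n σ s1 s2
    -- the full block
    have hcard : (Finset.range n).card = n := Finset.card_range n
    have z1 : YY P 0 (Finset.range n) = 0 := by
      by_contra h4
      have g1 := mY (Finset.range n) (by omega) 0 h4
      rw [hcard] at g1
      exact hno _ g1
    have z2 : cv Ef (YY P) 0 (Finset.range n) = 0 := by
      by_contra h4
      have g1 := mX (Finset.range n) (by omega) 0 h4
      rw [hcard] at g1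
      exact hno _ g1
    have z3 := sumX (YY P) n (Finset.range n) (by omega)
    have e0 : n - (Finset.range n).card = 0 := by omega
    rw [e0, z2] at z3
    obtain ⟨g, hg⟩ : ∃ g : ℕ → ZMod p, ∀ j, g j = if j < n then ((Yn σ j : ℤ) : ZMod p) else 0 :=
      ⟨_, fun _ => rfl⟩
    have h4 : ∑ E ∈ (Finset.range n).powerset, YY P (n - E.card) E =
        ∑ E ∈ (Finset.range n).powerset, g E.card := by
      apply Finset.sum_congr rfl
      intro E hE
      rw [Finset.mem_powerset] at hE
      rw [hg]
      by_cases hEA : E = Finset.range n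
      · rw [hEA, hcard]
        simp [z1]
      · have hlt : E.card < (Finset.range n).card := Finset.card_lt_card (Finset.ssubset_iff_subset_ne.2 ⟨hE, hEA⟩)
        have : E.card < n := by omega
        rw [if_pos this]
        exact hconst _ this E rfl
    rw [h4, Finset.sum_powerset_apply_card g, hcard, Finset.sum_range_succ] at z3
    have h5 : ∑ j ∈ Finset.range n, n.choose j • g j =
        ((Un σ n : ℤ) : ZMod p) := by
      unfold Un
      push_cast
      apply Finset.sum_congr rfl
      intro j hj
      rw [Finset.mem_range] at hj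
      rw [hg, if_pos hj, nsmul_eq_mul]
    rw [h5, hg, if_neg (lt_irrefl _), smul_zero, add_zero] at z3
    exact hpU σ ((ZMod.intCast_zmod_eq_zero_iff_dvd _ _).1 z3.symm)

end Pool.Agent.H168R3
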