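import Pool.Agent.H168R3.MC

/-! The lifted chains `Z A` with `D (Z A) = ∑ ± Z B o Z (A \ B)` modulo lacking words. -/

namespace Pool.Agent.H168R3

open FreeAlgebra

theorem triple_sum {M : Type} [AddCommMonoid M] (A : Finset ℕ) (F : Finset ℕ → Finset ℕ → Finset ℕ → M) :
    ∑ B ∈ A.powerset, ∑ B1 ∈ B.powerset, F B1 (B \ B1) (A \ B) =
    ∑ B1 ∈ A.powerset, ∑ B2 ∈ (A \ B1).powerset, F B1 B2 ((A \ B1) \ B2) := by
  rw [Finset.sum_sigma', Finset.sum_sigma']
  refine Finset.sum_nbij' (fun x => ⟨x.2, x.1 \ x.2⟩) (fun x => ⟨x.1 ∪ x.2, x.1⟩) ?_ ?_ ?_ ?_ ?_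
  · rintro ⟨B, B1⟩ h
    simp only [Finset.mem_sigma, Finset.mem_powerset] at h ⊢
    exact ⟨h.2.trans h.1, Finset.sdiff_subset_sdiff h.1 (Finset.Subset.refl _)⟩
  · rintro ⟨B1, B2⟩ h
    simp only [Finset.mem_sigma, Finset.mem_powerset] at h ⊢
    exact ⟨Finset.union_subset h.1 (h.2.trans Finset.sdiff_subset), Finset.subset_union_left⟩
  · rintro ⟨B, B1⟩ h
    simp only [Finset.mem_sigma, Finset.mem_powerset] at h
    simp [Finset.union_sdiff_of_subset h.2]
  · rintro ⟨B1, B2⟩ h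
    simp only [Finset.mem_sigma, Finset.mem_powerset] at h
    have : (B1 ∪ B2) \ B1 = B2 := by
      ext x
      simp only [Finset.mem_sdiff, Finset.mem_union]
      constructor
      · rintro ⟨h1 | h1, h2⟩
        · exact absurd h1 h2
        · exact h1
      · intro hx
        exact ⟨Or.inr hx, (Finset.mem_sdiff.1 (h.2 hx)).2⟩
    simp [this]
  · rintro ⟨B, B1⟩ h
    simp only [Finset.mem_sigma, Finset.mem_powerset] at h
    have : (A \ B1) \ (B \ B1) = A \ B := by
      ext x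
      simp only [Finset.mem_sdiff]
      constructor
      · rintro ⟨⟨h1, h2⟩, h3⟩
        exact ⟨h1, fun hB => h3 ⟨hB, h2⟩⟩
      · rintro ⟨h1, h2⟩
        exact ⟨⟨h1, fun hB => h2 (h.2 hB)⟩, fun h3 => h2 h3.1⟩
    simp [this]

theorem inv_add_left {B B' T : Finset ℕ} (h : Disjoint B B') : inv (B ∪ B') T = inv B T + inv B' T := by
  unfold inv; rw [Finset.sum_union h]

theorem inv_add_right {B T T' : Finset ℕ} (h : Disjoint T T') : inv B (T ∪ T') = inv B T + inv B T' := by
  unfold inv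
  rw [← Finset.sum_add_distrib]
  apply Finset.sum_congr rfl
  intro b _
  rw [Finset.filter_union, Finset.card_union_of_disjoint]
  exact Finset.disjoint_filter_filter h

section
variable {k : Type} [CommRing k] {X : Type}

/-- the lift of a family of chains -/
noncomputable def ZL (zf : Finset ℕ → W k X) (A : Finset ℕ) : W k X :=
  NN (zf A) + HH (∑ B ∈ A.ssubsets.attach, if h : B.1 = ∅ then 0 else
    eta k B.1 (A \ B.1) • (ZL zf B.1 * uo k X * ZL zf (A \ B.1)))
termination_by A.card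
decreasing_by
  · exact Finset.card_lt_card (Finset.mem_ssubsets.1 B.2)
  · have h1 := (Finset.mem_ssubsets.1 B.2).1
    rw [Finset.card_sdiff_of_subset h1]
    have h2 := Finset.card_pos.2 (Finset.nonempty_iff_ne_empty.2 h)
    have h3 := Finset.card_le_card h1
    omega

noncomputable def WL (zf : Finset ℕ → W k X) (A : Finset ℕ) : W k X :=
  ∑ B ∈ A.powerset, eta k B (A \ B) • (ZL zf B * uo k X * ZL zf (A \ B))

theorem ZL_empty {zf : Finset ℕ → W k X} (h0 : zf ∅ = 0) : ZL zf ∅ = 0 := by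
  rw [ZL, h0, map_zero, zero_add, Finset.sum_eq_zero, map_zero]
  intro x _
  have := Finset.mem_ssubsets.1 x.2
  exact absurd this (Finset.not_ssubset_empty _)

theorem ZL_eq {zf : Finset ℕ → W k X} (h0 : zf ∅ = 0) (A : Finset ℕ) :
    ZL zf A = NN (zf A) + HH (WL zf A) := by
  rw [ZL]
  congr 2
  have e0 := ZL_empty h0
  unfold WL
  have h1 : ∑ B ∈ A.ssubsets.attach, (if h : B.1 = ∅ then 0 else
      eta k B.1 (A \ B.1) • (ZL zf B.1 * uo k X * ZL zf (A \ B.1))) =
      ∑ B ∈ A.ssubsets, eta k B (A \ B) • (ZL zf B * uo k X * ZL zf (A \ B)) := by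
    rw [← Finset.sum_attach A.ssubsets]
    apply Finset.sum_congr rfl
    intro B _
    split_ifs with h
    · rw [h, e0]; simp
    · rfl
  rw [h1]
  apply Finset.sum_subset
  · intro B hB
    exact Finset.mem_powerset.2 (Finset.mem_ssubsets.1 hB).1
  · intro B hB hB'
    have : B = A := by
      by_contra hne
      exact hB' (Finset.mem_ssubsets.2 (Finset.ssubset_iff_subset_ne.2 ⟨Finset.mem_powerset.1 hB, hne⟩))
    rw [this, Finset.sdiff_self, e0]; simp

/-- strong induction along splittings -/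
theorem split_ind {P : Finset ℕ → Prop} (h0 : P ∅)
    (h : ∀ A, A ≠ ∅ → (∀ B ⊆ A, B ≠ ∅ → B ≠ A → P B ∧ P (A \ B)) → P A) : ∀ A, P A := by
  intro A
  induction A using Finset.strongInduction with
  | H A ih =>
    by_cases hA : A = ∅
    · rw [hA]; exact h0
    · refine h A hA (fun B hB hB0 hBA => ⟨ih B (Finset.ssubset_iff_subset_ne.2 ⟨hB, hBA⟩), ih _ ?_⟩)
      refine Finset.ssubset_iff_subset_ne.2 ⟨Finset.sdiff_subset, ?_⟩
      intro h
      obtain ⟨b, hb⟩ := Finset.nonempty_iff_ne_empty.2 hB0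
      have := hB hb
      rw [← h, Finset.mem_sdiff] at this
      exact this.2 hb

/-- the sum defining `WL` over proper nonempty subsets: a way to prove membership -/
theorem WL_ind {zf : Finset ℕ → W k X} (h0 : zf ∅ = 0) {A : Finset ℕ} {Q : W k X → Prop} (hz : Q 0)
    (ha : ∀ x y, Q x → Q y → Q (x + y))
    (h : ∀ B ⊆ A, B ≠ ∅ → B ≠ A → Q (eta k B (A \ B) • (ZL zf B * uo k X * ZL zf (A \ B)))) : Q (WL zf A) := by
  unfold WL
  apply Finset.sum_induction _ Q ha hz
  intro B hB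
  rw [Finset.mem_powerset] at hB
  by_cases h1 : B = ∅
  · rw [h1, ZL_empty h0]; simpa using hz
  by_cases h2 : B = A
  · rw [h2, Finset.sdiff_self, ZL_empty h0]; simpa using hz
  exact h B hB h1 h2

end

section
variable {k : Type} [CommRing k]

noncomputable def Z (k : Type) [CommRing k] (K : ℕ) (A : Finset ℕ) : W k (ℕ × Bool) := ZL (zz k K) A
noncomputable def WW (k : Type) [CommRing k] (K : ℕ) (A : Finset ℕ) : W k (ℕ × Bool) := WL (zz k K) A

theorem WW_def (K : ℕ) (A : Finset ℕ) : WW k K A = ∑ B ∈ A.powerset, eta k B (A \ B) • (Z k K B * uo k _ * Z k K (A \ B)) := rfl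
theorem Z_empty (K : ℕ) : Z k K ∅ = 0 := ZL_empty (zz_empty K)
theorem Z_eq (K : ℕ) (A : Finset ℕ) : Z k K A = NN (zz k K A) + HH (WW k K A) := ZL_eq (zz_empty K) A

theorem Z_mem (K : ℕ) : ∀ A, Z k K A ∈ U k (lab A) := by
  refine split_ind ?_ ?_
  · rw [Z_empty]; exact zero_mem _
  · intro A hA ih
    rw [Z_eq]
    refine add_mem (NN_mem (zz_mem K A)) (HH_mem ?_)
    refine WL_ind (Q := fun v => v ∈ U k (lab A)) (zz_empty K) (zero_mem _) (fun _ _ => add_mem) ?_
    intro B hB h1 h2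
    obtain ⟨i1, i2⟩ := ih B hB h1 h2
    exact Subalgebra.smul_mem _ (mul_mem (mul_mem (U_mono (lab_mono hB) i1) (uo_mem _))
      (U_mono (lab_mono Finset.sdiff_subset) i2)) _

theorem pr_Z (K : ℕ) : ∀ A, pr (Z k K A) = ((-1 : k) ^ (A.card + 1)) • Z k K A := by
  refine split_ind ?_ ?_
  · rw [Z_empty]; simp
  · intro A hA ih
    have hW : pr (WW k K A) = ((-1 : k) ^ A.card) • WW k K A := by
      rw [WW_def, map_sum, Finset.smul_sum]
      apply Finset.sum_congr rfl
      intro B hB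
      rw [Finset.mem_powerset] at hB
      by_cases h1 : B = ∅
      · rw [h1, Z_empty]; simp
      by_cases h2 : B = A
      · rw [h2, Finset.sdiff_self, Z_empty]; simp
      obtain ⟨i1, i2⟩ := ih B hB h1 h2
      rw [map_smul, map_mul, map_mul, i1, i2, pr_o, smul_comm]
      congr 1
      rw [smul_mul_assoc, smul_mul_assoc, mul_smul_comm, smul_smul, ← pow_add]
      congr 1
      have : (A \ B).card + B.card = A.card := Finset.card_sdiff_add_card_eq_card hB
      have e : B.card + 1 + ((A \ B).card + 1) = A.card + 2 := by omega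
      rw [e, pow_add]; simp
    rw [Z_eq, map_add, pr_NN, pr_zz, pr_HH, hW, map_smul, map_smul, smul_add, pow_succ, mul_neg_one,
      neg_smul, neg_smul]

theorem Ncal_Z (K : ℕ) (A : Finset ℕ) : Ncal (Z k K A) = Ncal (zz k K A) := by
  rw [Z_eq, map_add, Ncal_NN, Ncal_HH, add_zero]

theorem Lack_mono_mul_right {A B : Finset ℕ} (hB : B ⊆ A) {u v : W k (ℕ × Bool)} (hu : u ∈ Lack k B)
    (hv : v ∈ U k (lab (A \ B))) : u * v ∈ Lack k A := by
  refine Lack_map (LinearMap.mulRight k v) ?_ hu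
  intro y hy w hw
  refine Lack_of y (hB hy) (mul_mem (U_mono ?_ hw) (U_mono ?_ hv))
  · exact fun x hx => ⟨hB hx.1, hx.2⟩
  · intro x hx
    refine ⟨(Finset.mem_sdiff.1 hx).1, ?_⟩
    rintro rfl; exact (Finset.mem_sdiff.1 hx).2 hy

theorem Lack_mono_mul_left {A B : Finset ℕ} (hB : B ⊆ A) {u v : W k (ℕ × Bool)} (hu : u ∈ Lack k (A \ B))
    (hv : v ∈ U k (lab B)) : v * u ∈ Lack k A := by
  refine Lack_map (LinearMap.mulLeft k v) ?_ hu
  intro y hy w hw
  refine Lack_of y (Finset.mem_sdiff.1 hy).1 (mul_mem (U_mono ?_ hv) (U_mono ?_ hw))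
  · intro x hx
    refine ⟨hB hx, ?_⟩
    rintro rfl; exact (Finset.mem_sdiff.1 hy).2 hx
  · exact fun x hx => ⟨(Finset.mem_sdiff.1 hx.1).1, hx.2⟩

theorem cocycle (K : ℕ) (A : Finset ℕ) : ∑ B ∈ A.powerset, eta k B (A \ B) •
    (WW k K B * (uo k _ * Z k K (A \ B)) + pr (Z k K B) * (uo k _ * WW k K (A \ B))) = 0 := by
  simp only [smul_add, Finset.sum_add_distrib]
  obtain ⟨F, hF⟩ : ∃ F : Finset ℕ → Finset ℕ → Finset ℕ → W k (ℕ × Bool), ∀ B1 B2 B3, F B1 B2 B3 =
    (eta k (B1 ∪ B2) B3 * eta k B1 B2) • (Z k K B1 * uo k _ * Z k K B2 * uo k _ * Z k K B3) :=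
    ⟨fun B1 B2 B3 => _, fun _ _ _ => rfl⟩
  have e1 : ∑ B ∈ A.powerset, eta k B (A \ B) • (WW k K B * (uo k _ * Z k K (A \ B))) =
      ∑ B ∈ A.powerset, ∑ B1 ∈ B.powerset, F B1 (B \ B1) (A \ B) := by
    apply Finset.sum_congr rfl
    intro B hB
    rw [WW_def, Finset.sum_mul, Finset.smul_sum]
    apply Finset.sum_congr rfl
    intro B1 hB1
    rw [Finset.mem_powerset] at hB1
    rw [hF, Finset.union_sdiff_of_subset hB1, smul_mul_assoc, smul_smul]
    simp only [mul_assoc]
  have e2 : ∑ B ∈ A.powerset, eta k B (A \ B) • (pr (Z k K B) * (uo k _ * WW k K (A \ B))) =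
      ∑ B1 ∈ A.powerset, ∑ B2 ∈ (A \ B1).powerset, ((-1 : k) ^ (B1.card + 1) * eta k B1 (A \ B1) * eta k B2 ((A \ B1) \ B2)) •
        (Z k K B1 * uo k _ * Z k K B2 * uo k _ * Z k K ((A \ B1) \ B2)) := by
    apply Finset.sum_congr rfl
    intro B hB
    rw [WW_def, Finset.mul_sum, Finset.mul_sum, Finset.smul_sum, pr_Z]
    apply Finset.sum_congr rfl
    intro B1 hB1
    rw [mul_smul_comm, mul_smul_comm, smul_mul_assoc, smul_smul, smul_smul]
    simp only [mul_assoc]
    congr 1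
    ring
  rw [e1, e2, triple_sum, ← Finset.sum_add_distrib]
  apply Finset.sum_eq_zero
  intro B1 hB1
  rw [← Finset.sum_add_distrib]
  apply Finset.sum_eq_zero
  intro B2 hB2
  rw [Finset.mem_powerset] at hB1 hB2
  rw [hF, ← add_smul]
  have hd12 : Disjoint B1 B2 := by
    rw [Finset.disjoint_left]
    intro x h1 h2
    exact (Finset.mem_sdiff.1 (hB2 h2)).2 h1
  have hu : A \ B1 = B2 ∪ (A \ B1) \ B2 := (Finset.union_sdiff_of_subset hB2).symm
  have hd23 : Disjoint B2 ((A \ B1) \ B2) := Finset.disjoint_sdiff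
  have hz : eta k (B1 ∪ B2) ((A \ B1) \ B2) * eta k B1 B2 +
      (-1 : k) ^ (B1.card + 1) * eta k B1 (A \ B1) * eta k B2 ((A \ B1) \ B2) = 0 := by
    have h3 : eta k B1 (A \ B1) = eta k B1 (B2 ∪ (A \ B1) \ B2) := by rw [← hu]
    rw [h3]
    unfold eta
    rw [inv_add_left hd12, inv_add_right hd23, Finset.card_union_of_disjoint hd12]
    generalize inv B1 ((A \ B1) \ B2) = a
    generalize inv B2 ((A \ B1) \ B2) = b
    generalize inv B1 B2 = c
    generalize B1.card = x
    generalize B2.card = y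
    rw [← pow_add, ← pow_add, ← pow_add]
    have e3 : a + b + (x + y) + 1 + (c + x + 1) = 2 * (x + 1) + (a + b + c + y) := by ring
    have e4 : x + 1 + (c + a + x + 1) + (b + y + 1) = 2 * (x + 1) + (a + b + c + y) + 1 := by ring
    rw [e3, e4, pow_succ]; ring
  simp only [hz, zero_smul]

end

section
variable {p : ℕ} [Fact p.Prime]

theorem D_Z (L : ℕ) : ∀ A : Finset ℕ, 3 * A.card + 6 ≤ p ^ L →
    D (Z (ZMod p) (p ^ L) A) - WW (ZMod p) (p ^ L) A ∈ Lack (ZMod p) A := by
  set K := p ^ L with hK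
  refine split_ind (P := fun A => 3 * A.card + 6 ≤ K → D (Z (ZMod p) K A) - WW (ZMod p) K A ∈ Lack (ZMod p) A) ?_ ?_
  · intro _
    have : WW (ZMod p) K ∅ = 0 := by rw [WW_def]; simp [Z_empty]
    rw [Z_empty, this]; simp
  · intro A hA ih hKA
    have hmc := MCz (p := p) L A hKA
    rw [← hK] at hmc
    set lam := dd (zz (ZMod p) K A) - ∑ B ∈ A.powerset, eta (ZMod p) B (A \ B) • (zz (ZMod p) K B * zz (ZMod p) K (A \ B)) with hlam
    have hdd : dd (zz (ZMod p) K A) = ∑ B ∈ A.powerset, eta (ZMod p) B (A \ B) • (zz (ZMod p) K B * zz (ZMod p) K (A \ B)) + lam := by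
      rw [hlam]; abel
    have e1 : NN (D (zz (ZMod p) K A)) = NN (WW (ZMod p) K A) + NN lam * uo _ _ := by
      rw [NN_def, NN_D, hdd, map_add, LinearMap.add_apply]
      congr 1
      · rw [WW_def, NN_def, map_sum, map_sum]
        simp only [LinearMap.sum_apply]
        apply Finset.sum_congr rfl
        intro B _
        rw [map_smul, map_smul, LinearMap.smul_apply, LinearMap.smul_apply, map_mul, map_mul, map_mul, Ncal_o,
          Ncal_Z, Ncal_Z]
        congr 1
        simp only [Module.End.mul_apply, LinearMap.mulRight_apply]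
        congr 1
        rw [← Ncal_mulo, one_mul]
      · have := Ncal_mulo lam 1
        rw [one_mul] at this
        rw [this]; rfl
    have e2 : D (HH (WW (ZMod p) K A)) = WW (ZMod p) K A - NN (WW (ZMod p) K A) - HH (D (WW (ZMod p) K A)) := by
      rw [← D_HH]; abel
    have e3 : D (Z (ZMod p) K A) - WW (ZMod p) K A = NN lam * uo _ _ - HH (D (WW (ZMod p) K A)) := by
      rw [Z_eq, map_add, D_NN, e1, e2]; abel
    rw [e3]
    have hNN : ∀ v ∈ Lack (ZMod p) A, NN v * uo _ _ ∈ Lack (ZMod p) A := by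
      intro v hv
      refine Lack_map (LinearMap.mulRight _ (uo _ _) ∘ₗ NN) ?_ hv
      intro y hy w hw
      exact Lack_of y hy (mul_mem (NN_mem hw) (uo_mem _))
    have hHH : ∀ v ∈ Lack (ZMod p) A, HH v ∈ Lack (ZMod p) A := by
      intro v hv
      refine Lack_map HH ?_ hv
      intro y hy w hw
      exact Lack_of y hy (HH_mem hw)
    refine sub_mem (hNN _ hmc) (hHH _ ?_)
    have e4 : D (WW (ZMod p) K A) = ∑ B ∈ A.powerset, eta (ZMod p) B (A \ B) •
        ((D (Z (ZMod p) K B) - WW (ZMod p) K B) * (uo _ _ * Z (ZMod p) K (A \ B)) +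
          pr (Z (ZMod p) K B) * (uo _ _ * (D (Z (ZMod p) K (A \ B)) - WW (ZMod p) K (A \ B)))) := by
      have c0 := cocycle (k := ZMod p) K A
      have : D (WW (ZMod p) K A) = D (WW (ZMod p) K A) - 0 := by rw [sub_zero]
      rw [this, ← c0, WW_def K A, map_sum, ← Finset.sum_sub_distrib]
      apply Finset.sum_congr rfl
      intro B _
      rw [map_smul, ← smul_sub, mul_assoc, D_mul, D_o]
      congr 1
      noncomm_ring
    rw [e4]
    refine sum_mem (fun B hB => Submodule.smul_mem _ _ ?_)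
    rw [Finset.mem_powerset] at hB
    by_cases h1 : B = ∅
    · rw [h1]
      have : WW (ZMod p) K ∅ = 0 := by rw [WW_def]; simp [Z_empty]
      rw [Z_empty, this]; simp
    by_cases h2 : B = A
    · rw [h2, Finset.sdiff_self]
      have : WW (ZMod p) K ∅ = 0 := by rw [WW_def]; simp [Z_empty]
      rw [Z_empty, this]; simp
    obtain ⟨i1, i2⟩ := ih B hB h1 h2
    have c1 : B.card ≤ A.card := Finset.card_le_card hB
    have c2 : (A \ B).card ≤ A.card := Finset.card_le_card Finset.sdiff_subset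
    refine add_mem (Lack_mono_mul_right hB (i1 (by omega)) (mul_mem (uo_mem _) (Z_mem K _))) ?_
    rw [← mul_assoc]
    exact Lack_mono_mul_left hB (i2 (by omega)) (mul_mem (pr_mem (Z_mem K _)) (uo_mem _))

end

end Pool.Agent.H168R3
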