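import Pool.Agent.H168R3.Final
import Pool.Agent.H168R2.NN.Bridge

/-! The lower bound and the translation to `Fin m`. -/

namespace Pool.Agent.H168R3

open Pool.Agent.H168R2.NN Pool.Agent.H168R2.NNDefs

theorem arrows_of_le {n m : ℕ} (hn : 1 ≤ n) (hm : 3 * n - 1 ≤ m) : Arrows m n := by
  intro c
  obtain ⟨s, M, hM, hb, hcard⟩ := mainT n hn (ext c) 0
  refine ⟨s, hasMatching_of_le c s ?_⟩
  rw [← hcard]
  refine le_nu hM ?_
  intro e he
  have h1 := hb e he
  have h2 := (hM.1 e he).1
  exact ⟨by omega, by omega⟩

theorem not_arrows_of_lt {n m : ℕ} (hm : m < 3 * n - 1) : ¬ Arrows m n := by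
  intro h
  obtain ⟨b, M, ⟨hlt, hpair⟩, hcol, hcard⟩ := h (fun _ j => decide (j.1 < 2 * n - 1))
  have hinj2 : Set.InjOn (fun e : Fin m × Fin m => e.2.1) (M : Set (Fin m × Fin m)) := by
    intro e he f hf hef
    by_contra hne
    exact (hpair e he f hf hne).1.2.2.2 (Fin.ext hef)
  have hinj1 : Set.InjOn (fun e : Fin m × Fin m => e.1.1) (M : Set (Fin m × Fin m)) := by
    intro e he f hf hef
    by_contra hne
    exact (hpair e he f hf hne).1.1 (Fin.ext hef)
  cases b with
  | false =>
    have hsub : M.image (fun e : Fin m × Fin m => e.2.1) ⊆ Finset.Ico (2 * n - 1) m := by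
      intro x hx
      obtain ⟨e, he, rfl⟩ := Finset.mem_image.1 hx
      have := of_decide_eq_false (hcol e he)
      rw [Finset.mem_Ico]
      exact ⟨by omega, e.2.2⟩
    have h1 := Finset.card_le_card hsub
    rw [Finset.card_image_of_injOn hinj2, Nat.card_Ico, hcard] at h1
    omega
  | true =>
    have hsub1 : M.image (fun e : Fin m × Fin m => e.1.1) ⊆ Finset.range (2 * n - 1) := by
      intro x hx
      obtain ⟨e, he, rfl⟩ := Finset.mem_image.1 hx
      have h1 := of_decide_eq_true (hcol e he)
      have h2 : e.1.1 < e.2.1 := hlt e he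
      rw [Finset.mem_range]
      omega
    have hsub2 : M.image (fun e : Fin m × Fin m => e.2.1) ⊆ Finset.range (2 * n - 1) := by
      intro x hx
      obtain ⟨e, he, rfl⟩ := Finset.mem_image.1 hx
      have h1 := of_decide_eq_true (hcol e he)
      rw [Finset.mem_range]
      exact h1
    have hdisj : Disjoint (M.image (fun e : Fin m × Fin m => e.1.1)) (M.image (fun e : Fin m × Fin m => e.2.1)) := by
      rw [Finset.disjoint_left]
      intro x hx hx'
      obtain ⟨e, he, hex⟩ := Finset.mem_image.1 hx
      obtain ⟨f, hf, hfx⟩ := Finset.mem_image.1 hx'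
      have h1 : e.1 = f.2 := Fin.ext (hex.trans hfx.symm)
      by_cases hef : e = f
      · subst hef
        have := hlt e he
        rw [h1] at this
        exact lt_irrefl _ this
      · exact (hpair e he f hf hef).1.2.1 h1
    have h1 := Finset.card_le_card (Finset.union_subset hsub1 hsub2)
    rw [Finset.card_union_of_disjoint hdisj, Finset.card_image_of_injOn hinj1, Finset.card_image_of_injOn hinj2,
      Finset.card_range, hcard] at h1
    omega

end Pool.Agent.H168R3
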