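import Pool.Agent.H168R3.Tower2

/-! The tower of chains and its derivative. -/

namespace Pool.Agent.H168R3

open FreeAlgebra

section
variable {k : Type} [CommRing k] {X : Type}

/-- the tower of insertions, largest label outermost -/
noncomputable def Cl (l t r : ℕ → W k X) (K : ℕ) : List ℕ → W k X
  | [] => 0
  | j :: S => Psi (l j) (t j) (r j) K (Cl l t r K S) +
      if S = [] then -(l j * uo k X * (t j * uo k X)) else 0

noncomputable def CA (l t r : ℕ → W k X) (K : ℕ) (A : Finset ℕ) : W k X :=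
  Cl l t r K (A.sort (· ≥ ·))

theorem CA_empty (l t r : ℕ → W k X) (K : ℕ) : CA l t r K ∅ = 0 := by simp [CA, Cl]

theorem CA_insert (l t r : ℕ → W k X) (K : ℕ) {j : ℕ} {S : Finset ℕ} (h : ∀ x ∈ S, x < j) :
    CA l t r K (insert j S) = Psi (l j) (t j) (r j) K (CA l t r K S) +
      if S = ∅ then -(l j * uo k X * (t j * uo k X)) else 0 := by
  have hj : j ∉ S := fun hj => lt_irrefl _ (h j hj)
  have e : (insert j S).sort (· ≥ ·) = j :: S.sort (· ≥ ·) :=
    Finset.sort_insert (r := (· ≥ ·)) (fun b hb => (h b hb).le) hj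
  unfold CA
  rw [e, Cl]
  have : (S.sort (· ≥ ·) = [] ↔ S = ∅) := by
    constructor
    · intro h
      have := congrArg List.length h
      simpa using this
    · rintro rfl; simp
  simp only [this]

/-- number of inversions -/
def inv (B B' : Finset ℕ) : ℕ := ∑ b ∈ B, (B'.filter (· < b)).card

theorem inv_insert_right {B B' : Finset ℕ} {j : ℕ} (h : ∀ x ∈ B, x < j) :
    inv B (insert j B') = inv B B' := by
  unfold inv
  apply Finset.sum_congr rfl
  intro b hb
  rw [Finset.filter_insert, if_neg (by have := h b hb; omega)]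

theorem inv_insert_left {B B' : Finset ℕ} {j : ℕ} (h : ∀ x ∈ B', x < j) (hj : j ∉ B) :
    inv (insert j B) B' = inv B B' + B'.card := by
  unfold inv
  rw [Finset.sum_insert hj, add_comm]
  congr 1
  rw [Finset.filter_true_of_mem h]

def eta (k : Type) [CommRing k] (B B' : Finset ℕ) : k := (-1) ^ (inv B B' + B.card + 1)

/-- letters with labels in `A` -/
def lab (A : Finset ℕ) : Set (ℕ × Bool) := {x | x.1 ∈ A}

theorem lab_mono {A B : Finset ℕ} (h : A ⊆ B) : lab A ⊆ lab B := fun _ hx => h hx

noncomputable def lt (k : Type) [CommRing k] (j : ℕ) : W k (ℕ × Bool) := ux k (j, false)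
noncomputable def rt (k : Type) [CommRing k] (j : ℕ) : W k (ℕ × Bool) := ux k (j, true)
noncomputable def tt (k : Type) [CommRing k] (j : ℕ) : W k (ℕ × Bool) := lt k j - rt k j

theorem pr_lt (j : ℕ) : pr (lt k j) = - lt k j := pr_x _
theorem pr_rt (j : ℕ) : pr (rt k j) = - rt k j := pr_x _
theorem pr_tt (j : ℕ) : pr (tt k j) = - tt k j := by rw [tt, map_sub, pr_lt, pr_rt]; abel
theorem dd_lt (j : ℕ) : dd (lt k j) = 1 := dd_x1 _
theorem dd_rt (j : ℕ) : dd (rt k j) = 1 := dd_x1 _
theorem dd_tt (j : ℕ) : dd (tt k j) = 0 := by rw [tt, map_sub, dd_lt, dd_rt, sub_self]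

theorem lt_mem {S : Set (ℕ × Bool)} {j : ℕ} (h : (j, false) ∈ S) : lt k j ∈ U k S := ux_mem h
theorem rt_mem {S : Set (ℕ × Bool)} {j : ℕ} (h : (j, true) ∈ S) : rt k j ∈ U k S := ux_mem h
theorem tt_mem {S : Set (ℕ × Bool)} {j : ℕ} (h : (j, false) ∈ S) (h' : (j, true) ∈ S) : tt k j ∈ U k S :=
  sub_mem (lt_mem h) (rt_mem h')

/-- the typed tower -/
noncomputable def C (k : Type) [CommRing k] (K : ℕ) (A : Finset ℕ) : W k (ℕ × Bool) := CA (lt k) (tt k) (rt k) K A

/-- combinations of words on labels in `A` missing at least one letter -/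
noncomputable def Lack (k : Type) [CommRing k] (A : Finset ℕ) : Submodule k (W k (ℕ × Bool)) :=
  Submodule.span k {v | ∃ y : ℕ × Bool, y.1 ∈ A ∧ v ∈ U k {x | x.1 ∈ A ∧ x ≠ y}}

theorem Lack_of {A : Finset ℕ} {v : W k (ℕ × Bool)} (y : ℕ × Bool) (hy : y.1 ∈ A)
    (hv : v ∈ U k {x | x.1 ∈ A ∧ x ≠ y}) : v ∈ Lack k A := Submodule.subset_span ⟨y, hy, hv⟩

theorem Lack_map {A B : Finset ℕ} (f : W k (ℕ × Bool) →ₗ[k] W k (ℕ × Bool))
    (h : ∀ y : ℕ × Bool, y.1 ∈ A → ∀ v ∈ U k {x | x.1 ∈ A ∧ x ≠ y}, f v ∈ Lack k B)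
    {v : W k (ℕ × Bool)} (hv : v ∈ Lack k A) : f v ∈ Lack k B := by
  have : (Lack k A).map f ≤ Lack k B := by
    unfold Lack
    rw [Submodule.map_span_le]
    rintro v ⟨y, hy, hv⟩
    exact h y hy v hv
  exact this (Submodule.mem_map_of_mem hv)

theorem C_mem (K : ℕ) (A : Finset ℕ) : C k K A ∈ U k (lab A) := by
  induction A using Finset.induction_on_max with
  | empty => rw [C, CA_empty]; exact zero_mem _
  | insert j S h ih =>
    have h1 : (j, false) ∈ lab (insert j S) := by simp [lab]
    have h2 : (j, true) ∈ lab (insert j S) := by simp [lab]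
    rw [C, CA_insert _ _ _ _ h]
    refine add_mem (Psi_mem (lab_mono (Finset.subset_insert _ _)) (lt_mem h1) (tt_mem h1 h2) (rt_mem h2) ih K) ?_
    split_ifs
    · exact neg_mem (mul_mem (mul_mem (lt_mem h1) (uo_mem _)) (mul_mem (tt_mem h1 h2) (uo_mem _)))
    · exact zero_mem _

theorem pr_C (K : ℕ) (A : Finset ℕ) : pr (C k K A) = ((-1 : k) ^ (A.card + 1)) • C k K A := by
  induction A using Finset.induction_on_max with
  | empty => rw [C, CA_empty]; simp
  | insert j S h ih =>
    have hj : j ∉ S := fun hj => lt_irrefl _ (h j hj)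
    rw [C, CA_insert _ _ _ _ h, map_add, pr_Psi (pr_lt j) (pr_tt j) (pr_rt j), Finset.card_insert_of_notMem hj]
    change -Psi (lt k j) (tt k j) (rt k j) K (pr (C k K S)) + _ = _ • (Psi (lt k j) (tt k j) (rt k j) K (C k K S) + _)
    rw [ih, map_smul, smul_add, pow_succ _ (S.card + 1), mul_neg_one, neg_smul]
    congr 1
    split_ifs with hS
    · subst hS
      simp [pr_lt, pr_tt]
    · simp

/-- defect of the derivative of the tower -/
noncomputable def MCe (k : Type) [CommRing k] (K : ℕ) (A : Finset ℕ) : W k (ℕ × Bool) :=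
  dd (C k K A) - ∑ B ∈ A.powerset, eta k B (A \ B) • (C k K B * uo k _ ^ (K - 2) * C k K (A \ B))

theorem MCe_sum (K : ℕ) {j : ℕ} {S : Finset ℕ} (h : ∀ x ∈ S, x < j) :
    ∑ B ∈ (insert j S).powerset, eta k B (insert j S \ B) • (C k K B * uo k _ ^ (K - 2) * C k K (insert j S \ B)) =
    ∑ B ∈ S.powerset, eta k B (S \ B) • (C k K B * uo k _ ^ (K - 2) * Psi (lt k j) (tt k j) (rt k j) K (C k K (S \ B)) +
      Psi (lt k j) (tt k j) (rt k j) K (C k K B) * uo k _ ^ (K - 2) * pr (C k K (S \ B))) +
    pr (C k K S) * uo k _ ^ (K - 2) * (-(lt k j * uo k _ * (tt k j * uo k _))) -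
    (-(lt k j * uo k _ * (tt k j * uo k _))) * uo k _ ^ (K - 2) * pr (C k K S) := by
  have hj : j ∉ S := fun hj => lt_irrefl _ (h j hj)
  rw [Finset.sum_powerset_insert hj]
  set sd : W k (ℕ × Bool) := -(lt k j * uo k _ * (tt k j * uo k _)) with hsd
  set P := Psi (lt k j) (tt k j) (rt k j) K with hP
  have t1 : ∀ B ∈ S.powerset, eta k B (insert j S \ B) • (C k K B * uo k _ ^ (K - 2) * C k K (insert j S \ B)) =
      eta k B (S \ B) • (C k K B * uo k _ ^ (K - 2) * P (C k K (S \ B))) +
      eta k B (S \ B) • (C k K B * uo k _ ^ (K - 2) * if S \ B = ∅ then sd else 0) := by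
    intro B hB
    rw [Finset.mem_powerset] at hB
    have hjB : j ∉ B := fun h => hj (hB h)
    have e1 : insert j S \ B = insert j (S \ B) := Finset.insert_sdiff_of_notMem _ hjB
    have e2 : C k K (insert j (S \ B)) = P (C k K (S \ B)) + if S \ B = ∅ then sd else 0 :=
      CA_insert _ _ _ _ (fun x hx => h x (Finset.mem_sdiff.1 hx).1)
    rw [e1, e2, ← smul_add, mul_add]
    congr 1
    unfold eta
    rw [inv_insert_right (fun x hx => h x (hB hx))]
  have t2 : ∀ B ∈ S.powerset, eta k (insert j B) (insert j S \ insert j B) •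
      (C k K (insert j B) * uo k _ ^ (K - 2) * C k K (insert j S \ insert j B)) =
      eta k B (S \ B) • (P (C k K B) * uo k _ ^ (K - 2) * pr (C k K (S \ B))) +
      eta k B (S \ B) • ((if B = ∅ then sd else 0) * uo k _ ^ (K - 2) * pr (C k K (S \ B))) := by
    intro B hB
    rw [Finset.mem_powerset] at hB
    have hjB : j ∉ B := fun h => hj (hB h)
    have e1 : insert j S \ insert j B = S \ B := by
      ext x; simp only [Finset.mem_sdiff, Finset.mem_insert]
      constructor
      · rintro ⟨h1 | h1, h2⟩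
        · exact absurd (Or.inl h1) h2
        · exact ⟨h1, fun h => h2 (Or.inr h)⟩
      · rintro ⟨h1, h2⟩
        exact ⟨Or.inr h1, fun h => by rcases h with rfl | h; exacts [hj h1, h2 h]⟩
    have e2 : C k K (insert j B) = P (C k K B) + if B = ∅ then sd else 0 :=
      CA_insert _ _ _ _ (fun x hx => h x (hB hx))
    rw [e1, e2, ← smul_add, ← add_mul, ← add_mul, pr_C, mul_smul_comm, smul_smul]
    congr 1
    unfold eta
    rw [inv_insert_left (fun x hx => h x (Finset.mem_sdiff.1 hx).1) hjB, Finset.card_insert_of_notMem hjB,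
      ← pow_add]
    congr 1
    ring
  rw [Finset.sum_congr rfl t1, Finset.sum_congr rfl t2, Finset.sum_add_distrib, Finset.sum_add_distrib]
  have s1 : ∑ B ∈ S.powerset, eta k B (S \ B) • (C k K B * uo k _ ^ (K - 2) * if S \ B = ∅ then sd else 0) =
      pr (C k K S) * uo k _ ^ (K - 2) * sd := by
    rw [Finset.sum_eq_single S]
    · rw [pr_C]
      simp [eta, inv]
    · intro B hB hne
      rw [Finset.mem_powerset] at hB
      rw [if_neg, mul_zero, smul_zero]
      rw [Finset.sdiff_eq_empty_iff_subset]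
      exact fun h => hne (Finset.Subset.antisymm hB h)
    · intro h; exact absurd (Finset.mem_powerset_self S) h
  have s2 : ∑ B ∈ S.powerset, eta k B (S \ B) • ((if B = ∅ then sd else 0) * uo k _ ^ (K - 2) * pr (C k K (S \ B))) =
      - (sd * uo k _ ^ (K - 2) * pr (C k K S)) := by
    rw [Finset.sum_eq_single ∅]
    · simp [eta, inv]
    · intro B hB hne
      rw [if_neg hne, zero_mul, zero_mul, smul_zero]
    · intro h; exact absurd (Finset.empty_mem_powerset S) h
  rw [s1, s2]
  simp only [smul_add, Finset.sum_add_distrib]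
  abel

end

section
variable {p : ℕ} [Fact p.Prime]

theorem MC (L : ℕ) (A : Finset ℕ) : ∃ lam ∈ Lack (ZMod p) A, ∀ (R : Type) [Ring R] [Algebra (ZMod p) R]
    (φ : W (ZMod p) (ℕ × Bool) →ₐ[ZMod p] R) (N : ℕ), Good φ N → N + 3 * A.card + 5 ≤ p ^ L →
    φ (uo _ _) ^ (p ^ L) * φ (MCe (ZMod p) (p ^ L) A - lam) * φ (uo _ _) ^ (p ^ L) = 0 := by
  set K := p ^ L with hK
  induction A using Finset.induction_on_max with
  | empty =>
    refine ⟨0, zero_mem _, ?_⟩
    intro R _ _ φ N _ _
    have : MCe (ZMod p) K ∅ = 0 := by simp [MCe, C, CA_empty]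
    simp [this]
  | insert j S h ih =>
    have hj : j ∉ S := fun hj => lt_irrefl _ (h j hj)
    set l := lt (ZMod p) j with hl
    set r := rt (ZMod p) j with hr
    set t := tt (ZMod p) j with ht
    set q := uo (ZMod p) (ℕ × Bool) with hq
    have htd : t = l - r := rfl
    by_cases hS : S = ∅
    · subst hS
      refine ⟨MCe (ZMod p) K (insert j ∅), ?_, ?_⟩
      · have : MCe (ZMod p) K (insert j ∅) = -(q * l * q) + q * r * q := by
          unfold MCe
          rw [MCe_sum K h]
          have e0 : C (ZMod p) K ∅ = 0 := CA_empty _ _ _ _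
          have e1 : C (ZMod p) K (insert j ∅) = -(l * q * (t * q)) := by
            have h2 := CA_insert (lt (ZMod p)) (tt (ZMod p)) (rt (ZMod p)) K h
            rw [CA_empty, map_zero, zero_add, if_pos rfl] at h2
            exact h2
          rw [e1]
          simp only [Finset.powerset_empty, Finset.sum_singleton, e0, Finset.empty_sdiff, map_zero, mul_zero, zero_mul,
            add_zero, smul_zero, sub_zero]
          have d1 : dd t = 0 := dd_tt j
          have d2 : dd l = 1 := dd_lt j
          rw [map_neg, dd_mul, dd_mul, dd_mul, d1, d2, hq, dd_o1, ← hq, htd]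
          simp only [mul_zero, zero_mul, add_zero, one_mul]
          noncomm_ring
        rw [this]
        refine add_mem (neg_mem ?_) ?_
        · exact Lack_of (j, true) (by simp) (mul_mem (mul_mem (uo_mem _) (lt_mem (by simp))) (uo_mem _))
        · exact Lack_of (j, false) (by simp) (mul_mem (mul_mem (uo_mem _) (rt_mem (by simp))) (uo_mem _))
      · intro R _ _ φ N _ _
        simp
    · obtain ⟨lam, hlam, hmain⟩ := ih
      set P := Psi l t r K with hP
      set c := C (ZMod p) K S with hc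
      set Lm := Lam l t r (q ^ K * c * q ^ K) 0 3 with hLm
      set y0 := (l * q * (l * q) - r * q * (r * q)) * q ^ (K - 2) * pr c with hy0
      have hpc : pr c ∈ U (ZMod p) (lab S) := pr_mem (C_mem K S)
      refine ⟨P lam + Lm - y0, ?_, ?_⟩
      · refine sub_mem (add_mem ?_ ?_) ?_
        · refine Lack_map P ?_ hlam
          intro y hy v hv
          refine Lack_of y (Finset.mem_insert_of_mem hy) ?_
          have hyj : ∀ b, (j, b) ≠ y := by rintro b rfl; exact hj hy
          have m1 : (j, false) ∈ ({x | x.1 ∈ insert j S ∧ x ≠ y} : Set (ℕ × Bool)) := ⟨by simp, hyj _⟩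
          have m2 : (j, true) ∈ ({x | x.1 ∈ insert j S ∧ x ≠ y} : Set (ℕ × Bool)) := ⟨by simp, hyj _⟩
          have hsub : ({x | x.1 ∈ S ∧ x ≠ y} : Set (ℕ × Bool)) ⊆ {x | x.1 ∈ insert j S ∧ x ≠ y} :=
            fun x hx => ⟨Finset.mem_insert_of_mem hx.1, hx.2⟩
          exact Psi_mem hsub (lt_mem m1) (tt_mem m1 m2) (rt_mem m2) hv K
        · have hmem : q ^ K * c * q ^ K ∈ U (ZMod p) (lab S) :=
            mul_mem (mul_mem (qpow_mem K) (C_mem K S)) (qpow_mem K)
          obtain ⟨x, hx, y, hy, hxy⟩ := (Lam_mem (a := (j, false)) (b := (j, true)) (t := t) hmem).2.2.2.2.1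
          have : Lm = x + y := hxy
          rw [this]
          refine add_mem ?_ ?_
          · refine Lack_of (j, true) (by simp) (U_mono ?_ hx)
            rintro z (rfl | hz)
            · simp
            · refine ⟨Finset.mem_insert_of_mem hz, ?_⟩
              rintro rfl; exact hj hz
          · refine Lack_of (j, false) (by simp) (U_mono ?_ hy)
            rintro z (rfl | hz)
            · simp
            · refine ⟨Finset.mem_insert_of_mem hz, ?_⟩
              rintro rfl; exact hj hz
        · have hsub1 : lab S ⊆ {x | x.1 ∈ insert j S ∧ x ≠ (j, true)} := by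
            intro z hz
            refine ⟨Finset.mem_insert_of_mem hz, ?_⟩
            rintro rfl; exact hj hz
          have hsub2 : lab S ⊆ {x | x.1 ∈ insert j S ∧ x ≠ (j, false)} := by
            intro z hz
            refine ⟨Finset.mem_insert_of_mem hz, ?_⟩
            rintro rfl; exact hj hz
          rw [hy0, sub_mul, sub_mul]
          refine sub_mem ?_ ?_
          · exact Lack_of (j, true) (by simp) (mul_mem (mul_mem (mul_mem (mul_mem (lt_mem (by simp)) (uo_mem _))
              (mul_mem (lt_mem (by simp)) (uo_mem _))) (qpow_mem _)) (U_mono hsub1 hpc))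
          · exact Lack_of (j, false) (by simp) (mul_mem (mul_mem (mul_mem (mul_mem (rt_mem (by simp)) (uo_mem _))
              (mul_mem (rt_mem (by simp)) (uo_mem _))) (qpow_mem _)) (U_mono hsub2 hpc))
      · intro R _ _ φ N hg hN
        rw [Finset.card_insert_of_notMem hj] at hN
        have hm := hmain _ (φ.mapMatrix.comp (ins l t r)) (N + 3) (goodIns hg l t r) (by omega)
        have hm2 : φ (P (MCe (ZMod p) K S - lam)) = 0 := by
          rw [← map_pow, ← map_mul, ← map_mul] at hm
          exact congrFun (congrFun hm 0) 3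
        have hVV : φ q ^ K * φ q ^ K = φ q ^ K := good_pow hg (by omega) (by omega)
        have e1 : MCe (ZMod p) K (insert j S) - (P lam + Lm - y0) =
            P (MCe (ZMod p) K S - lam) +
            ∑ B ∈ S.powerset, eta (ZMod p) B (S \ B) • (P (C (ZMod p) K B * q ^ (K - 2) * C (ZMod p) K (S \ B)) -
              (C (ZMod p) K B * q ^ (K - 2) * P (C (ZMod p) K (S \ B)) +
              P (C (ZMod p) K B) * q ^ (K - 2) * pr (C (ZMod p) K (S \ B)))) -
            (q ^ K * (pr c * q ^ (K - 2) * (l * q * (t * q))) - pr c * q ^ (K - 2) * (l * q * (t * q))) -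
            (t * q * (r * q) * q ^ (K - 2) * pr c * q ^ K - t * q * (r * q) * q ^ (K - 2) * pr c) := by
          have e2 : C (ZMod p) K (insert j S) = P c := by
            have := CA_insert (lt (ZMod p)) (tt (ZMod p)) (rt (ZMod p)) K h
            rw [if_neg hS, add_zero] at this
            exact this
          unfold MCe
          rw [MCe_sum K h, e2, hP, deriv_Psi (pr_lt j) (pr_tt j) (pr_rt j) (dd_lt j) (dd_tt j) (dd_rt j)
            (by change l - t = r; rw [htd]; abel) K (by omega) c, ← hP]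
          rw [map_sub, map_sub, map_sum]
          simp only [map_smul, smul_sub, Finset.sum_sub_distrib]
          have e3 : y0 = (t * q * (r * q)) * q ^ (K - 2) * pr c + (l * q * (t * q)) * q ^ (K - 2) * pr c := by
            rw [hy0, htd]
            noncomm_ring
          rw [e3]
          simp only [neg_mul, mul_neg]
          abel
        rw [e1, map_sub φ, map_sub φ, map_add φ, hm2, zero_add, mul_sub, mul_sub, sub_mul, sub_mul]
        have z1 : φ q ^ K * φ (∑ B ∈ S.powerset, eta (ZMod p) B (S \ B) • (P (C (ZMod p) K B * q ^ (K - 2) * C (ZMod p) K (S \ B)) -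
              (C (ZMod p) K B * q ^ (K - 2) * P (C (ZMod p) K (S \ B)) +
              P (C (ZMod p) K B) * q ^ (K - 2) * pr (C (ZMod p) K (S \ B))))) * φ q ^ K = 0 := by
          rw [map_sum, Finset.mul_sum, Finset.sum_mul]
          apply Finset.sum_eq_zero
          intro B _
          rw [map_smul, mul_smul_comm, smul_mul_assoc]
          have hsp := splitting hg L (by omega) l t r (C (ZMod p) K B) (C (ZMod p) K (S \ B))
          rw [map_sub]
          change _ • (φ q ^ K * (φ (Psi l t r (p ^ L) (C (ZMod p) K B * uo (ZMod p) (ℕ × Bool) ^ (p ^ L - 2) * C (ZMod p) K (S \ B))) - _) * φ q ^ K) = 0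
          rw [hsp, map_add, map_mul, map_mul, map_mul, map_mul, map_pow]
          generalize φ (C (ZMod p) K B) * φ q ^ (K - 2) * φ (P (C (ZMod p) K (S \ B))) = x
          generalize φ (P (C (ZMod p) K B)) * φ q ^ (K - 2) * φ (pr (C (ZMod p) K (S \ B))) = y
          have : φ q ^ K * (φ q ^ K * x + y * φ q ^ K - (x + y)) * φ q ^ K = 0 := by
            have a1 : φ q ^ K * (φ q ^ K * x + y * φ q ^ K - (x + y)) * φ q ^ K =
              (φ q ^ K * φ q ^ K) * x * φ q ^ K + φ q ^ K * y * (φ q ^ K * φ q ^ K) - φ q ^ K * x * φ q ^ K -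
                φ q ^ K * y * φ q ^ K := by noncomm_ring
            rw [a1, hVV]; abel
          rw [this, smul_zero]
        rw [z1, map_sub φ, map_sub φ, map_mul φ (q ^ K), map_mul φ _ (q ^ K), map_pow]
        generalize φ (pr c * q ^ (K - 2) * (l * q * (t * q))) = x
        generalize φ (t * q * (r * q) * q ^ (K - 2) * pr c) = y
        have a1 : φ q ^ K * (φ q ^ K * x) * φ q ^ K = (φ q ^ K * φ q ^ K) * x * φ q ^ K := by noncomm_ring
        have a2 : φ q ^ K * (y * φ q ^ K) * φ q ^ K = φ q ^ K * y * (φ q ^ K * φ q ^ K) := by noncomm_ring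
        rw [mul_sub, mul_sub, sub_mul, sub_mul, a1, a2, hVV]
        abel

/-- put all ticks equal to `1` -/
noncomputable def e1 (k : Type) [CommRing k] {X : Type} : W k X →ₐ[k] W k X :=
  lift k (fun a => match a with | none => 1 | some x => ux k x)

@[simp] theorem e1_o {k : Type} [CommRing k] {X : Type} : e1 k (uo k X) = 1 := by simp [e1]
@[simp] theorem e1_x {k : Type} [CommRing k] {X : Type} (x : X) : e1 k (ux k x) = ux k x := by simp [e1]

theorem e1_dd {k : Type} [CommRing k] {X : Type} (v : W k X) : e1 k (dd v) = dd (e1 k v) := by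
  refine lin_ext (f := (e1 k).toLinearMap ∘ₗ dd) (g := dd ∘ₗ (e1 k).toLinearMap) (by simp) ?_ v
  intro a v hv
  simp only [LinearMap.comp_apply, AlgHom.toLinearMap_apply] at hv ⊢
  cases a <;> simp [hv]

theorem e1_pr {k : Type} [CommRing k] {X : Type} (v : W k X) : e1 k (pr v) = pr (e1 k v) := by
  refine lin_ext (f := (e1 k).toLinearMap ∘ₗ pr.toLinearMap) (g := pr.toLinearMap ∘ₗ (e1 k).toLinearMap) (by simp) ?_ v
  intro a v hv
  simp only [LinearMap.comp_apply, AlgHom.toLinearMap_apply] at hv ⊢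
  cases a <;> simp [hv]

theorem e1_mem {k : Type} [CommRing k] {X : Type} {S : Set X} {v : W k X} (hv : v ∈ U k S) : e1 k v ∈ U k S := by
  refine U_ind (P := fun v => e1 k v ∈ U k S) ?_ ?_ ?_ ?_ ?_ v hv
  · rw [map_one]; exact one_mem _
  · intro x y hx hy; rw [map_add]; exact add_mem hx hy
  · intro c x hx; rw [map_smul]; exact Subalgebra.smul_mem _ hx c
  · intro v _ hv; rw [map_mul, e1_o, one_mul]; exact hv
  · intro x hx v _ hv; rw [map_mul, e1_x]; exact mul_mem (ux_mem hx) hv

theorem good_e1 {k : Type} [CommRing k] {X : Type} : Good (e1 k : W k X →ₐ[k] W k X) 1 := by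
  refine ⟨fun i => if i = 0 then ⊤ else ⊥, ?_, ?_, ?_, ?_, ?_⟩
  · intro i j hij
    by_cases hj : j = 0
    · have : i = 0 := by omega
      simp [this]
    · simp [hj]
  · intro i j a b ha hb
    by_cases hi : i = 0
    · by_cases hj : j = 0
      · simp [hi, hj]
      · simp only [hj, if_false, AddSubgroup.mem_bot] at hb
        rw [hb, mul_zero]; exact zero_mem _
    · simp only [hi, if_false, AddSubgroup.mem_bot] at ha
      rw [ha, zero_mul]; exact zero_mem _
  · intro v; simp
  · simp
  · simp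

/-- the chains -/
noncomputable def zz (k : Type) [CommRing k] (K : ℕ) (A : Finset ℕ) : W k (ℕ × Bool) := e1 k (C k K A)

theorem zz_mem {k : Type} [CommRing k] (K : ℕ) (A : Finset ℕ) : zz k K A ∈ U k (lab A) := e1_mem (C_mem K A)

theorem pr_zz {k : Type} [CommRing k] (K : ℕ) (A : Finset ℕ) :
    pr (zz k K A) = ((-1 : k) ^ (A.card + 1)) • zz k K A := by
  rw [zz, ← e1_pr, pr_C, map_smul]

theorem zz_empty {k : Type} [CommRing k] (K : ℕ) : zz k K ∅ = 0 := by rw [zz, C, CA_empty, map_zero]

theorem MCz (L : ℕ) (A : Finset ℕ) (h : 3 * A.card + 6 ≤ p ^ L) :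
    dd (zz (ZMod p) (p ^ L) A) - ∑ B ∈ A.powerset, eta (ZMod p) B (A \ B) •
      (zz (ZMod p) (p ^ L) B * zz (ZMod p) (p ^ L) (A \ B)) ∈ Lack (ZMod p) A := by
  obtain ⟨lam, hlam, hmain⟩ := MC (p := p) L A
  have h1 := hmain _ (e1 (ZMod p)) 1 good_e1 (by omega)
  rw [e1_o, one_pow, one_mul, mul_one, map_sub, sub_eq_zero] at h1
  have h2 : e1 (ZMod p) (MCe (ZMod p) (p ^ L) A) = dd (zz (ZMod p) (p ^ L) A) - ∑ B ∈ A.powerset, eta (ZMod p) B (A \ B) •
      (zz (ZMod p) (p ^ L) B * zz (ZMod p) (p ^ L) (A \ B)) := by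
    unfold MCe
    rw [map_sub, e1_dd, map_sum]
    congr 1
    apply Finset.sum_congr rfl
    intro B _
    rw [map_smul, map_mul, map_mul, map_pow, e1_o, one_pow, mul_one]
    rfl
  rw [← h2, h1]
  refine Lack_map (e1 (ZMod p)).toLinearMap ?_ hlam
  intro y hy v hv
  exact Lack_of y hy (e1_mem hv)

end

end Pool.Agent.H168R3
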