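import Mathlib

/-! Operators on the free algebra of words in letters `some x` and a special letter `none`. -/

namespace Pool.Agent.H168R3

open FreeAlgebra

abbrev W (k X : Type) [CommRing k] := FreeAlgebra k (Option X)

section
variable {k : Type} [CommRing k] {X Y : Type}

/-- an ordinary letter -/
abbrev ux (k : Type) [CommRing k] {X : Type} (x : X) : W k X := ι k (some x)
/-- the special letter -/
abbrev uo (k X : Type) [CommRing k] : W k X := ι k none

theorem ind {P : W k X → Prop} (h1 : P 1) (ha : ∀ x y, P x → P y → P (x + y))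
    (hs : ∀ (c : k) x, P x → P (c • x)) (hm : ∀ a x, P x → P (ι k a * x)) (x : W k X) : P x := by
  have key : ∀ x : W k X, ∀ v, P v → P (x * v) := by
    intro x
    induction x using FreeAlgebra.induction with
    | grade0 r =>
      intro v hv
      rw [← Algebra.smul_def]; exact hs r v hv
    | grade1 a => exact fun v hv => hm a v hv
    | mul a b iha ihb => intro v hv; rw [mul_assoc]; exact iha _ (ihb _ hv)
    | add a b iha ihb => intro v hv; rw [add_mul]; exact ha _ _ (iha _ hv) (ihb _ hv)
  simpa using key x 1 h1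

theorem lin_ext {M : Type} [AddCommGroup M] [Module k M] {f g : W k X →ₗ[k] M} (h1 : f 1 = g 1)
    (hm : ∀ a v, f v = g v → f (ι k a * v) = g (ι k a * v)) (x : W k X) : f x = g x := by
  refine ind (P := fun x => f x = g x) h1 ?_ ?_ hm x
  · intro x y hx hy; simp [hx, hy]
  · intro c x hx; simp [hx]

/-- left recursion -/
noncomputable def lrec {M : Type} [AddCommGroup M] [Module k M] (f : Option X → Module.End k M) (m : M) :
    W k X →ₗ[k] M where
  toFun v := lift k f v m
  map_add' := by intro x y; simp
  map_smul' := by intro c x; simp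

theorem lrec_one {M : Type} [AddCommGroup M] [Module k M] (f : Option X → Module.End k M) (m : M) :
    lrec f m 1 = m := by simp [lrec]

theorem lrec_mul {M : Type} [AddCommGroup M] [Module k M] (f : Option X → Module.End k M) (m : M)
    (a : Option X) (v : W k X) : lrec f m (ι k a * v) = f a (lrec f m v) := by simp [lrec]

/-- parity -/
noncomputable def pr : W k X →ₐ[k] W k X :=
  lift k (fun a => match a with | none => uo k X | some x => - ux k x)

@[simp] theorem pr_o : pr (uo k X) = uo k X := by simp [pr]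
@[simp] theorem pr_x (x : X) : pr (ux k x) = - ux k x := by simp [pr]

theorem pr_pr (v : W k X) : pr (pr v) = v := by
  have : (pr.comp pr : W k X →ₐ[k] W k X) = AlgHom.id k _ := by
    apply FreeAlgebra.hom_ext
    funext a
    cases a <;> simp
  exact congrArg (fun f => f v) this

/-- odd derivation along the algebra map `s` -/
noncomputable def oder {R : Type} [Ring R] [Algebra k R] (s : W k X →ₐ[k] R) (g : Option X → R) : W k X →ₗ[k] R :=
  LinearMap.snd k R R ∘ₗ lrec (fun a =>
    { toFun := fun p => (s (ι k a) * p.1, g a * p.1 + s (pr (ι k a)) * p.2)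
      map_add' := by
        intro p q; ext <;> simp [mul_add]; abel
      map_smul' := by intro c p; ext <;> simp }) ((1 : R), (0 : R))

theorem oder_one {R : Type} [Ring R] [Algebra k R] (s : W k X →ₐ[k] R) (g : Option X → R) :
    oder s g 1 = 0 := by simp [oder, lrec_one]

theorem oder_mul_aux {R : Type} [Ring R] [Algebra k R] (s : W k X →ₐ[k] R) (g : Option X → R) (v : W k X) :
    (lrec (fun a =>
    ({ toFun := fun p => (s (ι k a) * p.1, g a * p.1 + s (pr (ι k a)) * p.2)
       map_add' := by
        intro p q; ext <;> simp [mul_add]; abel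
       map_smul' := by intro c p; ext <;> simp } : Module.End k (R × R))) ((1 : R), (0 : R)) v).1 = s v := by
  refine lin_ext (f := LinearMap.fst k R R ∘ₗ lrec _ _) (g := s.toLinearMap) ?_ ?_ v
  · simp [lrec_one]
  · intro a v hv
    simp only [LinearMap.comp_apply, LinearMap.fst_apply, AlgHom.toLinearMap_apply] at hv ⊢
    rw [lrec_mul, map_mul, ← hv]; rfl

theorem oder_gen {R : Type} [Ring R] [Algebra k R] (s : W k X →ₐ[k] R) (g : Option X → R) (a : Option X)
    (v : W k X) : oder s g (ι k a * v) = g a * s v + s (pr (ι k a)) * oder s g v := by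
  simp only [oder, LinearMap.comp_apply, LinearMap.snd_apply]
  rw [lrec_mul, ← oder_mul_aux s g v]; rfl

theorem oder_ι {R : Type} [Ring R] [Algebra k R] (s : W k X →ₐ[k] R) (g : Option X → R) (a : Option X) :
    oder s g (ι k a) = g a := by
  have := oder_gen s g a 1
  simpa [oder_one] using this

theorem oder_mul {R : Type} [Ring R] [Algebra k R] (s : W k X →ₐ[k] R) (g : Option X → R)
    (u v : W k X) : oder s g (u * v) = oder s g u * s v + s (pr u) * oder s g v := by
  refine ind (P := fun u => oder s g (u * v) = oder s g u * s v + s (pr u) * oder s g v) ?_ ?_ ?_ ?_ u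
  · simp [oder_one]
  · intro x y hx hy; simp only [add_mul, map_add, hx, hy]; abel
  · intro c x hx; simp [hx, smul_add]
  · intro a x hx
    rw [mul_assoc, oder_gen, oder_gen, hx]
    simp only [map_mul, mul_add, add_mul, mul_assoc]; abel

/-- replace a letter by `o` -/
noncomputable def D : W k X →ₗ[k] W k X := oder (AlgHom.id k _) (fun a => match a with | none => 0 | some _ => uo k X)
/-- double a letter -/
noncomputable def nab : W k X →ₗ[k] W k X := oder (AlgHom.id k _) (fun a => match a with | none => 0 | some x => ux k x * ux k x)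
/-- delete a letter -/
noncomputable def dd : W k X →ₗ[k] W k X := oder (AlgHom.id k _) (fun a => match a with | none => 0 | some _ => 1)

@[simp] theorem D_one : D (1 : W k X) = 0 := oder_one _ _
@[simp] theorem nab_one : nab (1 : W k X) = 0 := oder_one _ _
@[simp] theorem dd_one : dd (1 : W k X) = 0 := oder_one _ _
@[simp] theorem D_o (v : W k X) : D (uo k X * v) = uo k X * D v := by simp [D, oder_gen]
@[simp] theorem D_x (x : X) (v : W k X) : D (ux k x * v) = uo k X * v - ux k x * D v := by
  simp [D, oder_gen, sub_eq_add_neg]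
@[simp] theorem nab_o (v : W k X) : nab (uo k X * v) = uo k X * nab v := by simp [nab, oder_gen]
@[simp] theorem nab_x (x : X) (v : W k X) : nab (ux k x * v) = ux k x * (ux k x * v) - ux k x * nab v := by
  simp [nab, oder_gen, sub_eq_add_neg, mul_assoc]
@[simp] theorem dd_o (v : W k X) : dd (uo k X * v) = uo k X * dd v := by simp [dd, oder_gen]
@[simp] theorem dd_x (x : X) (v : W k X) : dd (ux k x * v) = v - ux k x * dd v := by
  simp [dd, oder_gen, sub_eq_add_neg]
theorem D_mul (u v : W k X) : D (u * v) = D u * v + pr u * D v := oder_mul _ _ _ _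
theorem nab_mul (u v : W k X) : nab (u * v) = nab u * v + pr u * nab v := oder_mul _ _ _ _
theorem dd_mul (u v : W k X) : dd (u * v) = dd u * v + pr u * dd v := oder_mul _ _ _ _
@[simp] theorem D_o1 : D (uo k X) = 0 := by simpa using D_o (1 : W k X)
@[simp] theorem nab_o1 : nab (uo k X) = 0 := by simpa using nab_o (1 : W k X)
@[simp] theorem dd_o1 : dd (uo k X) = 0 := by simpa using dd_o (1 : W k X)
@[simp] theorem dd_x1 (x : X) : dd (ux k x) = 1 := by simpa using dd_x x (1 : W k X)
theorem D_mulo (v : W k X) : D (v * uo k X) = D v * uo k X := by simp [D_mul]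
theorem nab_mulo (v : W k X) : nab (v * uo k X) = nab v * uo k X := by simp [nab_mul]

theorem nab_nab (v : W k X) : nab (nab v) = 0 := by
  refine lin_ext (f := nab ∘ₗ nab) (g := 0) (by simp) ?_ v
  intro a v hv
  simp only [LinearMap.comp_apply, LinearMap.zero_apply] at hv ⊢
  cases a with
  | none => simp [hv]
  | some x => simp [hv, mul_sub]

theorem D_nab (v : W k X) : D (nab v) + nab (D v) = uo k X * v - v * uo k X := by
  refine lin_ext (f := D ∘ₗ nab + nab ∘ₗ D) (g := LinearMap.mulLeft k (uo k X) - LinearMap.mulRight k (uo k X)) (by simp) ?_ v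
  intro a v hv
  simp only [LinearMap.comp_apply, LinearMap.add_apply, LinearMap.sub_apply, LinearMap.mulLeft_apply,
    LinearMap.mulRight_apply] at hv ⊢
  have h : D (nab v) = uo k X * v - v * uo k X - nab (D v) := by rw [← hv]; abel
  cases a with
  | none => simp [h, mul_sub, mul_assoc]
  | some x => simp [h, mul_sub, mul_assoc]; abel

theorem pr_nab (v : W k X) : pr (nab v) = - nab (pr v) := by
  refine lin_ext (f := pr.toLinearMap ∘ₗ nab) (g := - (nab ∘ₗ pr.toLinearMap)) (by simp) ?_ v
  intro a v hv
  simp only [LinearMap.comp_apply, LinearMap.neg_apply, AlgHom.toLinearMap_apply] at hv ⊢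
  cases a with
  | none => simp [hv]
  | some x => simp [hv, mul_sub, mul_assoc]

/-- the algebra map with `N v = Ncal v 1` -/
noncomputable def Ncal : W k X →ₐ[k] Module.End k (W k X) :=
  lift k (fun a => match a with
    | none => LinearMap.mulRight k (uo k X)
    | some x => LinearMap.mulLeft k (ux k x) - nab)

@[simp] theorem Ncal_o : Ncal (uo k X) = LinearMap.mulRight k (uo k X) := by simp [Ncal]
@[simp] theorem Ncal_x (x : X) : Ncal (ux k x) = LinearMap.mulLeft k (ux k x) - nab := by simp [Ncal]

noncomputable def NN : W k X →ₗ[k] W k X where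
  toFun v := Ncal v 1
  map_add' := by intro x y; simp
  map_smul' := by intro c x; simp

theorem NN_def (v : W k X) : NN v = Ncal v 1 := rfl
@[simp] theorem NN_one : NN (1 : W k X) = 1 := by simp [NN_def]
@[simp] theorem NN_o (v : W k X) : NN (uo k X * v) = NN v * uo k X := by simp [NN_def]
@[simp] theorem NN_x (x : X) (v : W k X) : NN (ux k x * v) = ux k x * NN v - nab (NN v) := by simp [NN_def]

noncomputable def NHp : W k X →ₗ[k] (W k X × W k X) :=
  lrec (fun a => match a with
    | none => ((LinearMap.mulRight k (uo k X)) ∘ₗ LinearMap.fst k _ _).prod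
        ((LinearMap.mulLeft k (uo k X)) ∘ₗ LinearMap.snd k _ _ + nab ∘ₗ LinearMap.fst k _ _)
    | some x => ((LinearMap.mulLeft k (ux k x) - nab) ∘ₗ LinearMap.fst k _ _).prod
        (-(LinearMap.mulLeft k (ux k x)) ∘ₗ LinearMap.snd k _ _)) ((1 : W k X), (0 : W k X))

noncomputable def HH : W k X →ₗ[k] W k X := LinearMap.snd k _ _ ∘ₗ NHp

theorem HH_aux (v : W k X) : (NHp v).1 = NN v := by
  refine lin_ext (f := LinearMap.fst k _ _ ∘ₗ NHp) (g := NN) ?_ ?_ v
  · simp [NHp, lrec_one]
  · intro a v hv
    simp only [LinearMap.comp_apply, LinearMap.fst_apply] at hv ⊢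
    unfold NHp at hv ⊢
    rw [lrec_mul]
    cases a with
    | none => rw [NN_o, ← hv]; rfl
    | some x => rw [NN_x, ← hv]; rfl

@[simp] theorem HH_one : HH (1 : W k X) = 0 := by simp [HH, NHp, lrec_one]
@[simp] theorem HH_o (v : W k X) : HH (uo k X * v) = uo k X * HH v + nab (NN v) := by
  rw [← HH_aux v]
  simp only [HH, LinearMap.comp_apply, LinearMap.snd_apply, NHp]
  rw [lrec_mul]; rfl
@[simp] theorem HH_x (x : X) (v : W k X) : HH (ux k x * v) = - (ux k x * HH v) := by
  simp only [HH, LinearMap.comp_apply, LinearMap.snd_apply, NHp]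
  rw [lrec_mul]
  simp

theorem D_NN (v : W k X) : D (NN v) = NN (D v) := by
  refine lin_ext (f := D ∘ₗ NN) (g := NN ∘ₗ D) (by simp) ?_ v
  intro a v hv
  simp only [LinearMap.comp_apply] at hv ⊢
  cases a with
  | none => simp [D_mulo, hv]
  | some x =>
    have h := D_nab (NN v)
    have h2 : D (nab (NN v)) = uo k X * NN v - NN v * uo k X - nab (D (NN v)) := by rw [← h]; abel
    simp [h2, hv]; abel

theorem D_HH (v : W k X) : D (HH v) + HH (D v) = v - NN v := by
  refine lin_ext (f := D ∘ₗ HH + HH ∘ₗ D) (g := LinearMap.id - NN) (by simp) ?_ v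
  intro a v hv
  simp only [LinearMap.comp_apply, LinearMap.add_apply, LinearMap.sub_apply, LinearMap.id_apply] at hv ⊢
  have hv' : D (HH v) = v - NN v - HH (D v) := by rw [← hv]; abel
  cases a with
  | none =>
    have h := D_nab (NN v)
    have h2 : D (nab (NN v)) = uo k X * NN v - NN v * uo k X - nab (D (NN v)) := by rw [← h]; abel
    simp [h2, hv', D_NN, mul_sub]; abel
  | some x => simp [hv', mul_sub]; abel

theorem Ncal_nab (v : W k X) : Ncal (nab v) = 0 := by
  refine lin_ext (f := Ncal.toLinearMap ∘ₗ nab) (g := 0) (by simp) ?_ v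
  intro a v hv
  simp only [LinearMap.comp_apply, LinearMap.zero_apply, AlgHom.toLinearMap_apply] at hv ⊢
  cases a with
  | none => simp [hv]
  | some x =>
    rw [nab_x, map_sub, map_mul, map_mul, map_mul, hv, mul_zero, sub_zero, ← mul_assoc]
    have : Ncal (ux k x) * Ncal (ux k x) = (0 : Module.End k (W k X)) := by
      ext z
      simp [mul_sub, nab_nab]
    rw [this, zero_mul]

theorem Ncal_mulo (v z : W k X) : Ncal v (z * uo k X) = Ncal v z * uo k X := by
  revert z
  refine ind (P := fun v => ∀ z, Ncal v (z * uo k X) = Ncal v z * uo k X) ?_ ?_ ?_ ?_ v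
  · intro z; simp
  · intro x y hx hy z; simp [hx, hy, add_mul]
  · intro c x hx z; simp [hx]
  · intro a x hx z
    cases a with
    | none => simp [hx]
    | some x => simp [hx, nab_mulo, sub_mul, mul_assoc]

theorem Ncal_NN (v : W k X) : Ncal (NN v) = Ncal v := by
  refine lin_ext (f := Ncal.toLinearMap ∘ₗ NN) (g := Ncal.toLinearMap) (by simp) ?_ v
  intro a v hv
  simp only [LinearMap.comp_apply, AlgHom.toLinearMap_apply] at hv ⊢
  cases a with
  | none =>
    rw [NN_o, map_mul, map_mul, hv]
    ext z
    simp [Ncal_mulo]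
  | some x => rw [NN_x, map_sub, map_mul, map_mul, hv, Ncal_nab, sub_zero]

theorem Ncal_HH (v : W k X) : Ncal (HH v) = 0 := by
  refine lin_ext (f := Ncal.toLinearMap ∘ₗ HH) (g := 0) (by simp) ?_ v
  intro a v hv
  simp only [LinearMap.comp_apply, LinearMap.zero_apply, AlgHom.toLinearMap_apply] at hv ⊢
  cases a with
  | none => rw [HH_o, map_add, map_mul, hv, Ncal_nab]; simp
  | some x => rw [HH_x, map_neg, map_mul, hv]; simp

/-- `N (D z) = N (∂ z) o` -/
theorem NN_D (v : W k X) : Ncal (D v) 1 = Ncal (dd v) (uo k X) := by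
  have key : ∀ z, Ncal (D v) z = Ncal (dd v) (z * uo k X) := by
    refine ind (P := fun v => ∀ z, Ncal (D v) z = Ncal (dd v) (z * uo k X)) ?_ ?_ ?_ ?_ v
    · intro z; simp
    · intro x y hx hy z; simp [hx, hy]
    · intro c x hx z; simp [hx]
    · intro a x hx z
      cases a with
      | none => simp [hx]
      | some x => simp [hx, Ncal_mulo, sub_mul, mul_assoc]
  simpa using key 1

theorem pr_NN (v : W k X) : pr (NN v) = NN (pr v) := by
  refine lin_ext (f := pr.toLinearMap ∘ₗ NN) (g := NN ∘ₗ pr.toLinearMap) (by simp) ?_ v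
  intro a v hv
  simp only [LinearMap.comp_apply, AlgHom.toLinearMap_apply] at hv ⊢
  cases a with
  | none => simp [hv]
  | some x => simp [hv, pr_nab]; abel

theorem pr_HH (v : W k X) : pr (HH v) = - HH (pr v) := by
  refine lin_ext (f := pr.toLinearMap ∘ₗ HH) (g := - (HH ∘ₗ pr.toLinearMap)) (by simp) ?_ v
  intro a v hv
  simp only [LinearMap.comp_apply, LinearMap.neg_apply, AlgHom.toLinearMap_apply] at hv ⊢
  cases a with
  | none => simp [hv, pr_nab, pr_NN]; abel
  | some x => simp [hv]

/-- change of letters -/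
noncomputable def mp (k : Type) [CommRing k] {X Y : Type} (f : X → Y) : W k X →ₐ[k] W k Y := lift k (fun a => ι k (a.map f))

@[simp] theorem mp_o (f : X → Y) : mp k f (uo k X) = uo k Y := by simp [mp]
@[simp] theorem mp_x (f : X → Y) (x : X) : mp k f (ux k x) = ux k (f x) := by simp [mp]

theorem mp_nab (f : X → Y) (v : W k X) : nab (mp k f v) = mp k f (nab v) := by
  refine lin_ext (f := nab ∘ₗ (mp k f).toLinearMap) (g := (mp k f).toLinearMap ∘ₗ nab) (by simp) ?_ v
  intro a v hv
  simp only [LinearMap.comp_apply, AlgHom.toLinearMap_apply] at hv ⊢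
  cases a <;> simp [hv]

theorem mp_NN (f : X → Y) (v : W k X) : NN (mp k f v) = mp k f (NN v) := by
  refine lin_ext (f := NN ∘ₗ (mp k f).toLinearMap) (g := (mp k f).toLinearMap ∘ₗ NN) (by simp) ?_ v
  intro a v hv
  simp only [LinearMap.comp_apply, AlgHom.toLinearMap_apply] at hv ⊢
  cases a <;> simp [hv, mp_nab]

theorem mp_HH (f : X → Y) (v : W k X) : HH (mp k f v) = mp k f (HH v) := by
  refine lin_ext (f := HH ∘ₗ (mp k f).toLinearMap) (g := (mp k f).toLinearMap ∘ₗ HH) (by simp) ?_ v
  intro a v hv
  simp only [LinearMap.comp_apply, AlgHom.toLinearMap_apply] at hv ⊢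
  cases a <;> simp [hv, mp_nab, mp_NN]

end

end Pool.Agent.H168R3
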