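import Pool.Agent.H168R3.Valid1

/-! The typed chains are alternating sums of images of the untyped chains. -/

namespace Pool.Agent.H168R3

open FreeAlgebra

theorem sum_powerset_union {M : Type} [AddCommMonoid M] {A B : Finset ℕ} (hB : B ⊆ A) (g : Finset ℕ → M) :
    ∑ S ∈ A.powerset, g S = ∑ S1 ∈ B.powerset, ∑ S2 ∈ (A \ B).powerset, g (S1 ∪ S2) := by
  rw [← Finset.sum_product' B.powerset (A \ B).powerset (fun S1 S2 => g (S1 ∪ S2))]
  symm
  refine Finset.sum_nbij' (fun x => x.1 ∪ x.2) (fun S => (S ∩ B, S \ B)) ?_ ?_ ?_ ?_ ?_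
  · rintro ⟨S1, S2⟩ h
    simp only [Finset.mem_product, Finset.mem_powerset] at h ⊢
    exact Finset.union_subset (h.1.trans hB) (h.2.trans Finset.sdiff_subset)
  · intro S h
    simp only [Finset.mem_product, Finset.mem_powerset] at h ⊢
    exact ⟨Finset.inter_subset_right, Finset.sdiff_subset_sdiff h (Finset.Subset.refl _)⟩
  · rintro ⟨S1, S2⟩ h
    simp only [Finset.mem_product, Finset.mem_powerset] at h
    have h1 := h.1
    have h2 := h.2
    ext x
    · simp only [Finset.mem_inter, Finset.mem_union]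
      constructor
      · rintro ⟨h3 | h3, h4⟩
        · exact h3
        · exact absurd h4 (Finset.mem_sdiff.1 (h2 h3)).2
      · intro h3; exact ⟨Or.inl h3, h1 h3⟩
    · simp only [Finset.mem_sdiff, Finset.mem_union]
      constructor
      · rintro ⟨h3 | h3, h4⟩
        · exact absurd (h1 h3) h4
        · exact h3
      · intro h3; exact ⟨Or.inr h3, (Finset.mem_sdiff.1 (h2 h3)).2⟩
  · intro S _
    ext x
    simp only [Finset.mem_union, Finset.mem_inter, Finset.mem_sdiff]
    tauto
  · intro x _; rfl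

section
variable {k : Type} [CommRing k] {X Y : Type}

theorem mp_ins (f : X → Y) (l t r v : W k X) :
    ∀ i j, mp k f (ins l t r v i j) = ins (mp k f l) (mp k f t) (mp k f r) (mp k f v) i j := by
  refine ind (P := fun v => ∀ i j, mp k f (ins l t r v i j) = ins (mp k f l) (mp k f t) (mp k f r) (mp k f v) i j)
    ?_ ?_ ?_ ?_ v
  · intro i j
    rw [map_one, map_one, map_one, Matrix.one_apply, Matrix.one_apply]
    split_ifs
    · exact map_one _
    · exact map_zero _
  · intro x y hx hy i j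
    simp only [map_add, Matrix.add_apply, hx i j, hy i j]
  · intro c x hx i j
    simp only [map_smul, Matrix.smul_apply, hx i j]
  · intro a x hx i j
    rw [map_mul, map_mul, map_mul, Matrix.mul_apply, Matrix.mul_apply, map_sum]
    apply Finset.sum_congr rfl
    intro m _
    rw [map_mul, hx]
    congr 1
    cases a with
    | none =>
      change mp k f (ins l t r (uo k X) i m) = ins (mp k f l) (mp k f t) (mp k f r) (mp k f (uo k X)) i m
      rw [mp_o, ins_o, ins_o]
      fin_cases i <;> fin_cases m <;> simp [Tm]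
    | some y =>
      change mp k f (ins l t r (ux k y) i m) = ins (mp k f l) (mp k f t) (mp k f r) (mp k f (ux k y)) i m
      rw [mp_x, ins_x, ins_x, diag4, diag4]
      fin_cases i <;> fin_cases m <;> simp

theorem mp_Psi (f : X → Y) (l t r : W k X) (K : ℕ) (v : W k X) :
    mp k f (Psi l t r K v) = Psi (mp k f l) (mp k f t) (mp k f r) K (mp k f v) := by
  have : mp k f (uo k X ^ K * v * uo k X ^ K) = uo k Y ^ K * mp k f v * uo k Y ^ K := by
    rw [map_mul, map_mul, map_pow, mp_o]
  rw [Psi_def, Psi_def, mp_ins, this]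

theorem ins_lin (l t t' r v : W k X) : ins l t r v 2 3 = ins l t' r v 2 3 ∧
    ins l (t - t') r v 2 3 = ins l t r v 2 3 ∧
    ins l (t - t') r v 1 3 = ins l t r v 1 3 - ins l t' r v 1 3 ∧
    ins l (t - t') r v 0 3 = ins l t r v 0 3 - ins l t' r v 0 3 := by
  refine ind (P := fun v => ins l t r v 2 3 = ins l t' r v 2 3 ∧
    ins l (t - t') r v 2 3 = ins l t r v 2 3 ∧
    ins l (t - t') r v 1 3 = ins l t r v 1 3 - ins l t' r v 1 3 ∧
    ins l (t - t') r v 0 3 = ins l t r v 0 3 - ins l t' r v 0 3) ?_ ?_ ?_ ?_ v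
  · simp only [map_one]
    simp [Matrix.one_apply]
  · rintro x y ⟨a1, a2, a3, a4⟩ ⟨b1, b2, b3, b4⟩
    simp only [map_add, Matrix.add_apply]
    refine ⟨by rw [a1, b1], by rw [a2, b2], by rw [a3, b3]; abel, by rw [a4, b4]; abel⟩
  · rintro c x ⟨a1, a2, a3, a4⟩
    simp only [map_smul, Matrix.smul_apply]
    refine ⟨by rw [a1], by rw [a2], by rw [a3, smul_sub], by rw [a4, smul_sub]⟩
  · rintro a x ⟨a1, a2, a3, a4⟩
    cases a with
    | none =>
      change ins l t r (uo k X * x) 2 3 = ins l t' r (uo k X * x) 2 3 ∧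
        ins l (t - t') r (uo k X * x) 2 3 = ins l t r (uo k X * x) 2 3 ∧
        ins l (t - t') r (uo k X * x) 1 3 = ins l t r (uo k X * x) 1 3 - ins l t' r (uo k X * x) 1 3 ∧
        ins l (t - t') r (uo k X * x) 0 3 = ins l t r (uo k X * x) 0 3 - ins l t' r (uo k X * x) 0 3
      simp only [map_mul, ins_o, Matrix.mul_apply, Fin.sum_univ_four, ins_33]
      simp only [Tm, Matrix.of_apply, Matrix.cons_val', Matrix.cons_val_zero, Matrix.cons_val_one,
        Matrix.cons_val, zero_mul, add_zero, zero_add]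
      refine ⟨trivial, trivial, ?_, ?_⟩
      · rw [a2, ← a1]; noncomm_ring
      · rw [a4, a3]; noncomm_ring
    | some y =>
      change ins l t r (ux k y * x) 2 3 = ins l t' r (ux k y * x) 2 3 ∧
        ins l (t - t') r (ux k y * x) 2 3 = ins l t r (ux k y * x) 2 3 ∧
        ins l (t - t') r (ux k y * x) 1 3 = ins l t r (ux k y * x) 1 3 - ins l t' r (ux k y * x) 1 3 ∧
        ins l (t - t') r (ux k y * x) 0 3 = ins l t r (ux k y * x) 0 3 - ins l t' r (ux k y * x) 0 3
      simp only [map_mul, ins_x, diag4, Matrix.mul_apply, Fin.sum_univ_four, ins_33]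
      simp only [Matrix.of_apply, Matrix.cons_val', Matrix.cons_val_zero, Matrix.cons_val_one,
        Matrix.cons_val, zero_mul, add_zero, zero_add]
      refine ⟨by rw [a1], by rw [a2], by rw [a3]; noncomm_ring, by rw [a4]; noncomm_ring⟩

theorem Psi_lin (l t t' r : W k X) (K : ℕ) (v : W k X) :
    Psi l (t - t') r K v = Psi l t r K v - Psi l t' r K v := by
  rw [Psi_def, Psi_def, Psi_def]
  exact (ins_lin l t t' r _).2.2.2

theorem mp_congr {S : Set X} {f g : X → Y} (h : ∀ x ∈ S, f x = g x) {v : W k X} (hv : v ∈ U k S) :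
    mp k f v = mp k g v := by
  refine U_ind (P := fun v => mp k f v = mp k g v) ?_ ?_ ?_ ?_ ?_ v hv
  · simp
  · intro x y hx hy; rw [map_add, map_add, hx, hy]
  · intro c x hx; rw [map_smul, map_smul, hx]
  · intro v _ hv; rw [map_mul, map_mul, mp_o, mp_o, hv]
  · intro x hx v _ hv; rw [map_mul, map_mul, mp_x, mp_x, hv, h x hx]

theorem e1_mp (f : X → Y) (v : W k X) : e1 k (mp k f v) = mp k f (e1 k v) := by
  refine lin_ext (f := (e1 k).toLinearMap ∘ₗ (mp k f).toLinearMap) (g := (mp k f).toLinearMap ∘ₗ (e1 k).toLinearMap)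
    (by simp) ?_ v
  intro a v hv
  simp only [LinearMap.comp_apply, AlgHom.toLinearMap_apply] at hv ⊢
  cases a <;> simp [hv]

/-- labels in `A` -/
def hlab (A : Finset ℕ) : Set (ℕ × Fin 3) := {x | x.1 ∈ A}

theorem hlab_mono {A B : Finset ℕ} (h : A ⊆ B) : hlab A ⊆ hlab B := fun _ hx => h hx

/-- the type of an untyped letter -/
def fS (S : Finset ℕ) (x : ℕ × Fin 3) : ℕ × Bool :=
  (x.1, if x.2 = 0 then false else if x.2 = 2 then true else decide (x.1 ∈ S))

theorem fS_congr {A S S' : Finset ℕ} (h : ∀ i ∈ A, (i ∈ S ↔ i ∈ S')) : ∀ x ∈ hlab A, fS S x = fS S' x := by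
  intro x hx
  unfold fS
  simp only [h x.1 hx]

/-- alternating sum over the types of the middle letters -/
noncomputable def Phi (k : Type) [CommRing k] (A : Finset ℕ) : W k (ℕ × Fin 3) →ₗ[k] W k (ℕ × Bool) :=
  ∑ S ∈ A.powerset, ((-1 : k) ^ S.card) • (mp k (fS S)).toLinearMap

theorem Phi_apply (A : Finset ℕ) (v : W k (ℕ × Fin 3)) :
    Phi k A v = ∑ S ∈ A.powerset, ((-1 : k) ^ S.card) • mp k (fS S) v := by
  simp [Phi, LinearMap.sum_apply]

theorem Ch_mem (K : ℕ) (A : Finset ℕ) : Ch k K A ∈ U k (hlab A) := by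
  induction A using Finset.induction_on_max with
  | empty => rw [Ch_empty]; exact zero_mem _
  | insert j S h ih =>
    have h0 : ∀ c, (j, c) ∈ hlab (insert j S) := by simp [hlab]
    rw [Ch, CA_insert _ _ _ _ h]
    refine add_mem (Psi_mem (hlab_mono (Finset.subset_insert _ _)) (ux_mem (h0 _)) (ux_mem (h0 _)) (ux_mem (h0 _)) ih K) ?_
    split_ifs
    · exact neg_mem (mul_mem (mul_mem (ux_mem (h0 _)) (uo_mem _)) (mul_mem (ux_mem (h0 _)) (uo_mem _)))
    · exact zero_mem _

theorem zh_mem (K : ℕ) (A : Finset ℕ) : zh k K A ∈ U k (hlab A) := e1_mem (Ch_mem K A)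

theorem Zh_mem (K : ℕ) : ∀ A, Zh k K A ∈ U k (hlab A) := by
  refine split_ind ?_ ?_
  · rw [Zh, ZL_empty (zh_empty K)]; exact zero_mem _
  · intro A hA ih
    rw [Zh, ZL_eq (zh_empty K)]
    refine add_mem (NN_mem (zh_mem K A)) (HH_mem ?_)
    refine WL_ind (Q := fun v => v ∈ U k (hlab A)) (zh_empty K) (zero_mem _) (fun _ _ => add_mem) ?_
    intro B hB h1 h2
    obtain ⟨i1, i2⟩ := ih B hB h1 h2
    exact Subalgebra.smul_mem _ (mul_mem (mul_mem (U_mono (hlab_mono hB) i1) (uo_mem _))
      (U_mono (hlab_mono Finset.sdiff_subset) i2)) _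

theorem C_eq_Phi (K : ℕ) (A : Finset ℕ) : C k K A = Phi k A (Ch k K A) := by
  induction A using Finset.induction_on_max with
  | empty => rw [Ch_empty, map_zero]; exact CA_empty _ _ _ _
  | insert j S h ih =>
    have hj : j ∉ S := fun hj => lt_irrefl _ (h j hj)
    have e1 : C k K (insert j S) = Psi (lt k j) (tt k j) (rt k j) K (C k K S) +
        if S = ∅ then -(lt k j * uo k _ * (tt k j * uo k _)) else 0 := CA_insert _ _ _ _ h
    have e2 : Ch k K (insert j S) = Psi (ux k (j, 0)) (ux k (j, 1)) (ux k (j, 2)) K (Ch k K S) +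
        if S = ∅ then -(ux k (j, 0) * uo k _ * (ux k (j, 1) * uo k _)) else 0 := CA_insert _ _ _ _ h
    rw [e1, ih, Phi_apply, Phi_apply, Finset.sum_powerset_insert hj, ← Finset.sum_add_distrib, map_sum]
    have hl : ∀ S', mp k (fS S') (ux k (j, 0)) = lt k j := by intro S'; rw [mp_x]; simp [fS, lt]
    have hr : ∀ S', mp k (fS S') (ux k (j, 2)) = rt k j := by intro S'; rw [mp_x]; simp [fS, rt]
    have ht1 : ∀ S', j ∉ S' → mp k (fS S') (ux k (j, 1)) = lt k j := by
      intro S' hS'; rw [mp_x]; simp [fS, lt, hS']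
    have ht2 : ∀ S', mp k (fS (insert j S')) (ux k (j, 1)) = rt k j := by
      intro S'; rw [mp_x]; simp [fS, rt]
    have key : ∀ S' ∈ S.powerset, ((-1 : k) ^ S'.card) • mp k (fS S') (Ch k K (insert j S)) +
        ((-1 : k) ^ (insert j S').card) • mp k (fS (insert j S')) (Ch k K (insert j S)) =
        Psi (lt k j) (tt k j) (rt k j) K (((-1 : k) ^ S'.card) • mp k (fS S') (Ch k K S)) +
        ((-1 : k) ^ S'.card) • (if S = ∅ then -(lt k j * uo k _ * (tt k j * uo k _)) else 0) := by
      intro S' hS'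
      rw [Finset.mem_powerset] at hS'
      have hjS' : j ∉ S' := fun h => hj (hS' h)
      have hc : mp k (fS (insert j S')) (Ch k K S) = mp k (fS S') (Ch k K S) := by
        refine mp_congr (fS_congr ?_) (Ch_mem K S)
        intro i hi
        rw [Finset.mem_insert]
        constructor
        · rintro (rfl | h)
          · exact absurd hi hj
          · exact h
        · exact Or.inr
      rw [e2, map_add, map_add, mp_Psi, mp_Psi, hl, hr, ht1 S' hjS', hl, hr, ht2, hc,
        Finset.card_insert_of_notMem hjS', pow_succ, mul_neg_one, neg_smul, map_smul]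
      have hP : Psi (lt k j) (tt k j) (rt k j) K (mp k (fS S') (Ch k K S)) =
          Psi (lt k j) (lt k j) (rt k j) K (mp k (fS S') (Ch k K S)) -
          Psi (lt k j) (rt k j) (rt k j) K (mp k (fS S') (Ch k K S)) := Psi_lin _ _ _ _ _ _
      rw [hP]
      split_ifs with hS
      · simp only [map_neg, map_mul, mp_o, hl, ht1 S' hjS', ht2, smul_add, smul_sub, smul_neg]
        have : tt k j = lt k j - rt k j := rfl
        rw [this, sub_mul, mul_sub, smul_sub]
        abel
      · simp only [map_zero, smul_add, smul_sub, smul_zero]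
        abel
    rw [Finset.sum_congr rfl key, Finset.sum_add_distrib]
    congr 1
    by_cases hS : S = ∅
    · subst hS; simp
    · simp [hS]

theorem zz_eq_Phi (K : ℕ) (A : Finset ℕ) : zz k K A = Phi k A (zh k K A) := by
  rw [zz, C_eq_Phi, Phi_apply, map_sum, Phi_apply, zh]
  apply Finset.sum_congr rfl
  intro S _
  rw [map_smul, e1_mp]

theorem NN_Phi (A : Finset ℕ) (v : W k (ℕ × Fin 3)) : NN (Phi k A v) = Phi k A (NN v) := by
  rw [Phi_apply, map_sum, Phi_apply]
  apply Finset.sum_congr rfl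
  intro S _
  rw [map_smul, mp_NN]

theorem HH_Phi (A : Finset ℕ) (v : W k (ℕ × Fin 3)) : HH (Phi k A v) = Phi k A (HH v) := by
  rw [Phi_apply, map_sum, Phi_apply]
  apply Finset.sum_congr rfl
  intro S _
  rw [map_smul, mp_HH]

theorem Phi_mul {A B : Finset ℕ} (hB : B ⊆ A) {u v : W k (ℕ × Fin 3)} (hu : u ∈ U k (hlab B))
    (hv : v ∈ U k (hlab (A \ B))) : Phi k A (u * uo k _ * v) = Phi k B u * uo k _ * Phi k (A \ B) v := by
  rw [Phi_apply, sum_powerset_union hB, Phi_apply, Phi_apply, Finset.sum_mul, Finset.sum_mul]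
  apply Finset.sum_congr rfl
  intro S1 hS1
  rw [Finset.mul_sum]
  apply Finset.sum_congr rfl
  intro S2 hS2
  rw [Finset.mem_powerset] at hS1 hS2
  have hd : Disjoint S1 S2 := by
    rw [Finset.disjoint_left]
    intro x h1 h2
    exact (Finset.mem_sdiff.1 (hS2 h2)).2 (hS1 h1)
  have e1 : mp k (fS (S1 ∪ S2)) u = mp k (fS S1) u := by
    refine mp_congr (fS_congr ?_) hu
    intro i hi
    rw [Finset.mem_union]
    constructor
    · rintro (h | h)
      · exact h
      · exact absurd hi (Finset.mem_sdiff.1 (hS2 h)).2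
    · exact Or.inl
  have e2 : mp k (fS (S1 ∪ S2)) v = mp k (fS S2) v := by
    refine mp_congr (fS_congr ?_) hv
    intro i hi
    rw [Finset.mem_union]
    constructor
    · rintro (h | h)
      · exact absurd (hS1 h) (Finset.mem_sdiff.1 hi).2
      · exact h
    · exact Or.inr
  rw [map_mul, map_mul, e1, e2, mp_o, Finset.card_union_of_disjoint hd, pow_add]
  rw [smul_mul_assoc, smul_mul_assoc, mul_smul_comm, smul_smul]

theorem Z_eq_Phi (K : ℕ) : ∀ A, Z k K A = Phi k A (Zh k K A) := by
  refine split_ind ?_ ?_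
  · rw [Z_empty, Zh, ZL_empty (zh_empty K), map_zero]
  · intro A hA ih
    rw [Z_eq, Zh, ZL_eq (zh_empty K), map_add, ← NN_Phi, ← zz_eq_Phi, ← HH_Phi]
    congr 2
    rw [WW_def, WL, map_sum]
    apply Finset.sum_congr rfl
    intro B hB
    rw [Finset.mem_powerset] at hB
    rw [map_smul]
    congr 1
    have hZ0 : ZL (zh k K) ∅ = 0 := ZL_empty (zh_empty K)
    by_cases h1 : B = ∅
    · rw [h1, Z_empty, hZ0]; simp
    by_cases h2 : B = A
    · rw [h2, Finset.sdiff_self, Z_empty, hZ0]; simp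
    obtain ⟨i1, i2⟩ := ih B hB h1 h2
    rw [i1, i2]
    exact (Phi_mul hB (Zh_mem K B) (Zh_mem K (A \ B))).symm

end

end Pool.Agent.H168R3
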