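import Pool.Agent.H168R3.Ops

/-! The insertion maps. -/

namespace Pool.Agent.H168R3

open FreeAlgebra

section
variable {k : Type} [CommRing k] {X Y : Type}

/-- the matrix of a tick -/
def Tm (l t r : W k X) : Matrix (Fin 4) (Fin 4) (W k X) :=
  !![uo k X, l * uo k X, 0, 0; 0, 0, t * uo k X, 0; 0, 0, 0, r * uo k X; 0, 0, 0, uo k X]

/-- insertion -/
noncomputable def ins (l t r : W k X) : W k X →ₐ[k] Matrix (Fin 4) (Fin 4) (W k X) :=
  lift k (fun a => match a with
    | none => Tm l t r
    | some x => Matrix.diagonal ![ux k x, - ux k x, ux k x, - ux k x])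

variable {l t r : W k X}

@[simp] theorem ins_o : ins l t r (uo k X) = Tm l t r := by simp [ins]
@[simp] theorem ins_x (x : X) : ins l t r (ux k x) = Matrix.diagonal ![ux k x, - ux k x, ux k x, - ux k x] := by
  simp [ins]

theorem diag4 {R : Type} [Ring R] (a b c d : R) : Matrix.diagonal ![a, b, c, d] =
    !![a, 0, 0, 0; 0, b, 0, 0; 0, 0, c, 0; 0, 0, 0, d] := by
  ext i j
  fin_cases i <;> fin_cases j <;> simp [Matrix.diagonal]

theorem ins_low (v : W k X) : ∀ i j : Fin 4, j < i → ins l t r v i j = 0 := by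
  refine ind (P := fun v => ∀ i j : Fin 4, j < i → ins l t r v i j = 0) ?_ ?_ ?_ ?_ v
  · intro i j h; rw [map_one, Matrix.one_apply_ne (ne_of_gt h)]
  · intro x y hx hy i j h; rw [map_add, Matrix.add_apply, hx i j h, hy i j h, add_zero]
  · intro c x hx i j h; rw [map_smul, Matrix.smul_apply, hx i j h, smul_zero]
  · intro a x hx i j h
    rw [map_mul, Matrix.mul_apply]
    apply Finset.sum_eq_zero
    intro m _
    by_cases hm : j < m
    · rw [hx m j hm, mul_zero]
    · have hm' : m < i := lt_of_le_of_lt (not_lt.1 hm) h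
      have : ins l t r (ι k a) i m = 0 := by
        cases a with
        | none =>
          change ins l t r (uo k X) i m = 0
          rw [ins_o]
          fin_cases i <;> fin_cases m <;> simp [Tm] at hm' ⊢
        | some y =>
          change ins l t r (ux k y) i m = 0
          rw [ins_x, Matrix.diagonal_apply_ne _ (ne_of_gt hm')]
      rw [this, zero_mul]

theorem ins_00 (v : W k X) : ins l t r v 0 0 = v := by
  refine ind (P := fun v => ins l t r v 0 0 = v) ?_ ?_ ?_ ?_ v
  · simp
  · intro x y hx hy; simp [hx, hy]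
  · intro c x hx; simp [hx]
  · intro a x hx
    rw [map_mul, Matrix.mul_apply, Fin.sum_univ_four, hx, ins_low x 1 0 (by decide),
      ins_low x 2 0 (by decide), ins_low x 3 0 (by decide)]
    cases a with
    | none => simp [Tm]
    | some y => simp

theorem ins_33 (v : W k X) : ins l t r v 3 3 = pr v := by
  refine ind (P := fun v => ins l t r v 3 3 = pr v) ?_ ?_ ?_ ?_ v
  · simp
  · intro x y hx hy; simp [hx, hy]
  · intro c x hx; simp [hx]
  · intro a x hx
    rw [map_mul, Matrix.mul_apply, Fin.sum_univ_four, hx, ins_low _ 3 0 (by decide),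
      ins_low _ 3 1 (by decide), ins_low _ 3 2 (by decide)]
    cases a with
    | none => simp [Tm]
    | some y => simp

theorem Tm_pow (m : ℕ) : (∀ j, j ≠ 3 → (Tm l t r ^ (m + 2)) 1 j = 0 ∧ (Tm l t r ^ (m + 2)) 2 j = 0 ∧
      (Tm l t r ^ (m + 2)) 3 j = 0) ∧
    (Tm l t r ^ (m + 2)) 1 3 = (Tm l t r ^ 2) 1 3 * uo k X ^ m ∧
    (Tm l t r ^ (m + 2)) 2 3 = (Tm l t r ^ 2) 2 3 * uo k X ^ m ∧
    (Tm l t r ^ (m + 2)) 3 3 = (Tm l t r ^ 2) 3 3 * uo k X ^ m ∧
    (Tm l t r ^ (m + 2)) 0 2 = uo k X ^ m * (Tm l t r ^ 2) 0 2 := by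
  induction m with
  | zero =>
    refine ⟨?_, by simp, by simp, by simp, by simp⟩
    intro j hj
    fin_cases j <;> simp [pow_two, Matrix.mul_apply, Fin.sum_univ_four, Tm] at hj ⊢
  | succ m ih =>
    obtain ⟨h1, h2, h3, h4, h5⟩ := ih
    have e : m + 1 + 2 = (m + 2) + 1 := by ring
    rw [e]
    refine ⟨?_, ?_, ?_, ?_, ?_⟩
    · intro j hj
      rw [pow_succ]
      simp only [Matrix.mul_apply, Fin.sum_univ_four]
      rw [(h1 0 (by decide)).1, (h1 1 (by decide)).1, (h1 2 (by decide)).1, (h1 0 (by decide)).2.1,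
        (h1 1 (by decide)).2.1, (h1 2 (by decide)).2.1, (h1 0 (by decide)).2.2,
        (h1 1 (by decide)).2.2, (h1 2 (by decide)).2.2]
      have : Tm l t r 3 j = 0 := by
        fin_cases j <;> simp [Tm] at hj ⊢
      simp [this]
    · rw [pow_succ]
      simp only [Matrix.mul_apply, Fin.sum_univ_four]
      rw [(h1 0 (by decide)).1, (h1 1 (by decide)).1, (h1 2 (by decide)).1, h2]
      simp [Tm, pow_succ, mul_assoc]
    · rw [pow_succ]
      simp only [Matrix.mul_apply, Fin.sum_univ_four]
      rw [(h1 0 (by decide)).2.1, (h1 1 (by decide)).2.1, (h1 2 (by decide)).2.1, h3]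
      simp [Tm, pow_succ, mul_assoc]
    · rw [pow_succ]
      simp only [Matrix.mul_apply, Fin.sum_univ_four]
      rw [(h1 0 (by decide)).2.2, (h1 1 (by decide)).2.2, (h1 2 (by decide)).2.2, h4]
      simp [Tm, pow_succ, mul_assoc]
    · rw [pow_succ']
      simp only [Matrix.mul_apply, Fin.sum_univ_four]
      rw [(h1 2 (by decide)).1, (h1 2 (by decide)).2.1, (h1 2 (by decide)).2.2, h5]
      simp [Tm, pow_succ', mul_assoc]

theorem Tm2 : (Tm l t r ^ 2) 0 3 = 0 ∧ (Tm l t r ^ 2) 1 3 = t * uo k X * (r * uo k X) ∧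
    (Tm l t r ^ 2) 0 2 = l * uo k X * (t * uo k X) := by
  refine ⟨?_, ?_, ?_⟩ <;> simp [pow_two, Matrix.mul_apply, Fin.sum_univ_four, Tm]

/-- the insertion operator -/
noncomputable def Psi (l t r : W k X) (K : ℕ) : W k X →ₗ[k] W k X where
  toFun C := ins l t r (uo k X ^ K * C * uo k X ^ K) 0 3
  map_add' := by intro x y; simp [mul_add, add_mul]
  map_smul' := by intro c x; simp

theorem Psi_def (l t r : W k X) (K : ℕ) (C : W k X) :
    Psi l t r K C = ins l t r (uo k X ^ K * C * uo k X ^ K) 0 3 := rfl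

/-- `φ` is nilpotently close to a map sending the tick to an idempotent -/
def Good {R : Type} [Ring R] [Algebra k R] (φ : W k X →ₐ[k] R) (N : ℕ) : Prop :=
  ∃ Fl : ℕ → AddSubgroup R, (∀ i j, i ≤ j → Fl j ≤ Fl i) ∧
    (∀ i j a b, a ∈ Fl i → b ∈ Fl j → a * b ∈ Fl (i + j)) ∧
    (∀ v, φ v ∈ Fl 0) ∧ (φ (uo k X) * φ (uo k X) - φ (uo k X) ∈ Fl 1) ∧ Fl N = ⊥

theorem goodIns {R : Type} [Ring R] [Algebra k R] {φ : W k X →ₐ[k] R} {N : ℕ} (h : Good φ N)
    (l t r : W k X) : Good (φ.mapMatrix.comp (ins l t r)) (N + 3) := by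
  obtain ⟨Fl, hanti, hmul, h0, h1, hN⟩ := h
  refine ⟨fun a =>
    { carrier := {M | ∀ i j : Fin 4, (j < i → M i j = 0) ∧ (i ≤ j → M i j ∈ Fl (a - (j.1 - i.1)))}
      zero_mem' := by intro i j; exact ⟨fun _ => rfl, fun _ => (Fl _).zero_mem⟩
      add_mem' := by
        intro M M' hM hM' i j
        refine ⟨fun h => ?_, fun h => ?_⟩
        · rw [Matrix.add_apply, (hM i j).1 h, (hM' i j).1 h, add_zero]
        · exact (Fl _).add_mem ((hM i j).2 h) ((hM' i j).2 h)
      neg_mem' := by
        intro M hM i j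
        refine ⟨fun h => ?_, fun h => ?_⟩
        · rw [Matrix.neg_apply, (hM i j).1 h, neg_zero]
        · exact (Fl _).neg_mem ((hM i j).2 h) }, ?_, ?_, ?_, ?_, ?_⟩
  · intro a b hab M hM i j
    exact ⟨(hM i j).1, fun h => hanti _ _ (by omega) ((hM i j).2 h)⟩
  · intro a b M M' hM hM' i j
    refine ⟨fun h => ?_, fun h => ?_⟩
    · rw [Matrix.mul_apply]
      apply Finset.sum_eq_zero
      intro m _
      by_cases hm : j < m
      · rw [(hM' m j).1 hm, mul_zero]
      · rw [(hM i m).1 (lt_of_le_of_lt (not_lt.1 hm) h), zero_mul]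
    · rw [Matrix.mul_apply]
      apply AddSubgroup.sum_mem
      intro m _
      by_cases hm : j < m
      · rw [(hM' m j).1 hm, mul_zero]; exact (Fl _).zero_mem
      · by_cases hm' : m < i
        · rw [(hM i m).1 hm', zero_mul]; exact (Fl _).zero_mem
        · have h2 : i ≤ m := not_lt.1 hm'
          have h3 : m ≤ j := not_lt.1 hm
          refine hanti _ _ ?_ (hmul _ _ _ _ ((hM i m).2 h2) ((hM' m j).2 h3))
          have : i.1 ≤ m.1 := h2
          have : m.1 ≤ j.1 := h3
          omega
  · intro v i j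
    refine ⟨fun h => ?_, fun _ => ?_⟩
    · simp [ins_low v i j h]
    · simpa using h0 (ins l t r v i j)
  · intro i j
    have e : (φ.mapMatrix.comp (Pool.Agent.H168R3.ins l t r)) (uo k X) * (φ.mapMatrix.comp (Pool.Agent.H168R3.ins l t r)) (uo k X) -
        (φ.mapMatrix.comp (Pool.Agent.H168R3.ins l t r)) (uo k X) =
        (φ.mapMatrix.comp (Pool.Agent.H168R3.ins l t r)) (uo k X * uo k X - uo k X) := by
      simp only [map_sub, map_mul]
    rw [e]
    refine ⟨fun h => ?_, fun h => ?_⟩
    · change φ (Pool.Agent.H168R3.ins l t r (uo k X * uo k X - uo k X) i j) = 0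
      rw [ins_low _ i j h, map_zero]
    · rcases eq_or_lt_of_le h with rfl | hlt
      · have : (φ.mapMatrix.comp (Pool.Agent.H168R3.ins l t r)) (uo k X * uo k X - uo k X) i i =
            φ (Pool.Agent.H168R3.ins l t r (uo k X * uo k X - uo k X) i i) := rfl
        rw [this]
        have h00 := (Fl 1).zero_mem
        fin_cases i <;> simp [Matrix.mul_apply, Fin.sum_univ_four, Tm] <;> first | exact h1 | exact h00
      · refine hanti _ _ ?_ (h0 (Pool.Agent.H168R3.ins l t r (uo k X * uo k X - uo k X) i j))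
        have : i.1 < j.1 := hlt
        omega
  · rw [eq_bot_iff]
    intro M hM
    simp only [AddSubgroup.mem_bot]
    ext i j
    by_cases h : j < i
    · exact (hM i j).1 h
    · have h2 := (hM i j).2 (not_lt.1 h)
      have h3 := hanti N (N + 3 - (j.1 - i.1)) (by omega) h2
      rw [hN, AddSubgroup.mem_bot] at h3
      exact h3

/-- the derivative of the insertion map -/
noncomputable def Lam (l t r : W k X) : W k X →ₗ[k] Matrix (Fin 4) (Fin 4) (W k X) :=
  oder (ins l t r) (fun a => match a with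
    | none => !![0, 0, -(r * uo k X), 0; 0, 0, 0, l * uo k X; 0, 0, 0, 0; 0, 0, 0, 0]
    | some _ => 0)

def Ym : Matrix (Fin 4) (Fin 4) (W k X) := !![0, 1, 0, 0; 0, 0, 1, 0; 0, 0, 0, -1; 0, 0, 0, 0]
def gam : Matrix (Fin 4) (Fin 4) (W k X) := Matrix.diagonal ![1, -1, 1, -1]

theorem map_dd_mul (M M' : Matrix (Fin 4) (Fin 4) (W k X)) :
    (M * M').map dd = M.map dd * M' + M.map pr * M'.map dd := by
  ext i j
  simp [Matrix.mul_apply, dd_mul, Finset.sum_add_distrib, map_sum]

theorem gam_pr_Tm (hl : pr l = -l) (ht : pr t = -t) (hr : pr r = -r) :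
    gam * (Tm l t r).map pr = Tm l t r * gam := by
  ext i j
  fin_cases i <;> fin_cases j <;>
    simp [gam, Tm, Matrix.mul_apply, Fin.sum_univ_four, hl, ht, hr, Matrix.diagonal]

theorem deriv_ins (hl : pr l = -l) (ht : pr t = -t) (hr : pr r = -r) (dl : dd l = 1)
    (dt : dd t = 0) (dr : dd r = 1) (hlt : l - t = r) (v : W k X) :
    gam * (ins l t r v).map dd = ins l t r (dd v) + ins l t r (pr v) * Ym - Ym * ins l t r v
      + Lam l t r v := by
  have htr : t + r = l := by rw [← hlt]; abel
  refine ind (P := fun v => gam * (ins l t r v).map dd = ins l t r (dd v) + ins l t r (pr v) * Ym - Ym * ins l t r v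
      + Lam l t r v) ?_ ?_ ?_ ?_ v
  · have : ((1 : Matrix (Fin 4) (Fin 4) (W k X)).map dd) = 0 := by
      ext i j
      by_cases h : i = j
      · subst h; simp
      · simp [Matrix.one_apply_ne h]
    simp [Lam, oder_one, this]
  · intro x y hx hy
    have : ((ins l t r (x + y)).map dd) = (ins l t r x).map dd + (ins l t r y).map dd := by
      ext i j; simp
    rw [this, mul_add, hx, hy]
    simp only [map_add, add_mul, mul_add]; abel
  · intro c x hx
    have : ((ins l t r (c • x)).map dd) = c • (ins l t r x).map dd := by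
      ext i j; simp
    rw [this, Matrix.mul_smul, hx]
    simp only [map_smul, smul_add, smul_sub, Matrix.smul_mul, Matrix.mul_smul]
  · intro a x hx
    rw [map_mul, map_dd_mul, mul_add, ← mul_assoc, ← mul_assoc]
    have hx' := hx
    have h1 : gam * (ins l t r (ι k a)).map pr = ins l t r (pr (ι k a)) * gam := by
      cases a with
      | none =>
        change gam * (ins l t r (uo k X)).map pr = ins l t r (pr (uo k X)) * gam
        rw [pr_o, ins_o, gam_pr_Tm hl ht hr]
      | some y =>
        change gam * (ins l t r (ux k y)).map pr = ins l t r (pr (ux k y)) * gam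
        rw [pr_x, map_neg, ins_x]
        ext i j
        fin_cases i <;> fin_cases j <;>
          simp [gam, Matrix.mul_apply, Fin.sum_univ_four, Matrix.diagonal]
    rw [h1, mul_assoc (ins l t r (pr (ι k a))) gam, hx]
    have h2 : gam * (ins l t r (ι k a)).map dd = ins l t r (dd (ι k a)) + ins l t r (pr (ι k a)) * Ym
        - Ym * ins l t r (ι k a) + Lam l t r (ι k a) := by
      cases a with
      | none =>
        change gam * (ins l t r (uo k X)).map dd = ins l t r (dd (uo k X)) + ins l t r (pr (uo k X)) * Ym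
          - Ym * ins l t r (uo k X) + Lam l t r (uo k X)
        rw [pr_o, ins_o, dd_o1, map_zero, Lam, oder_ι]
        ext i j
        fin_cases i <;> fin_cases j <;>
          simp [gam, Ym, Tm, Matrix.mul_apply, Fin.sum_univ_four, Matrix.diagonal, dd_mul, dl, dt, dr]
        · rw [← hlt, sub_mul]; abel
        · rw [← htr, add_mul]; abel
      | some y =>
        change gam * (ins l t r (ux k y)).map dd = ins l t r (dd (ux k y)) + ins l t r (pr (ux k y)) * Ym
          - Ym * ins l t r (ux k y) + Lam l t r (ux k y)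
        rw [pr_x, map_neg, ins_x, dd_x1, map_one, Lam, oder_ι, gam, diag4, diag4]
        ext i j
        fin_cases i <;> fin_cases j <;>
          simp [Ym, Matrix.mul_apply, Fin.sum_univ_four]
    rw [h2]
    have h3 : Lam l t r (ι k a * x) = Lam l t r (ι k a) * ins l t r x + ins l t r (pr (ι k a)) * Lam l t r x :=
      oder_mul _ _ _ _
    rw [h3, dd_mul]
    simp only [map_add, map_mul, add_mul, sub_mul, mul_add, mul_sub, mul_assoc]
    abel

end

end Pool.Agent.H168R3
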