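import Pool.Agent.H168R3.Tower

/-! Splitting formula, subalgebras of words with restricted letters. -/

namespace Pool.Agent.H168R3

open FreeAlgebra

section
variable {p : ℕ} [Fact p.Prime] {X : Type}

theorem good_pow {R : Type} [Ring R] [Algebra (ZMod p) R] {φ : W (ZMod p) X →ₐ[ZMod p] R} {N : ℕ}
    (h : Good φ N) {a L : ℕ} (ha : N ≤ a) (hK : N ≤ p ^ L) :
    φ (uo _ X) ^ a * φ (uo _ X) ^ (p ^ L) = φ (uo _ X) ^ a := by
  obtain ⟨Fl, hanti, hmul, h0, h1, hN⟩ := h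
  set V := φ (uo (ZMod p) X) with hV
  have hν : ∀ m, (V * V - V) ^ m ∈ Fl m := by
    intro m
    induction m with
    | zero => rw [pow_zero]; simpa using h0 1
    | succ m ih => rw [pow_succ]; exact hmul _ _ _ _ ih h1
  have hz : (V * V - V) ^ N = 0 := by
    have := hν N
    rwa [hN, AddSubgroup.mem_bot] at this
  have poly : (Polynomial.X : Polynomial (ZMod p)) ^ a * Polynomial.X ^ (p ^ L) = Polynomial.X ^ a +
      Polynomial.X ^ (a - N) * (Polynomial.X * Polynomial.X - Polynomial.X) ^ N *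
        (Polynomial.X - 1) ^ (p ^ L - N) := by
    have h1 : (Polynomial.X - 1 : Polynomial (ZMod p)) ^ (p ^ L) = Polynomial.X ^ (p ^ L) - 1 := by
      rw [sub_pow_char_pow]; simp
    have h2 : (Polynomial.X - 1 : Polynomial (ZMod p)) ^ (p ^ L) =
        (Polynomial.X - 1) ^ N * (Polynomial.X - 1) ^ (p ^ L - N) := by
      rw [← pow_add]; congr 1; omega
    have h3 : (Polynomial.X : Polynomial (ZMod p)) ^ a = Polynomial.X ^ (a - N) * Polynomial.X ^ N := by
      rw [← pow_add]; congr 1; omega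
    have h4 : (Polynomial.X * Polynomial.X - Polynomial.X : Polynomial (ZMod p)) ^ N =
        Polynomial.X ^ N * (Polynomial.X - 1) ^ N := by
      rw [← mul_pow]; congr 1; ring
    rw [h4]
    have h5 : Polynomial.X ^ (a - N) * (Polynomial.X ^ N * (Polynomial.X - 1 : Polynomial (ZMod p)) ^ N) *
        (Polynomial.X - 1) ^ (p ^ L - N) = Polynomial.X ^ a * (Polynomial.X - 1) ^ (p ^ L) := by
      rw [h2, h3]; ring
    rw [h5, h1]; ring
  have := congrArg (Polynomial.aeval V) poly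
  simpa [hz] using this

theorem splitting {R : Type} [Ring R] [Algebra (ZMod p) R] {φ : W (ZMod p) X →ₐ[ZMod p] R} {N : ℕ}
    (h : Good φ N) (L : ℕ) (hK : N + 5 ≤ p ^ L) (l t r u v : W (ZMod p) X) :
    φ (Psi l t r (p ^ L) (u * uo _ X ^ (p ^ L - 2) * v)) =
      φ (uo _ X) ^ (p ^ L) * (φ u * φ (uo _ X) ^ (p ^ L - 2) * φ (Psi l t r (p ^ L) v)) +
      (φ (Psi l t r (p ^ L) u) * φ (uo _ X) ^ (p ^ L - 2) * φ (pr v)) * φ (uo _ X) ^ (p ^ L) := by
  set K := p ^ L with hKdef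
  set q := uo (ZMod p) X with hq
  have hT := good_pow (goodIns h l t r) (a := K - 2) (L := L) (by omega) (by omega)
  set ψ := φ.mapMatrix.comp (ins l t r) with hψd
  have hψ : ∀ v i j, ψ v i j = φ (ins l t r v i j) := fun _ _ _ => rfl
  have e1 : ψ (q ^ K * (u * q ^ (K - 2) * v) * q ^ K) = ψ (q ^ K * u * q ^ (K - 2)) * (ψ (q ^ K) * ψ (v * q ^ K)) := by
    simp only [map_mul, map_pow]
    calc _ = ψ q ^ K * (ψ u * (ψ q ^ (K - 2) * ψ q ^ K) * ψ v) * ψ q ^ K := by rw [hT]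
      _ = _ := by simp only [mul_assoc]
  have hKe : K - 2 + 2 = K := by omega
  have hTK : ins l t r (q ^ K) = Tm l t r ^ (K - 2 + 2) := by rw [map_pow, hq, ins_o, hKe]
  obtain ⟨p1, p2, p3, p4, p5⟩ := Tm_pow (l := l) (t := t) (r := r) (K - 2)
  have e2 := congrFun (congrFun e1 0) 3
  rw [Matrix.mul_apply, Fin.sum_univ_four] at e2
  have i0 : (ψ (q ^ K) * ψ (v * q ^ K)) 0 3 = φ (Psi l t r K v) := by
    rw [← map_mul, hψ, Psi_def, mul_assoc]
  have i1 : (ψ (q ^ K) * ψ (v * q ^ K)) 1 3 = φ ((Tm l t r ^ 2) 1 3) * (φ q ^ (K - 2) * φ (pr v) * φ q ^ K) := by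
    rw [Matrix.mul_apply, Fin.sum_univ_four]
    simp only [hψ, hTK]
    rw [(p1 0 (by decide)).1, (p1 1 (by decide)).1, (p1 2 (by decide)).1, p2, ins_33]
    simp [hq, mul_assoc]
  have i2 : (ψ (q ^ K) * ψ (v * q ^ K)) 2 3 = φ ((Tm l t r ^ 2) 2 3) * (φ q ^ (K - 2) * φ (pr v) * φ q ^ K) := by
    rw [Matrix.mul_apply, Fin.sum_univ_four]
    simp only [hψ, hTK]
    rw [(p1 0 (by decide)).2.1, (p1 1 (by decide)).2.1, (p1 2 (by decide)).2.1, p3, ins_33]
    simp [hq, mul_assoc]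
  have i3 : (ψ (q ^ K) * ψ (v * q ^ K)) 3 3 = φ ((Tm l t r ^ 2) 3 3) * (φ q ^ (K - 2) * φ (pr v) * φ q ^ K) := by
    rw [Matrix.mul_apply, Fin.sum_univ_four]
    simp only [hψ, hTK]
    rw [(p1 0 (by decide)).2.2, (p1 1 (by decide)).2.2, (p1 2 (by decide)).2.2, p4, ins_33]
    simp [hq, mul_assoc]
  rw [i0, i1, i2, i3, hψ, hψ, hψ, hψ, hψ, ins_00] at e2
  have e3 : φ (Psi l t r K u) = φ (ins l t r (q ^ K * u * q ^ (K - 2)) 0 1) * φ ((Tm l t r ^ 2) 1 3) +
      φ (ins l t r (q ^ K * u * q ^ (K - 2)) 0 2) * φ ((Tm l t r ^ 2) 2 3) +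
      φ (ins l t r (q ^ K * u * q ^ (K - 2)) 0 3) * φ ((Tm l t r ^ 2) 3 3) := by
    have : q ^ K * u * q ^ K = (q ^ K * u * q ^ (K - 2)) * q ^ 2 := by
      rw [mul_assoc _ (q ^ (K - 2)), ← pow_add, hKe]
    rw [Psi_def, this, map_mul, Matrix.mul_apply, Fin.sum_univ_four]
    have h2 : ins l t r (q ^ 2) = Tm l t r ^ 2 := by rw [map_pow, hq, ins_o]
    rw [h2, Tm2.1]
    simp
  rw [Psi_def, e2, e3]
  simp only [map_mul, map_pow, add_mul, mul_add, mul_assoc, add_assoc]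

end

section
variable {k : Type} [CommRing k] {X : Type}

theorem ins_02 (l t r C : W k X) (K : ℕ) (hK : 2 ≤ K) :
    ins l t r (uo k X ^ K * C * uo k X ^ K) 0 2 =
      uo k X ^ K * (C * uo k X ^ (K - 2) * (l * uo k X * (t * uo k X))) := by
  have hKe : K - 2 + 2 = K := by omega
  obtain ⟨p1, p2, p3, p4, p5⟩ := Tm_pow (l := l) (t := t) (r := r) (K - 2)
  rw [map_mul, Matrix.mul_apply, Fin.sum_univ_four]
  have hTK : ins l t r (uo k X ^ K) = Tm l t r ^ (K - 2 + 2) := by rw [map_pow, ins_o, hKe]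
  rw [hTK, (p1 2 (by decide)).1, (p1 2 (by decide)).2.1, (p1 2 (by decide)).2.2, p5, Tm2.2.2, ins_00]
  simp [mul_assoc]

theorem ins_13 (l t r C : W k X) (K : ℕ) (hK : 2 ≤ K) :
    ins l t r (uo k X ^ K * C * uo k X ^ K) 1 3 =
      (t * uo k X * (r * uo k X)) * uo k X ^ (K - 2) * pr C * uo k X ^ K := by
  have hKe : K - 2 + 2 = K := by omega
  obtain ⟨p1, p2, p3, p4, p5⟩ := Tm_pow (l := l) (t := t) (r := r) (K - 2)
  rw [mul_assoc, map_mul, Matrix.mul_apply, Fin.sum_univ_four]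
  have hTK : ins l t r (uo k X ^ K) = Tm l t r ^ (K - 2 + 2) := by rw [map_pow, ins_o, hKe]
  rw [hTK, (p1 0 (by decide)).1, (p1 1 (by decide)).1, (p1 2 (by decide)).1, p2, Tm2.2.1, ins_33]
  simp [mul_assoc]

theorem dd_qpow (K : ℕ) (v : W k X) : dd (uo k X ^ K * v) = uo k X ^ K * dd v := by
  induction K with
  | zero => simp
  | succ K ih => rw [pow_succ', mul_assoc, dd_o, ih, mul_assoc]

theorem dd_qpow1 (K : ℕ) : dd (uo k X ^ K) = 0 := by
  have := dd_qpow K (1 : W k X)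
  simpa using this

theorem pr_qpow (K : ℕ) : pr (uo k X ^ K) = uo k X ^ K := by simp

theorem deriv_Psi {l t r : W k X} (hl : pr l = -l) (ht : pr t = -t) (hr : pr r = -r) (dl : dd l = 1)
    (dt : dd t = 0) (dr : dd r = 1) (hlt : l - t = r) (K : ℕ) (hK : 2 ≤ K) (C : W k X) :
    dd (Psi l t r K C) = Psi l t r K (dd C)
      - uo k X ^ K * (pr C * uo k X ^ (K - 2) * (l * uo k X * (t * uo k X)))
      - (t * uo k X * (r * uo k X)) * uo k X ^ (K - 2) * pr C * uo k X ^ K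
      + Lam l t r (uo k X ^ K * C * uo k X ^ K) 0 3 := by
  have h := congrFun (congrFun (deriv_ins hl ht hr dl dt dr hlt (uo k X ^ K * C * uo k X ^ K)) 0) 3
  have e1 : (gam * (ins l t r (uo k X ^ K * C * uo k X ^ K)).map dd : Matrix (Fin 4) (Fin 4) (W k X)) 0 3 =
      dd (Psi l t r K C) := by
    rw [Psi_def, gam, diag4, Matrix.mul_apply, Fin.sum_univ_four]
    simp
  rw [e1] at h
  have e2 : dd (uo k X ^ K * C * uo k X ^ K) = uo k X ^ K * dd C * uo k X ^ K := by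
    rw [dd_mul, dd_qpow, dd_qpow1, mul_zero, add_zero]
  have e3 : pr (uo k X ^ K * C * uo k X ^ K) = uo k X ^ K * pr C * uo k X ^ K := by
    rw [map_mul, map_mul, pr_qpow]
  rw [h, e2, e3]
  simp only [Matrix.add_apply, Matrix.sub_apply]
  have e4 : (ins l t r (uo k X ^ K * pr C * uo k X ^ K) * Ym : Matrix (Fin 4) (Fin 4) (W k X)) 0 3 =
      - ins l t r (uo k X ^ K * pr C * uo k X ^ K) 0 2 := by
    rw [Matrix.mul_apply, Fin.sum_univ_four]
    simp [Ym]
  have e5 : (Ym * ins l t r (uo k X ^ K * C * uo k X ^ K) : Matrix (Fin 4) (Fin 4) (W k X)) 0 3 =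
      ins l t r (uo k X ^ K * C * uo k X ^ K) 1 3 := by
    rw [Matrix.mul_apply, Fin.sum_univ_four]
    simp [Ym]
  rw [e4, e5, ins_02 _ _ _ _ _ hK, ins_13 _ _ _ _ _ hK, ← Psi_def]
  abel

theorem pr_ins {l t r : W k X} (hl : pr l = -l) (ht : pr t = -t) (hr : pr r = -r) (v : W k X) :
    gam * (ins l t r v).map pr = ins l t r (pr v) * gam := by
  refine ind (P := fun v => gam * (ins l t r v).map pr = ins l t r (pr v) * gam) ?_ ?_ ?_ ?_ v
  · rw [map_one, map_one, map_one]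
    have : ((1 : Matrix (Fin 4) (Fin 4) (W k X)).map pr) = 1 := Matrix.map_one _ (map_zero _) (map_one _)
    rw [this]; simp
  · intro x y hx hy
    have : ((ins l t r (x + y)).map pr) = (ins l t r x).map pr + (ins l t r y).map pr := by
      ext i j; simp
    rw [this, mul_add, hx, hy, map_add, map_add, add_mul]
  · intro c x hx
    have : ((ins l t r (c • x)).map pr) = c • (ins l t r x).map pr := by
      ext i j; simp
    rw [this, Matrix.mul_smul, hx, map_smul, map_smul, Matrix.smul_mul]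
  · intro a x hx
    have h0 : ((ins l t r (ι k a * x)).map pr) = (ins l t r (ι k a)).map pr * (ins l t r x).map pr := by
      ext i j; simp [Matrix.mul_apply, map_sum]
    have h1 : gam * (ins l t r (ι k a)).map pr = ins l t r (pr (ι k a)) * gam := by
      cases a with
      | none =>
        change gam * (ins l t r (uo k X)).map pr = ins l t r (pr (uo k X)) * gam
        rw [pr_o, ins_o, gam_pr_Tm hl ht hr]
      | some y =>
        change gam * (ins l t r (ux k y)).map pr = ins l t r (pr (ux k y)) * gam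
        rw [pr_x, map_neg, ins_x]
        ext i j
        fin_cases i <;> fin_cases j <;>
          simp [gam, Matrix.mul_apply, Fin.sum_univ_four, Matrix.diagonal]
    rw [h0, ← mul_assoc, h1, mul_assoc, hx, map_mul, map_mul, mul_assoc]

theorem pr_Psi {l t r : W k X} (hl : pr l = -l) (ht : pr t = -t) (hr : pr r = -r) (K : ℕ) (C : W k X) :
    pr (Psi l t r K C) = - Psi l t r K (pr C) := by
  have h := congrFun (congrFun (pr_ins hl ht hr (uo k X ^ K * C * uo k X ^ K)) 0) 3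
  rw [gam, diag4, Matrix.mul_apply, Matrix.mul_apply, Fin.sum_univ_four, Fin.sum_univ_four] at h
  simp only [Matrix.map_apply, map_mul, pr_qpow] at h
  rw [Psi_def, Psi_def, map_mul, map_mul]
  simpa using h

/-- words with letters in `S` -/
noncomputable def U (k : Type) [CommRing k] {X : Type} (S : Set X) : Subalgebra k (W k X) :=
  (mp k (Subtype.val : S → X)).range

theorem uo_mem (S : Set X) : uo k X ∈ U k S := ⟨uo k S, by simp⟩
theorem ux_mem {S : Set X} {x : X} (h : x ∈ S) : ux k x ∈ U k S :=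
  ⟨ux k (⟨x, h⟩ : S), by simp⟩

theorem U_ind {S : Set X} {P : W k X → Prop} (h1 : P 1) (ha : ∀ x y, P x → P y → P (x + y))
    (hs : ∀ (c : k) x, P x → P (c • x)) (ho : ∀ v ∈ U k S, P v → P (uo k X * v))
    (hx : ∀ x ∈ S, ∀ v ∈ U k S, P v → P (ux k x * v)) : ∀ v ∈ U k S, P v := by
  rintro _ ⟨z, rfl⟩
  change P (mp k _ z)
  refine ind (P := fun z => P (mp k (Subtype.val : S → X) z)) ?_ ?_ ?_ ?_ z
  · rw [map_one]; exact h1
  · intro x y hx hy; rw [map_add]; exact ha _ _ hx hy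
  · intro c x hx; rw [map_smul]; exact hs _ _ hx
  · intro a v hv
    rw [map_mul]
    cases a with
    | none =>
      have : mp k (Subtype.val : S → X) (ι k none) = uo k X := mp_o _
      rw [this]
      exact ho _ ⟨v, rfl⟩ hv
    | some x =>
      have : mp k (Subtype.val : S → X) (ι k (some x)) = ux k x.1 := mp_x _ _
      rw [this]
      exact hx _ x.2 _ ⟨v, rfl⟩ hv

theorem U_mono {S S' : Set X} (h : S ⊆ S') : U k S ≤ U k S' := by
  intro v hv
  refine U_ind (P := fun v => v ∈ U k S') ?_ ?_ ?_ ?_ ?_ v hv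
  · exact one_mem _
  · intro x y; exact add_mem
  · intro c x hx; exact Subalgebra.smul_mem _ hx c
  · intro v _ hv; exact mul_mem (uo_mem _) hv
  · intro x hx v _ hv; exact mul_mem (ux_mem (h hx)) hv

theorem NN_mem {S : Set X} {v : W k X} (hv : v ∈ U k S) : NN v ∈ U k S := by
  obtain ⟨z, rfl⟩ := hv
  exact ⟨NN z, (mp_NN _ _).symm⟩

theorem HH_mem {S : Set X} {v : W k X} (hv : v ∈ U k S) : HH v ∈ U k S := by
  obtain ⟨z, rfl⟩ := hv
  exact ⟨HH z, (mp_HH _ _).symm⟩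

theorem pr_mem {S : Set X} {v : W k X} (hv : v ∈ U k S) : pr v ∈ U k S := by
  refine U_ind (P := fun v => pr v ∈ U k S) ?_ ?_ ?_ ?_ ?_ v hv
  · rw [map_one]; exact one_mem _
  · intro x y hx hy; rw [map_add]; exact add_mem hx hy
  · intro c x hx; rw [map_smul]; exact Subalgebra.smul_mem _ hx c
  · intro v _ hv; rw [map_mul, pr_o]; exact mul_mem (uo_mem _) hv
  · intro x hx v _ hv; rw [map_mul, pr_x]; exact mul_mem (neg_mem (ux_mem hx)) hv

theorem ins_mem {S S' : Set X} (h : S ⊆ S') {l t r : W k X} (hl : l ∈ U k S') (ht : t ∈ U k S')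
    (hr : r ∈ U k S') {v : W k X} (hv : v ∈ U k S) : ∀ i j, ins l t r v i j ∈ U k S' := by
  refine U_ind (P := fun v => ∀ i j, ins l t r v i j ∈ U k S') ?_ ?_ ?_ ?_ ?_ v hv
  · intro i j; rw [map_one, Matrix.one_apply]; split_ifs; exacts [one_mem _, zero_mem _]
  · intro x y hx hy i j; rw [map_add]; exact add_mem (hx i j) (hy i j)
  · intro c x hx i j; rw [map_smul]; exact Subalgebra.smul_mem _ (hx i j) c
  · intro v _ hv i j
    rw [map_mul, Matrix.mul_apply]
    refine sum_mem (fun m _ => mul_mem ?_ (hv m j))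
    rw [ins_o]
    have h0 := zero_mem (U k S')
    have h1 := uo_mem (k := k) S'
    fin_cases i <;> fin_cases m <;> simp [Tm] <;>
      first | exact h0 | exact h1 | exact mul_mem hl h1 | exact mul_mem ht h1 | exact mul_mem hr h1
  · intro x hx v _ hv i j
    rw [map_mul, Matrix.mul_apply]
    refine sum_mem (fun m _ => mul_mem ?_ (hv m j))
    rw [ins_x, diag4]
    have h0 := zero_mem (U k S')
    have h1 := ux_mem (k := k) (h hx)
    fin_cases i <;> fin_cases m <;> simp <;>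
      first | exact h0 | exact h1 | exact neg_mem h1

theorem qpow_mem {S : Set X} (K : ℕ) : uo k X ^ K ∈ U k S := pow_mem (uo_mem _) K

theorem Psi_mem {S S' : Set X} (h : S ⊆ S') {l t r : W k X} (hl : l ∈ U k S') (ht : t ∈ U k S')
    (hr : r ∈ U k S') {v : W k X} (hv : v ∈ U k S) (K : ℕ) : Psi l t r K v ∈ U k S' :=
  ins_mem h hl ht hr (mul_mem (mul_mem (qpow_mem K) hv) (qpow_mem K)) 0 3

theorem Lam_gen_o (l t r : W k X) (v : W k X) : Lam l t r (uo k X * v) =
    !![0, 0, -(r * uo k X), 0; 0, 0, 0, l * uo k X; 0, 0, 0, 0; 0, 0, 0, 0] * ins l t r v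
      + Tm l t r * Lam l t r v := by
  have := oder_gen (ins l t r) (fun a => match a with
    | none => !![0, 0, -(r * uo k X), 0; 0, 0, 0, l * uo k X; 0, 0, 0, 0; 0, 0, 0, 0]
    | some _ => 0) none v
  rw [pr_o, ins_o] at this
  exact this

theorem Lam_gen_x (l t r : W k X) (x : X) (v : W k X) : Lam l t r (ux k x * v) =
    - (!![ux k x, 0, 0, 0; 0, -ux k x, 0, 0; 0, 0, ux k x, 0; 0, 0, 0, -ux k x] * Lam l t r v) := by
  have := oder_gen (ins l t r) (fun a => match a with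
    | none => !![0, 0, -(r * uo k X), 0; 0, 0, 0, l * uo k X; 0, 0, 0, 0; 0, 0, 0, 0]
    | some _ => 0) (some x) v
  rw [pr_x, map_neg, ins_x, diag4] at this
  simp only [zero_mul, zero_add, neg_mul] at this
  exact this

theorem Lam_mem {S : Set X} {a b : X} {t : W k X} {v : W k X} (hv : v ∈ U k S) :
    ins (ux k a) t (ux k b) v 2 2 ∈ U k (insert b S) ∧ ins (ux k a) t (ux k b) v 2 3 ∈ U k (insert b S) ∧
    Lam (ux k a) t (ux k b) v 0 2 ∈ U k (insert b S) ∧ Lam (ux k a) t (ux k b) v 1 3 ∈ U k (insert a S) ∧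
    (∃ x ∈ U k (insert a S), ∃ y ∈ U k (insert b S), Lam (ux k a) t (ux k b) v 0 3 = x + y) ∧
    Lam (ux k a) t (ux k b) v 1 2 = 0 ∧ Lam (ux k a) t (ux k b) v 2 2 = 0 ∧ Lam (ux k a) t (ux k b) v 3 2 = 0 ∧
    Lam (ux k a) t (ux k b) v 2 3 = 0 ∧ Lam (ux k a) t (ux k b) v 3 3 = 0 := by
  have ha := ux_mem (k := k) (Set.mem_insert a S)
  have hb := ux_mem (k := k) (Set.mem_insert b S)
  have hSa : U k S ≤ U k (insert a S) := U_mono (Set.subset_insert _ _)
  have hSb : U k S ≤ U k (insert b S) := U_mono (Set.subset_insert _ _)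
  have hoa := uo_mem (k := k) (insert a S)
  have hob := uo_mem (k := k) (insert b S)
  refine U_ind (P := fun v => ins (ux k a) t (ux k b) v 2 2 ∈ U k (insert b S) ∧ ins (ux k a) t (ux k b) v 2 3 ∈ U k (insert b S) ∧
    Lam (ux k a) t (ux k b) v 0 2 ∈ U k (insert b S) ∧ Lam (ux k a) t (ux k b) v 1 3 ∈ U k (insert a S) ∧
    (∃ x ∈ U k (insert a S), ∃ y ∈ U k (insert b S), Lam (ux k a) t (ux k b) v 0 3 = x + y) ∧
    Lam (ux k a) t (ux k b) v 1 2 = 0 ∧ Lam (ux k a) t (ux k b) v 2 2 = 0 ∧ Lam (ux k a) t (ux k b) v 3 2 = 0 ∧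
    Lam (ux k a) t (ux k b) v 2 3 = 0 ∧ Lam (ux k a) t (ux k b) v 3 3 = 0) ?_ ?_ ?_ ?_ ?_ v hv
  · have h0 : Lam (ux k a) t (ux k b) (1 : W k X) = 0 := oder_one _ _
    simp only [h0, map_one, Matrix.zero_apply, Matrix.one_apply_eq]
    refine ⟨one_mem _, ?_, zero_mem _, zero_mem _, ⟨0, zero_mem _, 0, zero_mem _, by simp⟩, ?_⟩
    · rw [Matrix.one_apply_ne (by decide)]; exact zero_mem _
    · simp
  · rintro x y ⟨h1, h2, h3, h4, ⟨x1, hx1, y1, hy1, h5⟩, h6, h7, h8, h9, h10⟩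
      ⟨h1', h2', h3', h4', ⟨x1', hx1', y1', hy1', h5'⟩, h6', h7', h8', h9', h10'⟩
    simp only [map_add, Matrix.add_apply]
    refine ⟨add_mem h1 h1', add_mem h2 h2', add_mem h3 h3', add_mem h4 h4',
      ⟨x1 + x1', add_mem hx1 hx1', y1 + y1', add_mem hy1 hy1', ?_⟩, ?_⟩
    · rw [h5, h5']; abel
    · simp [h6, h7, h8, h9, h10, h6', h7', h8', h9', h10']
  · rintro c x ⟨h1, h2, h3, h4, ⟨x1, hx1, y1, hy1, h5⟩, h6, h7, h8, h9, h10⟩
    simp only [map_smul, Matrix.smul_apply]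
    refine ⟨Subalgebra.smul_mem _ h1 c, Subalgebra.smul_mem _ h2 c, Subalgebra.smul_mem _ h3 c, Subalgebra.smul_mem _ h4 c,
      ⟨c • x1, Subalgebra.smul_mem _ hx1 c, c • y1, Subalgebra.smul_mem _ hy1 c, ?_⟩, ?_⟩
    · rw [h5, smul_add]
    · simp [h6, h7, h8, h9, h10]
  · rintro v hv ⟨h1, h2, h3, h4, ⟨x1, hx1, y1, hy1, h5⟩, h6, h7, h8, h9, h10⟩
    have h33 : ins (ux k a) t (ux k b) v 3 3 ∈ U k S := by rw [ins_33]; exact pr_mem hv
    have hlow := ins_low (l := ux k a) (t := t) (r := ux k b) v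
    rw [Lam_gen_o, map_mul, ins_o]
    simp only [Matrix.add_apply, Matrix.mul_apply, Fin.sum_univ_four, h5, h6, h7, h8, h9, h10,
      hlow 3 2 (by decide)]
    simp only [Tm, Matrix.of_apply, Matrix.cons_val', Matrix.cons_val_zero, Matrix.cons_val_one,
      Matrix.cons_val, zero_mul, mul_zero, add_zero, zero_add, neg_mul]
    refine ⟨zero_mem _, mul_mem (mul_mem hb hob) (hSb h33),
      add_mem (neg_mem (mul_mem (mul_mem hb hob) h1)) (mul_mem hob h3),
      mul_mem (mul_mem ha hoa) (hSa h33),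
      ⟨uo k X * x1 + ux k a * uo k X * Lam (ux k a) t (ux k b) v 1 3, add_mem (mul_mem hoa hx1) (mul_mem (mul_mem ha hoa) h4),
        -(ux k b * uo k X * ins (ux k a) t (ux k b) v 2 3) + uo k X * y1, add_mem (neg_mem (mul_mem (mul_mem hb hob) h2)) (mul_mem hob hy1), ?_⟩, ?_⟩
    · rw [mul_add]; abel
    · simp
  · rintro x hx v hv ⟨h1, h2, h3, h4, ⟨x1, hx1, y1, hy1, h5⟩, h6, h7, h8, h9, h10⟩
    have hxa := hSa (ux_mem (k := k) hx)
    have hxb := hSb (ux_mem (k := k) hx)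
    rw [Lam_gen_x, map_mul, ins_x, diag4]
    simp only [Matrix.neg_apply, Matrix.mul_apply, Fin.sum_univ_four, h5, h6, h7, h8, h9, h10]
    simp only [Matrix.of_apply, Matrix.cons_val', Matrix.cons_val_zero, Matrix.cons_val_one,
      Matrix.cons_val, zero_mul, mul_zero, add_zero, zero_add, neg_mul, neg_neg]
    refine ⟨mul_mem hxb h1, mul_mem hxb h2, neg_mem (mul_mem hxb h3), mul_mem hxa h4,
      ⟨-(ux k x * x1), neg_mem (mul_mem hxa hx1), -(ux k x * y1), neg_mem (mul_mem hxb hy1), ?_⟩, ?_⟩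
    · rw [mul_add]; abel
    · simp

end

end Pool.Agent.H168R3
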