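import Pool.Agent.H168R3.Lift

/-! Sortedness of the words of the untyped chains. -/

namespace Pool.Agent.H168R3

open FreeAlgebra

section
variable {k : Type} [CommRing k] {Y : Type}

/-- combinations of words without `o`, of length `d`, labels in `A`, values weakly increasing and at least `b` -/
inductive Srt (A : Finset ℕ) (val : ℕ × Y → ℤ) : ℤ → ℕ → W k (ℕ × Y) → Prop
  | one (b : ℤ) : Srt A val b 0 1
  | zero (b : ℤ) (d : ℕ) : Srt A val b d 0
  | add {b : ℤ} {d : ℕ} {u v : W k (ℕ × Y)} : Srt A val b d u → Srt A val b d v → Srt A val b d (u + v)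
  | smul {b : ℤ} {d : ℕ} {v : W k (ℕ × Y)} (c : k) : Srt A val b d v → Srt A val b d (c • v)
  | x {b : ℤ} {d : ℕ} {v : W k (ℕ × Y)} (x : ℕ × Y) : x.1 ∈ A → b ≤ val x → Srt A val (val x) d v →
      Srt A val b (d + 1) (ux k x * v)

variable {A B : Finset ℕ} {val : ℕ × Y → ℤ}

theorem Srt.neg {b : ℤ} {d : ℕ} {v : W k (ℕ × Y)} (h : Srt A val b d v) : Srt A val b d (-v) := by
  have := Srt.smul (-1) h
  simpa using this

theorem Srt.sub {b : ℤ} {d : ℕ} {u v : W k (ℕ × Y)} (h : Srt A val b d u) (h' : Srt A val b d v) :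
    Srt A val b d (u - v) := by
  rw [sub_eq_add_neg]; exact h.add h'.neg

theorem Srt.mono {b b' : ℤ} {d : ℕ} {v : W k (ℕ × Y)} (h : Srt A val b d v) (hb : b' ≤ b) (hA : A ⊆ B) :
    Srt B val b' d v := by
  induction h generalizing b' with
  | one b => exact Srt.one _
  | zero b d => exact Srt.zero _ _
  | add _ _ ih1 ih2 => exact (ih1 hb).add (ih2 hb)
  | smul c _ ih => exact (ih hb).smul c
  | x x hx hbx _ ih => exact Srt.x x (hA hx) (hb.trans hbx) (ih le_rfl)

theorem Srt.congr {val' : ℕ × Y → ℤ} {b : ℤ} {d : ℕ} {v : W k (ℕ × Y)} (h : Srt A val b d v) (N : ℤ)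
    (hv : ∀ x : ℕ × Y, x.1 ∈ A → val' x = val x + N) : Srt A val' (b + N) d v := by
  induction h with
  | one b => exact Srt.one _
  | zero b d => exact Srt.zero _ _
  | add _ _ ih1 ih2 => exact ih1.add ih2
  | smul c _ ih => exact ih.smul c
  | x x hx hbx _ ih =>
    refine Srt.x x hx ?_ ?_
    · rw [hv x hx]; omega
    · rw [hv x hx]; exact ih

theorem Srt.nab {b : ℤ} {d : ℕ} {v : W k (ℕ × Y)} (h : Srt A val b d v) : Srt A val b (d + 1) (nab v) := by
  induction h with
  | one b => rw [nab_one]; exact Srt.zero _ _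
  | zero b d => rw [map_zero]; exact Srt.zero _ _
  | add _ _ ih1 ih2 => rw [map_add]; exact ih1.add ih2
  | smul c _ ih => rw [map_smul]; exact ih.smul c
  | x x hx hbx h ih =>
    rw [nab_x]
    exact (Srt.x x hx hbx (Srt.x x hx le_rfl h)).sub (Srt.x x hx hbx ih)

theorem Srt.NN {b : ℤ} {d : ℕ} {v : W k (ℕ × Y)} (h : Srt A val b d v) : Srt A val b d (NN v) := by
  induction h with
  | one b => rw [NN_one]; exact Srt.one _
  | zero b d => rw [map_zero]; exact Srt.zero _ _
  | add _ _ ih1 ih2 => rw [map_add]; exact ih1.add ih2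
  | smul c _ ih => rw [map_smul]; exact ih.smul c
  | x x hx hbx h ih =>
    rw [NN_x]
    exact (Srt.x x hx hbx ih).sub (ih.nab.mono hbx (Finset.Subset.refl _))

theorem Srt.HH0 {b : ℤ} {d : ℕ} {v : W k (ℕ × Y)} (h : Srt A val b d v) : HH v = 0 := by
  induction h with
  | one b => exact HH_one
  | zero b d => exact map_zero _
  | add _ _ ih1 ih2 => rw [map_add, ih1, ih2, add_zero]
  | smul c _ ih => rw [map_smul, ih, smul_zero]
  | x x hx hbx h ih => rw [HH_x, ih]; simp

theorem Srt.HHo {b c : ℤ} {d e : ℕ} {u v : W k (ℕ × Y)} (hu : Srt A val b d u) (hv : Srt B val c e v)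
    (hc : ∀ x : ℕ × Y, x.1 ∈ A → val x ≤ c) (hb : b ≤ c) : Srt (A ∪ B) val b (d + e + 1) (HH (u * uo k _ * v)) := by
  induction hu with
  | one b =>
    rw [one_mul, HH_o, hv.HH0, mul_zero, zero_add, zero_add]
    exact hv.NN.nab.mono hb Finset.subset_union_right
  | zero b d => rw [zero_mul, zero_mul, map_zero]; exact Srt.zero _ _
  | add _ _ ih1 ih2 => rw [add_mul, add_mul, map_add]; exact (ih1 hb).add (ih2 hb)
  | smul c _ ih => rw [smul_mul_assoc, smul_mul_assoc, map_smul]; exact (ih hb).smul c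
  | @x b d v' x hx hbx h ih =>
    rw [mul_assoc, mul_assoc, HH_x, ← mul_assoc]
    have e1 : d + 1 + e + 1 = (d + e + 1) + 1 := by ring
    rw [e1]
    exact (Srt.x x (Finset.mem_union_left _ hx) hbx (ih (hc x hx))).neg

theorem Srt.mp {Y' : Type} {b : ℤ} {d : ℕ} {v : W k (ℕ × Y)} (h : Srt A val b d v) (f : ℕ × Y → ℕ × Y')
    (hf : ∀ x, (f x).1 = x.1) : Srt A (fun _ => 0) 0 d (mp k f v) := by
  induction h with
  | one b => rw [map_one]; exact Srt.one _
  | zero b d => rw [map_zero]; exact Srt.zero _ _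
  | add _ _ ih1 ih2 => rw [map_add]; exact ih1.add ih2
  | smul c _ ih => rw [map_smul]; exact ih.smul c
  | x x hx hbx h ih =>
    rw [map_mul, mp_x]
    exact Srt.x (f x) (by rw [hf]; exact hx) le_rfl ih

end

section
variable {k : Type} [CommRing k]

/-- words with ticks: the letter `(j, c)` lies in slot `y j + c`, labels weakly increase in each slot -/
inductive TV (A : Finset ℕ) (y : ℕ → ℤ) : ℤ → ℕ → ℕ → W k (ℕ × Fin 3) → Prop
  | one (s : ℤ) (b : ℕ) : TV A y s b 0 1
  | zero (s : ℤ) (b d : ℕ) : TV A y s b d 0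
  | add {s : ℤ} {b d : ℕ} {u v : W k (ℕ × Fin 3)} : TV A y s b d u → TV A y s b d v → TV A y s b d (u + v)
  | smul {s : ℤ} {b d : ℕ} {v : W k (ℕ × Fin 3)} (c : k) : TV A y s b d v → TV A y s b d (c • v)
  | o {s : ℤ} {b d : ℕ} {v : W k (ℕ × Fin 3)} : TV A y (s + 1) 0 d v → TV A y s b d (uo k _ * v)
  | x {s : ℤ} {b d : ℕ} {v : W k (ℕ × Fin 3)} (j : ℕ) (c : Fin 3) : j ∈ A → b ≤ j → s = y j + c.1 → TV A y s j d v →
      TV A y s b (d + 1) (ux k (j, c) * v)

theorem TV.neg {A : Finset ℕ} {y : ℕ → ℤ} {s : ℤ} {b d : ℕ} {v : W k (ℕ × Fin 3)} (h : TV A y s b d v) :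
    TV A y s b d (-v) := by
  have := TV.smul (-1) h
  simpa using this

theorem TV.qleft {A : Finset ℕ} {y : ℕ → ℤ} {d : ℕ} {v : W k (ℕ × Fin 3)} (K : ℕ) : ∀ {s : ℤ} {b : ℕ},
    TV A y s 0 d v → TV A y (s - (K + 1 : ℕ)) b d (uo k _ ^ (K + 1) * v) := by
  induction K with
  | zero =>
    intro s b h
    rw [zero_add, pow_one]
    refine TV.o ?_
    have : s - ((1 : ℕ) : ℤ) + 1 = s := by push_cast; ring
    rw [this]; exact h
  | succ K ih =>
    intro s b h
    rw [pow_succ', mul_assoc]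
    refine TV.o ?_
    have : s - ((K + 1 + 1 : ℕ) : ℤ) + 1 = s - (K + 1 : ℕ) := by push_cast; ring
    rw [this]; exact ih h

theorem TV.qpow {A : Finset ℕ} {y : ℕ → ℤ} (K : ℕ) : ∀ {s : ℤ} {b : ℕ},
    TV A y s b 0 (uo k (ℕ × Fin 3) ^ K) := by
  induction K with
  | zero => intro s b; rw [pow_zero]; exact TV.one _ _
  | succ K ih => intro s b; rw [pow_succ']; exact TV.o ih

theorem TV.qright {A : Finset ℕ} {y : ℕ → ℤ} {s : ℤ} {b d : ℕ} {v : W k (ℕ × Fin 3)} (h : TV A y s b d v) (K : ℕ) :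
    TV A y s b d (v * uo k _ ^ K) := by
  induction h with
  | one s b => rw [one_mul]; exact TV.qpow K
  | zero s b d => rw [zero_mul]; exact TV.zero _ _ _
  | add _ _ ih1 ih2 => rw [add_mul]; exact ih1.add ih2
  | smul c _ ih => rw [smul_mul_assoc]; exact ih.smul c
  | o _ ih => rw [mul_assoc]; exact TV.o ih
  | x j c hj hb hs _ ih => rw [mul_assoc]; exact TV.x j c hj hb hs ih

theorem TV.ins {A : Finset ℕ} {y : ℕ → ℤ} {s : ℤ} {b d : ℕ} {v : W k (ℕ × Fin 3)} (h : TV A y s b d v) {j : ℕ}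
    (hj : ∀ i ∈ A, i < j) (hbj : b ≤ j) :
    (∀ s0, TV (insert j A) (Function.update y j s0) s b d (ins (ux k (j, 0)) (ux k (j, 1)) (ux k (j, 2)) v 3 3)) ∧
    (∀ s0, s = s0 + 2 → TV (insert j A) (Function.update y j s0) s b (d + 1) (ins (ux k (j, 0)) (ux k (j, 1)) (ux k (j, 2)) v 2 3)) ∧
    (∀ s0, s = s0 + 1 → TV (insert j A) (Function.update y j s0) s b (d + 2) (ins (ux k (j, 0)) (ux k (j, 1)) (ux k (j, 2)) v 1 3)) ∧
    (ins (ux k (j, 0)) (ux k (j, 1)) (ux k (j, 2)) v 0 3 ∈ Submodule.span k {w | ∃ s0, TV (insert j A) (Function.update y j s0) s b (d + 3) w}) := by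
  have hmulspan : ∀ (z : W k (ℕ × Fin 3)) (s s' : ℤ) (b b' d d' : ℕ) (w : W k (ℕ × Fin 3)),
      (∀ s0 w, TV (insert j A) (Function.update y j s0) s b d w → TV (insert j A) (Function.update y j s0) s' b' d' (z * w)) →
      w ∈ Submodule.span k {w | ∃ s0, TV (insert j A) (Function.update y j s0) s b d w} →
      z * w ∈ Submodule.span k {w | ∃ s0, TV (insert j A) (Function.update y j s0) s' b' d' w} := by
    intro z s s' b b' d d' w hz hw
    have : (Submodule.span k {w | ∃ s0, TV (insert j A) (Function.update y j s0) s b d w}).map (LinearMap.mulLeft k z) ≤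
        Submodule.span k {w | ∃ s0, TV (insert j A) (Function.update y j s0) s' b' d' w} := by
      rw [Submodule.map_span_le]
      rintro v ⟨s0, hv⟩
      exact Submodule.subset_span ⟨s0, hz s0 v hv⟩
    exact this (Submodule.mem_map_of_mem hw)
  induction h with
  | one s b =>
    refine ⟨fun s0 => ?_, fun s0 _ => ?_, fun s0 _ => ?_, ?_⟩
    · rw [map_one, Matrix.one_apply_eq]; exact TV.one _ _
    · rw [map_one, Matrix.one_apply_ne (by decide)]; exact TV.zero _ _ _
    · rw [map_one, Matrix.one_apply_ne (by decide)]; exact TV.zero _ _ _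
    · rw [map_one, Matrix.one_apply_ne (by decide)]; exact zero_mem _
  | zero s b d =>
    refine ⟨fun s0 => ?_, fun s0 _ => ?_, fun s0 _ => ?_, ?_⟩
    · rw [map_zero]; exact TV.zero _ _ _
    · rw [map_zero]; exact TV.zero _ _ _
    · rw [map_zero]; exact TV.zero _ _ _
    · rw [map_zero]; exact zero_mem _
  | add _ _ ih1 ih2 =>
    obtain ⟨a1, a2, a3, a4⟩ := ih1 hbj
    obtain ⟨b1, b2, b3, b4⟩ := ih2 hbj
    rw [map_add]
    exact ⟨fun s0 => (a1 s0).add (b1 s0), fun s0 h => (a2 s0 h).add (b2 s0 h), fun s0 h => (a3 s0 h).add (b3 s0 h),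
      add_mem a4 b4⟩
  | smul c _ ih =>
    obtain ⟨a1, a2, a3, a4⟩ := ih hbj
    rw [map_smul]
    exact ⟨fun s0 => (a1 s0).smul c, fun s0 h => (a2 s0 h).smul c, fun s0 h => (a3 s0 h).smul c,
      Submodule.smul_mem _ c a4⟩
  | @o s b d v h ih =>
    obtain ⟨a1, a2, a3, a4⟩ := ih (Nat.zero_le _)
    rw [map_mul, ins_o]
    simp only [Matrix.mul_apply, Fin.sum_univ_four]
    simp only [Tm, Matrix.of_apply, Matrix.cons_val', Matrix.cons_val_zero, Matrix.cons_val_one,
      Matrix.cons_val, zero_mul, add_zero, zero_add]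
    have hjm : j ∈ insert j A := Finset.mem_insert_self _ _
    refine ⟨fun s0 => TV.o (a1 s0), fun s0 h => ?_, fun s0 h => ?_, ?_⟩
    · rw [mul_assoc]
      refine TV.x j 2 hjm hbj (by simp [h]) (TV.o (a1 s0))
    · rw [mul_assoc]
      refine TV.x j 1 hjm hbj (by simp [h]) (TV.o (a2 s0 (by omega)))
    · refine add_mem ?_ ?_
      · exact hmulspan _ (s + 1) s 0 b (d + 3) (d + 3) _ (fun s0 w hw => TV.o hw) a4
      · rw [mul_assoc]
        refine Submodule.subset_span ⟨s, ?_⟩
        exact TV.x j 0 hjm hbj (by simp) (TV.o (a3 s rfl))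
  | @x s b d v i c hi hb hs h ih =>
    have hij : i < j := hj i hi
    have hyi : ∀ s0 : ℤ, Function.update y j s0 i = y i := fun s0 => Function.update_of_ne (ne_of_lt hij) _ _
    obtain ⟨a1, a2, a3, a4⟩ := ih hij.le
    rw [map_mul, ins_x, diag4]
    simp only [Matrix.mul_apply, Fin.sum_univ_four]
    simp only [Matrix.of_apply, Matrix.cons_val', Matrix.cons_val_zero, Matrix.cons_val_one,
      Matrix.cons_val, zero_mul, add_zero, zero_add, neg_mul]
    have him : i ∈ insert j A := Finset.mem_insert_of_mem hi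
    refine ⟨fun s0 => ?_, fun s0 h => ?_, fun s0 h => ?_, ?_⟩
    · exact (TV.x i c him hb (by rw [hyi]; exact hs) (a1 s0)).neg
    · exact (TV.x i c him hb (by rw [hyi]; exact hs) (a2 s0 h))
    · exact (TV.x i c him hb (by rw [hyi]; exact hs) (a3 s0 h)).neg
    · exact hmulspan _ s s i b (d + 3) (d + 3 + 1) _ (fun s0 w hw => TV.x i c him hb (by rw [hyi]; exact hs) hw) a4

/-- value of a letter -/
def vl (M : ℕ) (y : ℕ → ℤ) (x : ℕ × Fin 3) : ℤ := (y x.1 + x.2.1) * M + x.1

theorem TV.srt {M : ℕ} {A : Finset ℕ} (hA : A ⊆ Finset.range M) {y : ℕ → ℤ} {s : ℤ} {b d : ℕ} {v : W k (ℕ × Fin 3)}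
    (h : TV A y s b d v) (hb : b ≤ M) : Srt A (vl M y) (s * M + b) d (e1 k v) := by
  induction h with
  | one s b => rw [map_one]; exact Srt.one _
  | zero s b d => rw [map_zero]; exact Srt.zero _ _
  | add _ _ ih1 ih2 => rw [map_add]; exact (ih1 hb).add (ih2 hb)
  | smul c _ ih => rw [map_smul]; exact (ih hb).smul c
  | @o s b d v _ ih =>
    rw [map_mul, e1_o, one_mul]
    refine (ih (Nat.zero_le _)).mono ?_ (Finset.Subset.refl _)
    have : (b : ℤ) ≤ M := by exact_mod_cast hb
    push_cast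
    linarith
  | @x s b d v j c hj hbj hs _ ih =>
    rw [map_mul, e1_x]
    have hv : vl M y (j, c) = s * M + j := by simp [vl, hs]
    refine Srt.x (j, c) hj ?_ ?_
    · rw [hv]
      have : (b : ℤ) ≤ j := by exact_mod_cast hbj
      linarith
    · rw [hv]
      exact ih (Finset.mem_range.1 (hA hj)).le

/-- the untyped tower -/
noncomputable def Ch (k : Type) [CommRing k] (K : ℕ) (A : Finset ℕ) : W k (ℕ × Fin 3) :=
  CA (fun j => ux k (j, 0)) (fun j => ux k (j, 1)) (fun j => ux k (j, 2)) K A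

theorem Ch_empty (K : ℕ) : Ch k K ∅ = 0 := CA_empty _ _ _ _

theorem Ch_valid (K : ℕ) (hK : 0 < K) (A : Finset ℕ) (hA : A ≠ ∅) :
    Ch k K A ∈ Submodule.span k {w | ∃ y s, TV A y s 0 (3 * A.card - 1) w} := by
  obtain ⟨K', rfl⟩ : ∃ K', K = K' + 1 := ⟨K - 1, by omega⟩
  induction A using Finset.induction_on_max with
  | empty => exact absurd rfl hA
  | insert j S h ih =>
    have hj : j ∉ S := fun hj => lt_irrefl _ (h j hj)
    rw [Ch, CA_insert _ _ _ _ h]
    by_cases hS : S = ∅
    · subst hS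
      rw [CA_empty, map_zero, zero_add, if_pos rfl]
      refine Submodule.subset_span ⟨fun _ => 0, 0, ?_⟩
      have e : 3 * (insert j (∅ : Finset ℕ)).card - 1 = 1 + 1 := by simp
      rw [e, mul_assoc]
      refine (TV.x j 0 (by simp) (Nat.zero_le _) (by simp) (TV.o ?_)).neg
      refine TV.x j 1 (by simp) (Nat.zero_le _) (by simp) ?_
      have := TV.qpow (k := k) (A := insert j ∅) (y := fun _ => 0) 1 (s := 0 + 1) (b := j)
      rwa [pow_one] at this
    · rw [if_neg hS, add_zero]
      have ih' := ih hS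
      have hc : 0 < S.card := Finset.card_pos.2 (Finset.nonempty_iff_ne_empty.2 hS)
      have key : (Submodule.span k {w | ∃ y s, TV (k := k) S y s 0 (3 * S.card - 1) w}).map
          (Psi (ux k (j, 0)) (ux k (j, 1)) (ux k (j, 2)) (K' + 1)) ≤
          Submodule.span k {w | ∃ y s, TV (insert j S) y s 0 (3 * (insert j S).card - 1) w} := by
        rw [Submodule.map_span_le]
        rintro w ⟨y, s, hw⟩
        have h1 : TV S y (s - (K' + 1 : ℕ)) 0 (3 * S.card - 1) (uo k _ ^ (K' + 1) * w * uo k _ ^ (K' + 1)) :=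
          (hw.qleft K').qright _
        have h2 := (h1.ins h (Nat.zero_le _)).2.2.2
        have e : 3 * S.card - 1 + 3 = 3 * (insert j S).card - 1 := by
          rw [Finset.card_insert_of_notMem hj]; omega
        rw [e] at h2
        refine (Submodule.span_mono ?_) h2
        rintro w' ⟨s0, hw'⟩
        exact ⟨_, _, hw'⟩
      exact key (Submodule.mem_map_of_mem ih')

/-- the span of the sorted words -/
noncomputable def SV (k : Type) [CommRing k] (M : ℕ) (A : Finset ℕ) (d : ℕ) : Submodule k (W k (ℕ × Fin 3)) :=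
  Submodule.span k {w | ∃ (y : ℕ → ℤ) (b : ℤ), Srt A (vl M y) b d w}

noncomputable def zh (k : Type) [CommRing k] (K : ℕ) (A : Finset ℕ) : W k (ℕ × Fin 3) := e1 k (Ch k K A)
noncomputable def Zh (k : Type) [CommRing k] (K : ℕ) (A : Finset ℕ) : W k (ℕ × Fin 3) := ZL (zh k K) A

theorem zh_empty (K : ℕ) : zh k K ∅ = 0 := by rw [zh, Ch_empty, map_zero]

theorem zh_valid (M K : ℕ) (hK : 0 < K) (A : Finset ℕ) (hA : A ≠ ∅) (hM : A ⊆ Finset.range M) :
    zh k K A ∈ SV k M A (3 * A.card - 1) := by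
  have key : (Submodule.span k {w | ∃ y s, TV (k := k) A y s 0 (3 * A.card - 1) w}).map (e1 k).toLinearMap ≤
      SV k M A (3 * A.card - 1) := by
    unfold SV
    rw [Submodule.map_span_le]
    rintro w ⟨y, s, hw⟩
    exact Submodule.subset_span ⟨y, _, hw.srt hM (Nat.zero_le _)⟩
  exact key (Submodule.mem_map_of_mem (Ch_valid K hK A hA))

theorem HH_prod_valid (M : ℕ) (hM : 0 < M) {A B : Finset ℕ} (hd : Disjoint A B) {d e : ℕ} {u v : W k (ℕ × Fin 3)}
    (hu : u ∈ SV k M A d) (hv : v ∈ SV k M B e) : HH (u * uo k _ * v) ∈ SV k M (A ∪ B) (d + e + 1) := by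
  have key : ∀ v ∈ SV k M B e, ∀ u ∈ SV k M A d, HH (u * uo k _ * v) ∈ SV k M (A ∪ B) (d + e + 1) := by
    intro v hv
    refine Submodule.span_induction (p := fun v _ => ∀ u ∈ SV k M A d, HH (u * uo k _ * v) ∈ SV k M (A ∪ B) (d + e + 1))
      ?_ ?_ ?_ ?_ hv
    · rintro v ⟨y', b', hv⟩ u hu
      refine Submodule.span_induction (p := fun u _ => HH (u * uo k _ * v) ∈ SV k M (A ∪ B) (d + e + 1))
        ?_ ?_ ?_ ?_ hu
      · rintro u ⟨y, b, hu⟩
        -- bounds
        obtain ⟨c, hc⟩ : ∃ c : ℤ, b ≤ c ∧ ∀ x : ℕ × Fin 3, x.1 ∈ A → vl M y x ≤ c := by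
          refine ⟨|b| + ∑ i ∈ A, ∑ s : Fin 3, |vl M y (i, s)|, ?_, ?_⟩
          · have h1 : b ≤ |b| := le_abs_self b
            have h2 : 0 ≤ ∑ i ∈ A, ∑ s : Fin 3, |vl M y (i, s)| :=
              Finset.sum_nonneg (fun i _ => Finset.sum_nonneg (fun s _ => abs_nonneg _))
            linarith
          · rintro ⟨i, s⟩ hi
            have h1 : |vl M y (i, s)| ≤ ∑ s : Fin 3, |vl M y (i, s)| :=
              Finset.single_le_sum (f := fun s => |vl M y (i, s)|) (fun s _ => abs_nonneg _) (Finset.mem_univ s)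
            have h2 : ∑ s : Fin 3, |vl M y (i, s)| ≤ ∑ i ∈ A, ∑ s : Fin 3, |vl M y (i, s)| :=
              Finset.single_le_sum (f := fun i => ∑ s : Fin 3, |vl M y (i, s)|)
                (fun i _ => Finset.sum_nonneg (fun s _ => abs_nonneg _)) hi
            have h3 := le_abs_self (vl M y (i, s))
            have h4 := abs_nonneg b
            linarith
        obtain ⟨N, hN⟩ : ∃ N : ℕ, c ≤ b' + N * M := by
          refine ⟨(c - b').toNat, ?_⟩
          have h1 : c - b' ≤ ((c - b').toNat : ℤ) := Int.self_le_toNat _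
          have h2 : (1 : ℤ) ≤ M := by exact_mod_cast hM
          have h3 : (0 : ℤ) ≤ ((c - b').toNat : ℤ) := by positivity
          nlinarith
        classical
        set y'' : ℕ → ℤ := fun i => if i ∈ A then y i else y' i + N with hy''
        refine Submodule.subset_span ⟨y'', b, ?_⟩
        have hu' : Srt A (vl M y'') b d u := by
          have := hu.congr (val' := vl M y'') 0 (by
            intro x hx
            simp [vl, hy'', hx])
          simpa using this
        have hv' : Srt B (vl M y'') (b' + N * M) e v := by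
          refine hv.congr (val' := vl M y'') (N * M) ?_
          intro x hx
          have : x.1 ∉ A := fun h => (Finset.disjoint_left.1 hd h) hx
          simp only [vl, hy'', this, if_false]
          ring
        refine hu'.HHo (hv'.mono hN (Finset.Subset.refl _)) ?_ hc.1
        intro x hx
        have := hc.2 x hx
        simpa [vl, hy'', hx] using this
      · rw [zero_mul, zero_mul, map_zero]; exact zero_mem _
      · intro x y _ _ hx hy; rw [add_mul, add_mul, map_add]; exact add_mem hx hy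
      · intro c x _ hx; rw [smul_mul_assoc, smul_mul_assoc, map_smul]; exact Submodule.smul_mem _ c hx
    · intro u _; rw [mul_zero, map_zero]; exact zero_mem _
    · intro x y _ _ hx hy u hu; rw [mul_add, map_add]; exact add_mem (hx u hu) (hy u hu)
    · intro c x _ hx u hu; rw [mul_smul_comm, map_smul]; exact Submodule.smul_mem _ c (hx u hu)
  exact key v hv u hu

theorem Zh_valid (M K : ℕ) (hK : 0 < K) (hM0 : 0 < M) : ∀ A : Finset ℕ, (A ⊆ Finset.range M → A ≠ ∅ →
    Zh k K A ∈ SV k M A (3 * A.card - 1)) := by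
  refine split_ind (P := fun A => A ⊆ Finset.range M → A ≠ ∅ → Zh k K A ∈ SV k M A (3 * A.card - 1)) ?_ ?_
  · intro _ h; exact absurd rfl h
  · intro A hA ih hM _
    rw [Zh, ZL_eq (zh_empty K)]
    refine add_mem ?_ ?_
    · have key : (SV k M A (3 * A.card - 1)).map NN ≤ SV k M A (3 * A.card - 1) := by
        unfold SV
        rw [Submodule.map_span_le]
        rintro w ⟨y, s, hw⟩
        exact Submodule.subset_span ⟨y, _, hw.NN⟩
      exact key (Submodule.mem_map_of_mem (zh_valid M K hK A hA hM))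
    · refine WL_ind (Q := fun v => HH v ∈ SV k M A (3 * A.card - 1)) (zh_empty K) ?_ ?_ ?_
      · rw [map_zero]; exact zero_mem _
      · intro x y hx hy; rw [map_add]; exact add_mem hx hy
      · intro B hB h1 h2
        rw [map_smul]
        refine Submodule.smul_mem _ _ ?_
        obtain ⟨i1, i2⟩ := ih B hB h1 h2
        have h3 : A \ B ≠ ∅ := by
          rw [Ne, Finset.sdiff_eq_empty_iff_subset]
          exact fun h => h2 (Finset.Subset.antisymm hB h)
        have j1 := i1 (hB.trans hM) h1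
        have j2 := i2 (Finset.sdiff_subset.trans hM) h3
        have := HH_prod_valid M hM0 Finset.disjoint_sdiff j1 j2
        rw [Finset.union_sdiff_of_subset hB] at this
        have c1 : 0 < B.card := Finset.card_pos.2 (Finset.nonempty_iff_ne_empty.2 h1)
        have c2 : 0 < (A \ B).card := Finset.card_pos.2 (Finset.nonempty_iff_ne_empty.2 h3)
        have c3 : (A \ B).card + B.card = A.card := Finset.card_sdiff_add_card_eq_card hB
        have e : 3 * B.card - 1 + (3 * (A \ B).card - 1) + 1 = 3 * A.card - 1 := by omega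
        rw [e] at this
        exact this

end

end Pool.Agent.H168R3
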