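import Pool.Agent.H168R3.Eval2
import Pool.Agent.H168R2.NN.Basic

/-! Nonvanishing of the colour functional gives a matching. -/

namespace Pool.Agent.H168R3

open FreeAlgebra

section
variable {k : Type} [CommRing k] {Y Y' : Type}

def mapA (f : ℕ × Y → ℕ × Y') (acc : Acc Y) : Acc Y' := fun i => (acc i).map (fun e => (e.1, (f (i, e.2)).2))

theorem Ev_mp (A : Finset ℕ) (f : ℕ × Y → ℕ × Y') (hf : ∀ x, (f x).1 = x.1) (v : W k (ℕ × Y)) (F : Fn k Y') :
    ∀ t acc, Ev A (mp k f v) F t (mapA f acc) = Ev A v (fun t acc => F t (mapA f acc)) t acc := by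
  refine ind (P := fun v => ∀ t acc, Ev A (mp k f v) F t (mapA f acc) = Ev A v (fun t acc => F t (mapA f acc)) t acc)
    ?_ ?_ ?_ ?_ v
  · intro t acc; rw [map_one, Ev_one, Ev_one]
  · intro u v hu hv t acc; rw [map_add, Ev_add, Ev_add, hu, hv]
  · intro c v hv t acc; rw [map_smul, Ev_smul, Ev_smul, hv]
  · intro a v hv t acc
    rw [map_mul]
    cases a with
    | none =>
      have : mp k f (ι k none) = uo k _ := mp_o _
      rw [this, Ev_o, hv]
      exact (Ev_o _ _ _ _ _).symm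
    | some x =>
      have : mp k f (ι k (some x)) = ux k (f x) := mp_x _ _
      rw [this, Ev_x]
      refine Eq.trans ?_ (Ev_x _ _ _ _ _ _).symm
      rw [← hv]
      have h1 : sg k (A.filter ((f x).1 < ·)) (mapA f acc) = sg k (A.filter (x.1 < ·)) acc := by
        rw [hf]
        unfold sg mapA
        simp
      have h2 : push (mapA f acc) (f x).1 (t, (f x).2) = mapA f (push acc x.1 (t, x.2)) := by
        funext i
        rw [hf]
        unfold push mapA
        by_cases hi : i = x.1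
        · subst hi; simp
        · simp [Function.update_of_ne hi]
      rw [h1, h2]

theorem mapA_acc0 (f : ℕ × Y → ℕ × Y') : mapA f acc0 = acc0 := by
  funext i; simp [mapA, acc0]

theorem v2_map (e : Y' → k) (g : Y → Y') (χ : ℕ → ℕ → k) (L : List (ℕ × Y)) :
    v2 e χ (L.map (fun x => (x.1, g x.2))) = v2 (fun c => e (g c)) χ L := by
  match L with
  | [] => rfl
  | [a] => rfl
  | [a, b] => rfl
  | a :: b :: c :: L => rfl

theorem v3_map (e : Y' → k) (g : Y → Y') (χ : ℕ → ℕ → k) (L : List (ℕ × Y)) :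
    v3 e χ (L.map (fun x => (x.1, g x.2))) = v3 (fun c => e (g c)) χ L := by
  unfold v3
  rw [List.length_map]
  apply Finset.sum_congr rfl
  intro i _
  rw [List.eraseIdx_map, v2_map]

theorem v2_sub (e e' : Y → k) (χ : ℕ → ℕ → k) (L : List (ℕ × Y)) :
    v2 e χ L - v2 e' χ L = v2 (fun c => e c - e' c) χ L := by
  match L with
  | [] => simp [v2]
  | [a] => simp [v2]
  | [a, b] => simp [v2]; ring
  | a :: b :: c :: L => simp [v2]

theorem v3_sub (e e' : Y → k) (χ : ℕ → ℕ → k) (L : List (ℕ × Y)) :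
    v3 e χ L - v3 e' χ L = v3 (fun c => e c - e' c) χ L := by
  unfold v3
  rw [← Finset.sum_sub_distrib]
  apply Finset.sum_congr rfl
  intro i _
  rw [← v2_sub]; ring

end

section
variable {k : Type} [CommRing k]

def gB (b : Bool) (c : Fin 3) : Bool := if c = 0 then false else if c = 2 then true else b

def eh (k : Type) [CommRing k] (c : Fin 3) : k := eb k (gB false c) - eb k (gB true c)

theorem om_map (χ : ℕ → ℕ → k) (i κ : ℕ) (L : List (ℕ × Fin 3)) :
    om (eb k) χ χ i κ (L.map (fun x => (x.1, gB false x.2))) - om (eb k) χ χ i κ (L.map (fun x => (x.1, gB true x.2))) =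
      om (eh k) χ χ i κ L := by
  unfold om
  split_ifs
  · rw [v2_map, v2_map, v2_sub]; rfl
  · rw [v3_map, v3_map, v3_sub]; rfl

theorem sum_S (A : Finset ℕ) (w : ℕ → List (ℕ × Bool) → k) (acc : Acc (Fin 3)) :
    ∑ S ∈ A.powerset, (-1 : k) ^ S.card * ∏ κ ∈ A, w κ (mapA (fS S) acc κ) =
    ∏ κ ∈ A, (w κ ((acc κ).map (fun x => (x.1, gB false x.2))) - w κ ((acc κ).map (fun x => (x.1, gB true x.2)))) := by
  have h1 : ∀ κ, w κ ((acc κ).map (fun x => (x.1, gB false x.2))) - w κ ((acc κ).map (fun x => (x.1, gB true x.2))) =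
      (-1) * w κ ((acc κ).map (fun x => (x.1, gB true x.2))) + w κ ((acc κ).map (fun x => (x.1, gB false x.2))) := by
    intro κ; ring
  simp only [h1]
  rw [Finset.prod_add]
  apply Finset.sum_congr rfl
  intro S hS
  rw [Finset.mem_powerset] at hS
  rw [Finset.prod_mul_distrib, Finset.prod_const, mul_assoc, ← Finset.prod_sdiff hS, mul_comm (∏ x ∈ A \ S, _)]
  congr 2
  · apply Finset.prod_congr rfl
    intro κ hκ
    congr 1
    unfold mapA fS gB
    simp [hκ]
  · apply Finset.prod_congr rfl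
    intro κ hκ
    have := (Finset.mem_sdiff.1 hκ).2
    congr 1
    unfold mapA fS gB
    simp [this]

theorem Ev_Phi (A : Finset ℕ) (χ : ℕ → ℕ → k) (i : ℕ) (w : W k (ℕ × Fin 3)) (t : ℕ) :
    Ev A (Phi k A w) (Om A (om (eb k) χ χ i)) t acc0 = Ev A w (Om A (om (eh k) χ χ i)) t acc0 := by
  have hF : Om A (om (eh k) χ χ i) = ∑ S ∈ A.powerset, ((-1 : k) ^ S.card) •
      (fun t acc => Om A (om (eb k) χ χ i) t (mapA (fS S) acc) : Fn k (Fin 3)) := by
    funext t acc
    rw [Finset.sum_apply, Finset.sum_apply]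
    simp only [Pi.smul_apply, smul_eq_mul, Om]
    rw [sum_S]
    apply Finset.prod_congr rfl
    intro κ _
    rw [om_map]
  rw [hF, map_sum, Finset.sum_apply, Finset.sum_apply, Phi_apply, map_sum, LinearMap.sum_apply, Finset.sum_apply,
    Finset.sum_apply]
  apply Finset.sum_congr rfl
  intro S _
  rw [Ev_smul, map_smul]
  have h1 := Ev_mp A (fS S) (fun _ => rfl) w (Om A (om (eb k) χ χ i)) t acc0
  rw [mapA_acc0] at h1
  rw [h1]; rfl

/-- consistent reading state -/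
def GA (val : ℕ × Fin 3 → ℤ) (t0 t : ℕ) (b : ℤ) (acc : Acc (Fin 3)) : Prop :=
  (∀ i, ∀ e ∈ acc i, t0 ≤ e.1 ∧ e.1 < t ∧ val (i, e.2) ≤ b) ∧
  (∀ i i', ∀ e ∈ acc i, ∀ e' ∈ acc i', e.1 < e'.1 → val (i, e.2) ≤ val (i', e'.2)) ∧
  (∀ i i', ∀ e ∈ acc i, ∀ e' ∈ acc i', e.1 = e'.1 → i = i') ∧
  (∀ i, (acc i).Pairwise (fun e e' => e.1 < e'.1))

theorem GA_push {val : ℕ × Fin 3 → ℤ} {t0 t : ℕ} (h0 : t0 ≤ t) {b : ℤ} {acc : Acc (Fin 3)} (h : GA val t0 t b acc) (x : ℕ × Fin 3)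
    (hb : b ≤ val x) : GA val t0 (t + 1) (val x) (push acc x.1 (t, x.2)) := by
  obtain ⟨h1, h2, h3, h4⟩ := h
  have hmem : ∀ i, ∀ e ∈ push acc x.1 (t, x.2) i, (e ∈ acc i ∧ e.1 < t) ∨ (i = x.1 ∧ e = (t, x.2)) := by
    intro i e he
    unfold push at he
    by_cases hi : i = x.1
    · subst hi
      rw [Function.update_self, List.mem_append, List.mem_singleton] at he
      rcases he with he | he
      · exact Or.inl ⟨he, (h1 _ _ he).2.1⟩
      · exact Or.inr ⟨rfl, he⟩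
    · rw [Function.update_of_ne hi] at he
      exact Or.inl ⟨he, (h1 _ _ he).2.1⟩
  refine ⟨?_, ?_, ?_, ?_⟩
  · intro i e he
    rcases hmem i e he with ⟨h, _⟩ | ⟨rfl, rfl⟩
    · have := h1 i e h
      exact ⟨this.1, by omega, this.2.2.trans hb⟩
    · exact ⟨h0, by simp, le_rfl⟩
  · intro i i' e he e' he' hlt
    rcases hmem i e he with ⟨h, hh⟩ | ⟨rfl, rfl⟩ <;> rcases hmem i' e' he' with ⟨h', hh'⟩ | ⟨rfl, rfl⟩
    · exact h2 _ _ _ h _ h' hlt
    · exact (h1 i e h).2.2.trans hb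
    · simp only at hlt; omega
    · exact le_rfl
  · intro i i' e he e' he' heq
    rcases hmem i e he with ⟨h, hh⟩ | ⟨rfl, rfl⟩ <;> rcases hmem i' e' he' with ⟨h', hh'⟩ | ⟨rfl, rfl⟩
    · exact h3 _ _ _ h _ h' heq
    · simp only at heq; omega
    · simp only at heq; omega
    · rfl
  · intro i
    unfold push
    by_cases hi : i = x.1
    · subst hi
      rw [Function.update_self, List.pairwise_append]
      refine ⟨h4 _, List.pairwise_singleton _ _, ?_⟩
      intro e he e' he'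
      rw [List.mem_singleton] at he'
      rw [he']
      exact (h1 _ _ he).2.1
    · rw [Function.update_of_ne hi]; exact h4 i

theorem Ev_valid {A : Finset ℕ} {val : ℕ × Fin 3 → ℤ} {t0 T : ℕ} (F : Fn k (Fin 3))
    (hF : ∀ acc b', GA val t0 T b' acc → F T acc = 0) {b : ℤ} {d : ℕ} {w : W k (ℕ × Fin 3)} (hw : Srt A val b d w) :
    ∀ t acc, t0 ≤ t → t + d = T → GA val t0 t b acc → Ev A w F t acc = 0 := by
  induction hw with
  | one b => intro t acc _ h hg; rw [Ev_one]; subst h; exact hF acc b (by simpa using hg)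
  | zero b d => intro t acc _ h hg; rw [map_zero]; simp
  | add _ _ ih1 ih2 => intro t acc h0 h hg; rw [Ev_add, ih1 _ _ h0 h hg, ih2 _ _ h0 h hg, add_zero]
  | smul c _ ih => intro t acc h0 h hg; rw [Ev_smul, ih _ _ h0 h hg, mul_zero]
  | @x b d v x hx hbx _ ih =>
    intro t acc h0 h hg
    rw [Ev_x, ih (t + 1) _ (by omega) (by omega) (GA_push h0 hg x hbx), mul_zero]

theorem eh_ne {a b : Fin 3} (hab : a ≤ b) (h : eh k b - eh k a ≠ 0) : b.1 = a.1 + 1 := by
  revert hab h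
  fin_cases a <;> fin_cases b <;> simp [eh, gB, eb]

theorem v2_edge {χ : ℕ → ℕ → k} {a b : ℕ × Fin 3} (hab : a.2 ≤ b.2) (h : v2 (eh k) χ [a, b] ≠ 0) :
    b.2.1 = a.2.1 + 1 ∧ χ a.1 b.1 ≠ 0 := by
  have h1 : (eh k b.2 - eh k a.2) * χ a.1 b.1 ≠ 0 := h
  exact ⟨eh_ne hab (left_ne_zero_of_mul h1), right_ne_zero_of_mul h1⟩

theorem om_edge {χ : ℕ → ℕ → k} {i κ : ℕ} {L : List (ℕ × Fin 3)} (hp : L.Pairwise (fun e e' => e.1 < e'.1))
    (hs : ∀ e ∈ L, ∀ e' ∈ L, e.1 < e'.1 → e.2 ≤ e'.2) (h : om (eh k) χ χ i κ L ≠ 0) :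
    ∃ a ∈ L, ∃ b ∈ L, a.1 < b.1 ∧ b.2.1 = a.2.1 + 1 ∧ χ a.1 b.1 ≠ 0 := by
  unfold om at h
  split_ifs at h
  · have hl : L.length = 2 := by
      by_contra hl; exact h (v2_len _ _ hl)
    match L, hl with
    | [a, b], _ =>
      have hlt : a.1 < b.1 := by simpa using hp
      have := v2_edge (hs a (by simp) b (by simp) hlt) h
      exact ⟨a, by simp, b, by simp, hlt, this.1, this.2⟩
  · have hl : L.length = 3 := by
      by_contra hl; exact h (v3_len _ _ hl)
    match L, hl with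
    | [x, y, z], _ =>
      have hlt : (x.1 < y.1 ∧ x.1 < z.1) ∧ y.1 < z.1 := by simpa using hp
      obtain ⟨⟨h1, h2⟩, h3⟩ := hlt
      rw [v3_three] at h
      by_cases c1 : v2 (eh k) χ [y, z] = 0
      · by_cases c2 : v2 (eh k) χ [x, z] = 0
        · have c3 : v2 (eh k) χ [x, y] ≠ 0 := by
            intro c3; apply h; rw [c1, c2, c3]; ring
          have := v2_edge (hs x (by simp) y (by simp) h1) c3
          exact ⟨x, by simp, y, by simp, h1, this.1, this.2⟩
        · have := v2_edge (hs x (by simp) z (by simp) h2) c2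
          exact ⟨x, by simp, z, by simp, h2, this.1, this.2⟩
      · have := v2_edge (hs y (by simp) z (by simp) h3) c1
        exact ⟨y, by simp, z, by simp, h3, this.1, this.2⟩

/-- existence of a monochromatic non-nested matching of size `n` inside `[lo, hi)` -/
def HM (c : ℕ → ℕ → Bool) (s : Bool) (lo hi n : ℕ) : Prop :=
  ∃ M : Finset (ℕ × ℕ), Pool.Agent.H168R2.NN.IsM c s M ∧ (∀ e ∈ M, lo ≤ e.1 ∧ e.2 < hi) ∧ M.card = n

def ch (k : Type) [CommRing k] (c : ℕ → ℕ → Bool) (s : Bool) (a b : ℕ) : k := if c a b = s then 1 else 0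

theorem vl_ne {M : ℕ} {y : ℕ → ℤ} {i i' : ℕ} (hi : i < M) (hi' : i' < M) (hne : i ≠ i') (c c' : Fin 3) :
    vl M y (i, c) ≠ vl M y (i', c') := by
  intro h
  unfold vl at h
  simp only at h
  apply hne
  have h1 : ((y i + c.1) * M + i) % (M : ℤ) = i := by
    rw [add_comm, Int.add_mul_emod_self_right]
    exact Int.emod_eq_of_lt (by positivity) (by exact_mod_cast hi)
  have h2 : ((y i' + c'.1) * M + i') % (M : ℤ) = i' := by
    rw [add_comm, Int.add_mul_emod_self_right]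
    exact Int.emod_eq_of_lt (by positivity) (by exact_mod_cast hi')
  rw [h, h2] at h1
  exact_mod_cast h1.symm

theorem matching_of_acc {M : ℕ} {A : Finset ℕ} (hA : A ⊆ Finset.range M) {y : ℕ → ℤ} {t0 T : ℕ} {b : ℤ}
    {acc : Acc (Fin 3)} (hg : GA (vl M y) t0 T b acc) (c : ℕ → ℕ → Bool) (s : Bool) (i : ℕ)
    (h : Om A (om (eh k) (ch k c s) (ch k c s) i) T acc ≠ 0) : HM c s t0 T A.card := by
  classical
  obtain ⟨g1, g2, g3, g4⟩ := hg
  have hedge : ∀ κ ∈ A, ∃ a ∈ acc κ, ∃ b ∈ acc κ, a.1 < b.1 ∧ b.2.1 = a.2.1 + 1 ∧ ch k c s a.1 b.1 ≠ 0 := by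
    intro κ hκ
    have hne : om (eh k) (ch k c s) (ch k c s) i κ (acc κ) ≠ 0 := by
      intro h0
      exact h (Finset.prod_eq_zero hκ h0)
    refine om_edge (g4 κ) ?_ hne
    intro e he e' he' hlt
    have h1 := g2 κ κ e he e' he' hlt
    unfold vl at h1
    simp only at h1
    have hM : 0 < M := by have := Finset.mem_range.1 (hA hκ); omega
    have hM' : (0 : ℤ) < M := by exact_mod_cast hM
    have h2 : (y κ + e.2.1) * M ≤ (y κ + e'.2.1) * M := by linarith
    have h3 := le_of_mul_le_mul_right h2 hM'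
    have h4 : (e.2.1 : ℤ) ≤ e'.2.1 := by linarith
    exact_mod_cast h4
  choose! fa hfa fb hfb hlt hcl hχ using hedge
  have hbef : ∀ κ ∈ A, ∀ κ' ∈ A, κ ≠ κ' → (fa κ).1 < (fa κ').1 →
      Pool.Agent.H168R2.NN.Bef ((fa κ).1, (fb κ).1) ((fa κ').1, (fb κ').1) := by
    intro κ hκ κ' hκ' hne hl
    have hm := Finset.mem_range.1 (hA hκ)
    have hm' := Finset.mem_range.1 (hA hκ')
    have h1 := g2 κ κ' _ (hfa κ hκ) _ (hfa κ' hκ') hl
    have h2 : vl M y (κ, (fa κ).2) < vl M y (κ', (fa κ').2) := lt_of_le_of_ne h1 (vl_ne hm hm' hne _ _)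
    have e1 : vl M y (κ, (fb κ).2) = vl M y (κ, (fa κ).2) + M := by
      unfold vl; simp only; rw [hcl κ hκ]; push_cast; ring
    have e2 : vl M y (κ', (fb κ').2) = vl M y (κ', (fa κ').2) + M := by
      unfold vl; simp only; rw [hcl κ' hκ']; push_cast; ring
    refine ⟨hl, ?_, ?_⟩
    · by_contra h3
      simp only at h3
      rcases lt_or_eq_of_le (not_lt.1 h3) with h4 | h4
      · have h5 := g2 κ' κ _ (hfb κ' hκ') _ (hfb κ hκ) h4
        omega
      · exact hne (g3 κ' κ _ (hfb κ' hκ') _ (hfb κ hκ) h4).symm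
    · intro h3
      simp only at h3
      exact hne (g3 κ κ' _ (hfb κ hκ) _ (hfa κ' hκ') h3)
  have hne1 : ∀ κ ∈ A, ∀ κ' ∈ A, κ ≠ κ' → (fa κ).1 ≠ (fa κ').1 := by
    intro κ hκ κ' hκ' hne h3
    exact hne (g3 κ κ' _ (hfa κ hκ) _ (hfa κ' hκ') h3)
  refine ⟨A.image (fun κ => ((fa κ).1, (fb κ).1)), ⟨?_, ?_⟩, ?_, ?_⟩
  · intro e he
    obtain ⟨κ, hκ, rfl⟩ := Finset.mem_image.1 he
    refine ⟨hlt κ hκ, ?_⟩
    have := hχ κ hκ
    unfold ch at this
    by_contra h3
    rw [if_neg h3] at this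
    exact this rfl
  · intro e he f hf hef
    obtain ⟨κ, hκ, rfl⟩ := Finset.mem_image.1 he
    obtain ⟨κ', hκ', rfl⟩ := Finset.mem_image.1 hf
    have hne : κ ≠ κ' := by rintro rfl; exact hef rfl
    rcases lt_or_gt_of_ne (hne1 κ hκ κ' hκ' hne) with h3 | h3
    · exact Or.inl (hbef κ hκ κ' hκ' hne h3)
    · exact Or.inr (hbef κ' hκ' κ hκ (Ne.symm hne) h3)
  · intro e he
    obtain ⟨κ, hκ, rfl⟩ := Finset.mem_image.1 he
    exact ⟨(g1 _ _ (hfa κ hκ)).1, (g1 _ _ (hfb κ hκ)).2.1⟩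
  · apply Finset.card_image_of_injOn
    intro κ hκ κ' hκ' heq
    by_contra hne
    have h9 : ((fa κ).1, (fb κ).1) = ((fa κ').1, (fb κ').1) := heq
    exact hne1 κ hκ κ' hκ' hne (Prod.ext_iff.1 h9).1

theorem E3a (K : ℕ) (hK : 0 < K) (c : ℕ → ℕ → Bool) (s : Bool) (A : Finset ℕ) (t : ℕ)
    (h : PP K (ch k c s) (ch k c s) A t ≠ 0) : HM c s t (t + (3 * A.card - 1)) A.card := by
  by_contra hno
  apply h
  have hA : A ≠ ∅ := by rintro rfl; exact h (PP_empty _ _ _ _)
  unfold PP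
  apply Finset.sum_eq_zero
  intro i _
  rw [Z_eq_Phi, Ev_Phi]
  obtain ⟨M, hM⟩ : ∃ M, A ⊆ Finset.range M := ⟨A.sup id + 1, fun x hx => Finset.mem_range.2 (Nat.lt_succ_of_le (Finset.le_sup (f := id) hx))⟩
  have hM0 : 0 < M := by
    obtain ⟨x, hx⟩ := Finset.nonempty_iff_ne_empty.2 hA
    have := Finset.mem_range.1 (hM hx)
    omega
  have hz := Zh_valid (k := k) M K hK hM0 A hM hA
  have key : ∀ w ∈ SV k M A (3 * A.card - 1), Ev A w (Om A (om (eh k) (ch k c s) (ch k c s) i)) t acc0 = 0 := by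
    intro w hw
    refine Submodule.span_induction (p := fun w _ => Ev A w (Om A (om (eh k) (ch k c s) (ch k c s) i)) t acc0 = 0) ?_ ?_ ?_ ?_ hw
    · rintro w ⟨y, b, hw⟩
      refine Ev_valid (t0 := t) (T := t + (3 * A.card - 1)) _ ?_ hw t acc0 le_rfl rfl ?_
      · intro acc b' hg
        by_contra hne
        exact hno (matching_of_acc hM hg c s i hne)
      · refine ⟨?_, ?_, ?_, ?_⟩ <;> intro i <;> simp [acc0]
    · rw [map_zero]; simp
    · intro x y _ _ hx hy; rw [Ev_add, hx, hy, add_zero]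
    · intro c x _ hx; rw [Ev_smul, hx, mul_zero]
  rw [key _ hz, mul_zero]

theorem PP_swap (K : ℕ) (χr χb : ℕ → ℕ → k) (h : ∀ a b, χr a b + χb a b = 1) (A : Finset ℕ) (t : ℕ) :
    PP K χb χr A t = (-1) ^ (A.card - 1) * PP K χb χb A t := by
  unfold PP
  rw [Finset.mul_sum]
  apply Finset.sum_congr rfl
  intro i hi
  have hF : Om A (om (eb k) χb χr i) = ((-1 : k) ^ (A.card - 1)) • Om A (om (eb k) χb χb i) := by
    funext t acc
    change ∏ κ ∈ A, om (eb k) χb χr i κ (acc κ) = (-1 : k) ^ (A.card - 1) * ∏ κ ∈ A, om (eb k) χb χb i κ (acc κ)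
    rw [← Finset.mul_prod_erase A _ hi, ← Finset.mul_prod_erase A (fun κ => om (eb k) χb χb i κ (acc κ)) hi]
    have e1 : ∏ κ ∈ A.erase i, om (eb k) χb χr i κ (acc κ) = (-1) ^ (A.card - 1) * ∏ κ ∈ A.erase i, om (eb k) χb χb i κ (acc κ) := by
      rw [← Finset.card_erase_of_mem hi, ← Finset.prod_const, ← Finset.prod_mul_distrib]
      apply Finset.prod_congr rfl
      intro κ hκ
      unfold om
      rw [if_neg (Finset.ne_of_mem_erase hκ), if_neg (Finset.ne_of_mem_erase hκ), v3_neg (eb k) χr χb h]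
      ring
    rw [e1]
    simp only [om, if_true]
    ring
  rw [hF, map_smul]
  simp only [Pi.smul_apply, smul_eq_mul]
  ring

theorem E3 (K : ℕ) (hK : 0 < K) (c : ℕ → ℕ → Bool) (A : Finset ℕ) (t : ℕ) :
    (PP K (ch k c true) (ch k c true) A t ≠ 0 → HM c true t (t + (3 * A.card - 1)) A.card) ∧
    (PP K (ch k c false) (ch k c true) A t ≠ 0 → HM c false t (t + (3 * A.card - 1)) A.card) := by
  refine ⟨E3a K hK c true A t, ?_⟩
  intro h
  apply E3a (k := k) K hK c false A t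
  intro h0
  apply h
  rw [PP_swap K (ch k c true) (ch k c false) (fun a b => by unfold ch; cases c a b <;> simp), h0, mul_zero]

end

end Pool.Agent.H168R3
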